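import Mathlib

/-!
# Geometric means of inner products (linear algebra)

`IsGM g g' h` : the inner product `h` is the geometric mean of the inner products `g` and `g'`.
-/

namespace Pool.Agent.H82.Adapted

open Module

variable {V : Type*} [AddCommGroup V] [Module ℝ V]

/-- `g` is an inner product: a symmetric, positive definite bilinear form. -/
structure IsInner (g : V →ₗ[ℝ] V →ₗ[ℝ] ℝ) : Prop where
  symm : ∀ v w, g v w = g w v
  pos : ∀ v, v ≠ 0 → 0 < g v v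

/-- `h` is the geometric mean of the inner products `g` and `g'`. -/
def IsGM (g g' h : V →ₗ[ℝ] V →ₗ[ℝ] ℝ) : Prop :=
  ∃ S : V →ₗ[ℝ] V, (∀ v w, g (S v) w = h v w) ∧ (∀ v w, h (S v) w = g' v w)

namespace IsInner

variable {g : V →ₗ[ℝ] V →ₗ[ℝ] ℝ}

lemma nonneg (hg : IsInner g) (v : V) : 0 ≤ g v v := by
  by_cases h : v = 0
  · simp [h]
  · exact (hg.pos v h).le

lemma eq_zero_of_self (hg : IsInner g) {v : V} (h : g v v = 0) : v = 0 := by
  by_contra hv
  exact (hg.pos v hv).ne' h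

lemma eq_of_forall (hg : IsInner g) {v w : V} (h : ∀ u, g v u = g w u) : v = w := by
  have h1 : g (v - w) (v - w) = 0 := by
    have h2 : g (v - w) = g v - g w := map_sub g v w
    rw [h2, LinearMap.sub_apply, h, sub_self]
  exact sub_eq_zero.mp (hg.eq_zero_of_self h1)

/-- Cauchy-Schwarz. -/
lemma cauchy_schwarz (hg : IsInner g) (v w : V) : (g v w) ^ 2 ≤ g v v * g w w := by
  by_cases hv : v = 0
  · simp [hv]
  have h1 := hg.pos v hv
  have h2 := hg.nonneg ((g v v) • w - (g v w) • v)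
  have h3 : g ((g v v) • w - (g v w) • v) ((g v v) • w - (g v w) • v) =
      g v v * (g v v * g w w - (g v w) ^ 2) := by
    simp only [map_sub, map_smul, LinearMap.sub_apply, LinearMap.smul_apply, smul_eq_mul]
    rw [hg.symm w v]
    ring
  rw [h3] at h2
  have h4 : 0 ≤ g v v * g w w - (g v w) ^ 2 := by
    by_contra h5
    push Not at h5
    have := mul_neg_of_pos_of_neg h1 h5
    linarith
  linarith

end IsInner

/-- Simultaneous diagonalisation. -/
lemma exists_simul_diag [FiniteDimensional ℝ V] {g h : V →ₗ[ℝ] V →ₗ[ℝ] ℝ} (hg : IsInner g)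
    (hh : ∀ v w, h v w = h w v) :
    ∃ (n : ℕ) (b : Basis (Fin n) ℝ V) (σ : Fin n → ℝ),
      (∀ i j, g (b i) (b j) = if i = j then 1 else 0) ∧
      (∀ i v, h (b i) v = σ i * g (b i) v) := by
  classical
  let core : InnerProductSpace.Core ℝ V :=
    { inner := fun v w => g v w
      conj_inner_symm := fun v w => by simpa using hg.symm w v
      re_inner_nonneg := fun v => by simpa using hg.nonneg v
      add_left := fun u v w => by simp
      smul_left := fun u v r => by simp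
      definite := fun v hv => hg.eq_zero_of_self hv }
  let _ : NormedAddCommGroup V := core.toNormedAddCommGroup
  let _ : InnerProductSpace ℝ V := InnerProductSpace.ofCore core.toCore
  have hinner : ∀ v w : V, inner ℝ v w = g v w := fun v w => rfl
  -- the operator `T = g⁻¹ h`
  have hinj : Function.Injective g := by
    intro v w hvw
    exact hg.eq_of_forall (fun u => by rw [hvw])
  let e : V ≃ₗ[ℝ] (V →ₗ[ℝ] ℝ) := LinearEquiv.ofInjectiveOfFinrankEq g hinj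
    (Subspace.dual_finrank_eq (K := ℝ) (V := V)).symm
  have he : ∀ v, e v = g v := fun v => rfl
  let T : V →ₗ[ℝ] V := e.symm.toLinearMap ∘ₗ h
  have hT : ∀ v w, g (T v) w = h v w := by
    intro v w
    have : e (T v) = h v := by simp [T]
    rw [← he, this]
  have hsymm : T.IsSymmetric := by
    intro v w
    rw [hinner, hinner, hT, hg.symm v (T w), hT, hh]
  have hn : Module.finrank ℝ V = Module.finrank ℝ V := rfl
  refine ⟨Module.finrank ℝ V, (hsymm.eigenvectorBasis hn).toBasis, hsymm.eigenvalues hn, ?_, ?_⟩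
  · intro i j
    rw [← hinner]
    simp only [OrthonormalBasis.coe_toBasis]
    have := (hsymm.eigenvectorBasis hn).orthonormal
    rw [orthonormal_iff_ite] at this
    exact this i j
  · intro i v
    rw [← hT]
    simp only [OrthonormalBasis.coe_toBasis]
    rw [hsymm.apply_eigenvectorBasis hn i]
    simp

section Expand

variable {g h : V →ₗ[ℝ] V →ₗ[ℝ] ℝ} {n : ℕ} {b : Basis (Fin n) ℝ V} {σ : Fin n → ℝ}

lemma expand_left (f : V →ₗ[ℝ] V →ₗ[ℝ] ℝ) (b : Basis (Fin n) ℝ V) (v w : V) :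
    f v w = ∑ i, b.repr v i * f (b i) w := by
  conv_lhs => rw [← b.sum_repr v]
  rw [map_sum, LinearMap.sum_apply]
  simp

lemma expand_right (f : V →ₗ[ℝ] V →ₗ[ℝ] ℝ) (b : Basis (Fin n) ℝ V) (v w : V) :
    f v w = ∑ i, b.repr w i * f v (b i) := by
  conv_lhs => rw [← b.sum_repr w]
  rw [map_sum]
  simp

lemma expand_orthonormal (hb : ∀ i j, g (b i) (b j) = if i = j then 1 else 0) (i : Fin n) (w : V) :
    g (b i) w = b.repr w i := by
  rw [expand_right g b]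
  simp [hb]

lemma expand_g (hb : ∀ i j, g (b i) (b j) = if i = j then 1 else 0) (v w : V) :
    g v w = ∑ i, b.repr v i * b.repr w i := by
  rw [expand_left g b]
  simp [expand_orthonormal hb]

lemma expand_h (hb : ∀ i j, g (b i) (b j) = if i = j then 1 else 0)
    (hσ : ∀ i v, h (b i) v = σ i * g (b i) v) (v w : V) :
    h v w = ∑ i, σ i * (b.repr v i * b.repr w i) := by
  rw [expand_left h b]
  refine Finset.sum_congr rfl fun i _ => ?_
  rw [hσ, expand_orthonormal hb]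
  ring

end Expand

/-- Existence of the geometric mean. -/
lemma exists_isGM [FiniteDimensional ℝ V] {g g' : V →ₗ[ℝ] V →ₗ[ℝ] ℝ} (hg : IsInner g)
    (hg' : IsInner g') : ∃ h : V →ₗ[ℝ] V →ₗ[ℝ] ℝ, IsInner h ∧ IsGM g g' h := by
  classical
  obtain ⟨n, b, σ, hb, hσ⟩ := exists_simul_diag hg hg'.symm
  have hσpos : ∀ i, 0 < σ i := by
    intro i
    have h1 := hσ i (b i)
    rw [hb, if_pos rfl, mul_one] at h1
    rw [← h1]
    exact hg'.pos _ (b.ne_zero i)
  let h : V →ₗ[ℝ] V →ₗ[ℝ] ℝ := ∑ i, Real.sqrt (σ i) • ((b.coord i).smulRight (b.coord i))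
  have hh : ∀ v w, h v w = ∑ i, Real.sqrt (σ i) * (b.repr v i * b.repr w i) := by
    intro v w
    simp [h, LinearMap.sum_apply]
  let S : V →ₗ[ℝ] V := ∑ i, Real.sqrt (σ i) • ((b.coord i).smulRight (b i))
  have hS : ∀ v i, b.repr (S v) i = Real.sqrt (σ i) * b.repr v i := by
    intro v i
    simp only [S, LinearMap.sum_apply, LinearMap.smul_apply, LinearMap.smulRight_apply, map_sum,
      map_smul, Finsupp.coe_finsetSum, Finset.sum_apply, Finsupp.coe_smul, Pi.smul_apply,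
      smul_eq_mul, Basis.repr_self, Basis.coord_apply]
    rw [Finset.sum_eq_single i]
    · simp
    · intro j _ hj
      simp [Finsupp.single_eq_of_ne (Ne.symm hj)]
    · simp
  refine ⟨h, ⟨?_, ?_⟩, S, ?_, ?_⟩
  · intro v w
    rw [hh, hh]
    refine Finset.sum_congr rfl fun i _ => by ring
  · intro v hv
    rw [hh]
    have hex : ∃ i, b.repr v i ≠ 0 := by
      by_contra hne
      push Not at hne
      apply hv
      rw [← b.sum_repr v]
      simp [hne]
    obtain ⟨i, hi⟩ := hex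
    refine Finset.sum_pos' (fun j _ => ?_) ⟨i, Finset.mem_univ i, ?_⟩
    · have := mul_self_nonneg (b.repr v j)
      positivity
    · have h1 : 0 < b.repr v i * b.repr v i := mul_self_pos.mpr hi
      have h2 := Real.sqrt_pos.mpr (hσpos i)
      positivity
  · intro v w
    rw [expand_g hb, hh]
    refine Finset.sum_congr rfl fun i _ => ?_
    rw [hS]; ring
  · intro v w
    rw [hh, expand_h hb hσ]
    refine Finset.sum_congr rfl fun i _ => ?_
    rw [hS]
    have := Real.mul_self_sqrt (hσpos i).le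
    linear_combination (b.repr v i * b.repr w i) * this

section Apply

variable {g g' h : V →ₗ[ℝ] V →ₗ[ℝ] ℝ}

/-- The value of the second form in terms of the operator. -/
lemma apply_SS (hg : IsInner g) (hh : IsInner h) {S : V →ₗ[ℝ] V}
    (h1 : ∀ v w, g (S v) w = h v w) (h2 : ∀ v w, h (S v) w = g' v w) (v w : V) :
    g (S v) (S w) = g' v w := by
  rw [hg.symm, h1, hh.symm, h2]

/-- The geometric mean is symmetric. -/
lemma IsGM.comm [FiniteDimensional ℝ V] (hh : IsInner h) (H : IsGM g g' h) :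
    IsGM g' g h := by
  obtain ⟨S, h1, h2⟩ := H
  have hinj : Function.Injective S := by
    intro v w hvw
    exact hh.eq_of_forall (fun u => by rw [← h1, ← h1, hvw])
  let e := LinearEquiv.ofInjectiveEndo S hinj
  have he : ∀ v, S (e.symm v) = v := fun v => e.apply_symm_apply v
  refine ⟨e.symm.toLinearMap, fun v w => ?_, fun v w => ?_⟩
  · simp only [LinearEquiv.coe_coe]
    rw [← h2, he]
  · simp only [LinearEquiv.coe_coe]
    rw [← h1, he]

/-- Monotonicity of the geometric mean, with constants. -/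
lemma IsGM.mono [FiniteDimensional ℝ V] {k k' l : V →ₗ[ℝ] V →ₗ[ℝ] ℝ}
    (hg : IsInner g) (hg' : IsInner g') (hh : IsInner h) (H : IsGM g g' h)
    (hk : IsInner k) (hl : IsInner l) (K : IsGM k k' l)
    {a b : ℝ} (ha : 0 ≤ a) (hb : 0 ≤ b)
    (h1 : ∀ v, k v v ≤ a ^ 2 * g v v) (h2 : ∀ v, k' v v ≤ b ^ 2 * g' v v) (v : V) :
    l v v ≤ a * b * h v v := by
  classical
  obtain ⟨S, hS1, hS2⟩ := H
  obtain ⟨T, hT1, hT2⟩ := K
  obtain ⟨n, e, σ, he, hσ⟩ := exists_simul_diag hh hl.symm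
  have key : ∀ i, σ i ≤ a * b := by
    intro i
    have hpos : 0 < g' (e i) (e i) := hg'.pos _ (e.ne_zero i)
    have e1 : σ i * g' (e i) (e i) = k (T (e i)) (S (e i)) := by
      rw [hT1, hσ, hh.symm, hS2]
    have e2 := hk.cauchy_schwarz (T (e i)) (S (e i))
    rw [apply_SS hk hl hT1 hT2] at e2
    have e3 := h1 (S (e i))
    rw [apply_SS hg hh hS1 hS2] at e3
    have e4 := h2 (e i)
    have e5 : (σ i * g' (e i) (e i)) ^ 2 ≤ (a * b * g' (e i) (e i)) ^ 2 := by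
      rw [e1]
      calc (k (T (e i)) (S (e i))) ^ 2 ≤ k' (e i) (e i) * k (S (e i)) (S (e i)) := e2
        _ ≤ (b ^ 2 * g' (e i) (e i)) * (a ^ 2 * g' (e i) (e i)) := by
            apply mul_le_mul e4 e3 (hk.nonneg _)
            positivity
        _ = (a * b * g' (e i) (e i)) ^ 2 := by ring
    have e6 : σ i * g' (e i) (e i) ≤ a * b * g' (e i) (e i) :=
      le_of_sq_le_sq e5 (by positivity)
    exact le_of_mul_le_mul_right e6 hpos
  rw [expand_h he hσ, expand_g he, Finset.mul_sum]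
  refine Finset.sum_le_sum fun i _ => ?_
  exact mul_le_mul_of_nonneg_right (key i) (mul_self_nonneg _)

lemma IsGM.self (g : V →ₗ[ℝ] V →ₗ[ℝ] ℝ) : IsGM g g g :=
  ⟨LinearMap.id, fun _ _ => rfl, fun _ _ => rfl⟩

lemma ext_of_diag {g g' : V →ₗ[ℝ] V →ₗ[ℝ] ℝ} (hg : ∀ v w, g v w = g w v)
    (hg' : ∀ v w, g' v w = g' w v) (h : ∀ v, g v v = g' v v) : g = g' := by
  ext v w
  have h1 := h (v + w)
  simp only [map_add, LinearMap.add_apply] at h1
  have h2 := h v
  have h3 := h w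
  have h4 := hg v w
  have h5 := hg' v w
  linarith

/-- Uniqueness of the geometric mean. -/
lemma IsGM.unique [FiniteDimensional ℝ V] {h' : V →ₗ[ℝ] V →ₗ[ℝ] ℝ} (hg : IsInner g)
    (hg' : IsInner g') (hh : IsInner h) (hh' : IsInner h') (H : IsGM g g' h) (H' : IsGM g g' h') :
    h = h' := by
  refine ext_of_diag hh.symm hh'.symm fun v => le_antisymm ?_ ?_
  · simpa using IsGM.mono hg hg' hh' H' hg hh H (a := 1) (b := 1) zero_le_one zero_le_one
      (fun v => by simp) (fun v => by simp) v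
  · simpa using IsGM.mono hg hg' hh H hg hh' H' (a := 1) (b := 1) zero_le_one zero_le_one
      (fun v => by simp) (fun v => by simp) v

/-- Behaviour of generalised eigenvectors. -/
lemma diag_relation {g₀ g₁ g₂ h₀ h₁ : V →ₗ[ℝ] V →ₗ[ℝ] ℝ} (hg₁ : IsInner g₁)
    (hh₀ : IsInner h₀) (hh₁ : IsInner h₁) (H₀ : IsGM g₁ g₀ h₀) (H₁ : IsGM g₁ g₂ h₁)
    {e e' : V} {σ σ' : ℝ} (he : ∀ v, h₁ e v = σ * h₀ e v) (he' : ∀ v, h₁ e' v = σ' * h₀ e' v) :
    g₂ e e' = σ * σ' * g₀ e e' := by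
  obtain ⟨S, hS1, hS2⟩ := H₀
  obtain ⟨T, hT1, hT2⟩ := H₁
  have key : ∀ (e : V) (σ : ℝ), (∀ v, h₁ e v = σ * h₀ e v) → T e = σ • S e := by
    intro e σ he
    refine hg₁.eq_of_forall fun u => ?_
    rw [hT1, he, map_smul, LinearMap.smul_apply, hS1, smul_eq_mul]
  rw [← apply_SS hg₁ hh₁ hT1 hT2, ← apply_SS hg₁ hh₀ hS1 hS2, key e σ he, key e' σ' he']
  simp only [map_smul, LinearMap.smul_apply, smul_eq_mul]
  ring

end Apply

/-- Lagrange identity with weights. -/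
lemma lagrange_weights {n : ℕ} (σ v w : Fin n → ℝ) :
    (∑ i, σ i * (v i * v i)) * (∑ i, σ i * (w i * w i)) - (∑ i, σ i * (v i * w i)) ^ 2 =
      (1 / 2) * ∑ i, ∑ j, σ i * σ j * (v i * w j - v j * w i) ^ 2 := by
  have h1 : ∑ i, ∑ j, σ i * σ j * (v i * w j - v j * w i) ^ 2 =
      (∑ i, ∑ j, (σ i * (v i * v i)) * (σ j * (w j * w j))) +
      (∑ i, ∑ j, (σ i * (w i * w i)) * (σ j * (v j * v j))) -
      2 * (∑ i, ∑ j, (σ i * (v i * w i)) * (σ j * (v j * w j))) := by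
    rw [← Finset.sum_add_distrib, Finset.mul_sum, ← Finset.sum_sub_distrib]
    refine Finset.sum_congr rfl fun i _ => ?_
    rw [← Finset.sum_add_distrib, Finset.mul_sum, ← Finset.sum_sub_distrib]
    refine Finset.sum_congr rfl fun j _ => ?_
    ring
  rw [h1, ← Finset.sum_mul_sum, ← Finset.sum_mul_sum, ← Finset.sum_mul_sum]
  ring

/-- The squared area of the parallelogram spanned by `v` and `w`. -/
def areaSq (g : V →ₗ[ℝ] V →ₗ[ℝ] ℝ) (v w : V) : ℝ := g v v * g w w - (g v w) ^ 2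

section Steps

variable {g₀ g₁ g₂ h₀ h₁ : V →ₗ[ℝ] V →ₗ[ℝ] ℝ}

/-- Restricting a simultaneous diagonalisation to a submodule with an orthogonal complement. -/
lemma exists_block_diag [FiniteDimensional ℝ V] (W W' : Submodule ℝ V) (hW : W ⊔ W' = ⊤)
    (hh₀ : IsInner h₀) (hh₁ : IsInner h₁)
    (o₀ : ∀ v ∈ W, ∀ w ∈ W', h₀ v w = 0) (o₁ : ∀ v ∈ W, ∀ w ∈ W', h₁ v w = 0) :
    ∃ (n : ℕ) (b : Basis (Fin n) ℝ W) (σ : Fin n → ℝ),
      (∀ i j, h₀ (b i) (b j) = if i = j then 1 else 0) ∧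
      (∀ i, 0 < σ i) ∧
      (∀ i (v : V), h₁ (b i) v = σ i * h₀ (b i) v) ∧
      (∀ v w : W, h₀ v w = ∑ i, b.repr v i * b.repr w i) ∧
      (∀ v w : W, h₁ v w = ∑ i, σ i * (b.repr v i * b.repr w i)) := by
  classical
  let r₀ : W →ₗ[ℝ] W →ₗ[ℝ] ℝ := h₀.domRestrict₁₂ W W
  let r₁ : W →ₗ[ℝ] W →ₗ[ℝ] ℝ := h₁.domRestrict₁₂ W W
  have hr₀ : IsInner r₀ := ⟨fun v w => hh₀.symm v w, fun v hv => hh₀.pos v (by simpa using hv)⟩
  have hr₁ : IsInner r₁ := ⟨fun v w => hh₁.symm v w, fun v hv => hh₁.pos v (by simpa using hv)⟩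
  obtain ⟨n, b, σ, hb, hσ⟩ := exists_simul_diag hr₀ hr₁.symm
  refine ⟨n, b, σ, hb, fun i => ?_, fun i v => ?_, fun v w => expand_g hb v w,
    fun v w => expand_h hb hσ v w⟩
  · have h1 := hσ i (b i)
    rw [hb, if_pos rfl, mul_one] at h1
    rw [← h1]
    exact hr₁.pos _ (b.ne_zero i)
  · have hv : v ∈ W ⊔ W' := by rw [hW]; trivial
    obtain ⟨w, hw, w', hw', rfl⟩ := Submodule.mem_sup.mp hv
    rw [map_add, map_add, o₀ _ (b i).2 _ hw', o₁ _ (b i).2 _ hw', add_zero, add_zero]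
    exact hσ i ⟨w, hw⟩

variable [FiniteDimensional ℝ V] (hg₀ : IsInner g₀) (hg₁ : IsInner g₁) (hh₀ : IsInner h₀)
  (hh₁ : IsInner h₁) (H₀ : IsGM g₁ g₀ h₀) (H₁ : IsGM g₁ g₂ h₁) {c : ℝ} (hc : 0 ≤ c)
  {W W' : Submodule ℝ V} (hW : W ⊔ W' = ⊤)
  (o₀ : ∀ v ∈ W, ∀ w ∈ W', h₀ v w = 0) (o₁ : ∀ v ∈ W, ∀ w ∈ W', h₁ v w = 0)

include hg₀ hg₁ hh₀ hh₁ H₀ H₁ hc hW o₀ o₁

lemma step_contract (h : ∀ v ∈ W, g₂ v v ≤ c ^ 2 * g₀ v v) :
    ∀ v ∈ W, h₁ v v ≤ c * h₀ v v := by
  obtain ⟨n, b, σ, hb, hpos, hσ, e₀, e₁⟩ := exists_block_diag W W' hW hh₀ hh₁ o₀ o₁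
  have key : ∀ i, σ i ≤ c := by
    intro i
    have h1 := h (b i) (b i).2
    rw [diag_relation hg₁ hh₀ hh₁ H₀ H₁ (hσ i) (hσ i)] at h1
    have h2 : 0 < g₀ (b i) (b i) := hg₀.pos _ (by simpa using b.ne_zero i)
    have h3 : σ i * σ i ≤ c ^ 2 := le_of_mul_le_mul_right h1 h2
    exact le_of_sq_le_sq (by rw [sq]; exact h3) hc
  intro v hv
  rw [e₀ ⟨v, hv⟩ ⟨v, hv⟩, e₁ ⟨v, hv⟩ ⟨v, hv⟩, Finset.mul_sum]
  exact Finset.sum_le_sum fun i _ => mul_le_mul_of_nonneg_right (key i) (mul_self_nonneg _)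

omit hc in
lemma step_area (h : ∀ v ∈ W, ∀ w ∈ W, c ^ 2 * areaSq g₀ v w ≤ areaSq g₂ v w) :
    ∀ v ∈ W, ∀ w ∈ W, c * areaSq h₀ v w ≤ areaSq h₁ v w := by
  classical
  obtain ⟨n, b, σ, hb, hpos, hσ, e₀, e₁⟩ := exists_block_diag W W' hW hh₀ hh₁ o₀ o₁
  have key : ∀ i j, i ≠ j → c ≤ σ i * σ j := by
    intro i j hij
    have h1 := h (b i) (b i).2 (b j) (b j).2
    have r : areaSq g₂ (b i : V) (b j) = (σ i * σ j) ^ 2 * areaSq g₀ (b i : V) (b j) := by
      unfold areaSq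
      rw [diag_relation hg₁ hh₀ hh₁ H₀ H₁ (hσ i) (hσ i),
        diag_relation hg₁ hh₀ hh₁ H₀ H₁ (hσ j) (hσ j),
        diag_relation hg₁ hh₀ hh₁ H₀ H₁ (hσ i) (hσ j)]
      ring
    rw [r] at h1
    have h2 : 0 < areaSq g₀ (b i : V) (b j) := by
      -- strict Cauchy-Schwarz
      have hi : 0 < g₀ (b i) (b i) := hg₀.pos _ (by simpa using b.ne_zero i)
      have hne : (g₀ (b i) (b i)) • (b j : V) - (g₀ (b i) (b j)) • (b i : V) ≠ 0 := by
        intro h0
        have h00 : (g₀ (b i) (b i)) • (b j) - (g₀ (b i) (b j)) • (b i) = (0 : W) := by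
          apply Subtype.ext
          simpa using h0
        have := congrArg (fun w => b.repr w j) h00
        simp [Finsupp.single_eq_of_ne (Ne.symm hij)] at this
        exact hi.ne' (by simpa using this)
      have hp := hg₀.pos _ hne
      have hexp : g₀ ((g₀ (b i) (b i)) • (b j : V) - (g₀ (b i) (b j)) • (b i : V))
          ((g₀ (b i) (b i)) • (b j : V) - (g₀ (b i) (b j)) • (b i : V)) =
          g₀ (b i) (b i) * areaSq g₀ (b i : V) (b j) := by
        unfold areaSq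
        simp only [map_sub, map_smul, LinearMap.sub_apply, LinearMap.smul_apply, smul_eq_mul]
        rw [hg₀.symm (b j) (b i)]
        ring
      rw [hexp] at hp
      exact (pos_iff_pos_of_mul_pos hp).mp hi
    have h3 : c ^ 2 ≤ (σ i * σ j) ^ 2 := le_of_mul_le_mul_right h1 h2
    exact le_of_sq_le_sq h3 (mul_nonneg (hpos i).le (hpos j).le)
  intro v hv w hw
  have a₀ : areaSq h₀ v w = (1 / 2) * ∑ i, ∑ j,
      (b.repr ⟨v, hv⟩ i * b.repr ⟨w, hw⟩ j - b.repr ⟨v, hv⟩ j * b.repr ⟨w, hw⟩ i) ^ 2 := by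
    have := lagrange_weights (fun _ => (1 : ℝ)) (fun i => b.repr ⟨v, hv⟩ i)
      (fun i => b.repr ⟨w, hw⟩ i)
    simp only [one_mul] at this
    unfold areaSq
    rw [e₀ ⟨v, hv⟩ ⟨v, hv⟩, e₀ ⟨v, hv⟩ ⟨w, hw⟩, e₀ ⟨w, hw⟩ ⟨w, hw⟩]
    exact this
  have a₁ : areaSq h₁ v w = (1 / 2) * ∑ i, ∑ j, σ i * σ j *
      (b.repr ⟨v, hv⟩ i * b.repr ⟨w, hw⟩ j - b.repr ⟨v, hv⟩ j * b.repr ⟨w, hw⟩ i) ^ 2 := by
    have := lagrange_weights σ (fun i => b.repr ⟨v, hv⟩ i) (fun i => b.repr ⟨w, hw⟩ i)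
    unfold areaSq
    rw [e₁ ⟨v, hv⟩ ⟨v, hv⟩, e₁ ⟨v, hv⟩ ⟨w, hw⟩, e₁ ⟨w, hw⟩ ⟨w, hw⟩]
    exact this
  rw [a₀, a₁, mul_left_comm, Finset.mul_sum]
  refine mul_le_mul_of_nonneg_left (Finset.sum_le_sum fun i _ => ?_) (by norm_num)
  rw [Finset.mul_sum]
  refine Finset.sum_le_sum fun j _ => ?_
  by_cases hij : i = j
  · subst hij
    simp [sub_self]
  · exact mul_le_mul_of_nonneg_right (key i j hij) (sq_nonneg _)

lemma step_dom (h : ∀ v ∈ W, ∀ w ∈ W', g₂ v v * g₀ w w ≤ c ^ 2 * (g₀ v v * g₂ w w)) :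
    ∀ v ∈ W, ∀ w ∈ W', h₁ v v * h₀ w w ≤ c * (h₀ v v * h₁ w w) := by
  obtain ⟨n, b, σ, hb, hpos, hσ, e₀, e₁⟩ := exists_block_diag W W' hW hh₀ hh₁ o₀ o₁
  obtain ⟨n', b', σ', hb', hpos', hσ', e₀', e₁'⟩ := exists_block_diag W' W
    (by rw [sup_comm]; exact hW) hh₀ hh₁
    (fun v hv w hw => by rw [hh₀.symm]; exact o₀ w hw v hv)
    (fun v hv w hw => by rw [hh₁.symm]; exact o₁ w hw v hv)
  have key : ∀ i j, σ i ≤ c * σ' j := by
    intro i j
    have h1 := h (b i) (b i).2 (b' j) (b' j).2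
    rw [diag_relation hg₁ hh₀ hh₁ H₀ H₁ (hσ i) (hσ i),
      diag_relation hg₁ hh₀ hh₁ H₀ H₁ (hσ' j) (hσ' j)] at h1
    have hi : 0 < g₀ (b i) (b i) := hg₀.pos _ (by simpa using b.ne_zero i)
    have hj : 0 < g₀ (b' j) (b' j) := hg₀.pos _ (by simpa using b'.ne_zero j)
    have h2 : (σ i) ^ 2 * (g₀ (b i) (b i) * g₀ (b' j) (b' j)) ≤
        (c * σ' j) ^ 2 * (g₀ (b i) (b i) * g₀ (b' j) (b' j)) := by
      calc _ = σ i * σ i * g₀ (b i) (b i) * g₀ (b' j) (b' j) := by ring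
        _ ≤ _ := h1
        _ = _ := by ring
    have h3 := le_of_mul_le_mul_right h2 (mul_pos hi hj)
    exact le_of_sq_le_sq h3 (mul_nonneg hc (hpos' j).le)
  intro v hv w hw
  rw [e₀ ⟨v, hv⟩ ⟨v, hv⟩, e₁ ⟨v, hv⟩ ⟨v, hv⟩, e₀' ⟨w, hw⟩ ⟨w, hw⟩, e₁' ⟨w, hw⟩ ⟨w, hw⟩,
    Finset.sum_mul_sum, Finset.sum_mul_sum, Finset.mul_sum]
  refine Finset.sum_le_sum fun i _ => ?_
  rw [Finset.mul_sum]
  refine Finset.sum_le_sum fun j _ => ?_
  have h4 : 0 ≤ (b.repr ⟨v, hv⟩ i * b.repr ⟨v, hv⟩ i) * (b'.repr ⟨w, hw⟩ j * b'.repr ⟨w, hw⟩ j) :=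
    mul_nonneg (mul_self_nonneg _) (mul_self_nonneg _)
  nlinarith [mul_le_mul_of_nonneg_right (key i j) h4]

end Steps

section Function

open Classical in
/-- The geometric mean of two inner products (junk value if one of them is not an inner product). -/
noncomputable def gm (g g' : V →ₗ[ℝ] V →ₗ[ℝ] ℝ) : V →ₗ[ℝ] V →ₗ[ℝ] ℝ :=
  if h : ∃ h : V →ₗ[ℝ] V →ₗ[ℝ] ℝ, IsInner h ∧ IsGM g g' h then h.choose else g

variable [FiniteDimensional ℝ V] {g g' : V →ₗ[ℝ] V →ₗ[ℝ] ℝ}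

lemma gm_spec (hg : IsInner g) (hg' : IsInner g') : IsInner (gm g g') ∧ IsGM g g' (gm g g') := by
  have h := exists_isGM hg hg'
  unfold gm
  rw [dif_pos h]
  exact h.choose_spec

lemma gm_inner (hg : IsInner g) (hg' : IsInner g') : IsInner (gm g g') := (gm_spec hg hg').1

lemma gm_isGM (hg : IsInner g) (hg' : IsInner g') : IsGM g g' (gm g g') := (gm_spec hg hg').2

end Function

section Pullback

variable {W : Type*} [AddCommGroup W] [Module ℝ W]

lemma IsInner.comp {g : W →ₗ[ℝ] W →ₗ[ℝ] ℝ} (hg : IsInner g) {A : V →ₗ[ℝ] W}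
    (hA : Function.Injective A) : IsInner (g.compl₁₂ A A) where
  symm v w := by simpa using hg.symm (A v) (A w)
  pos v hv := by
    have : A v ≠ 0 := fun h => hv (hA (by rw [h, map_zero]))
    simpa using hg.pos _ this

lemma IsGM.comp {g g' h : W →ₗ[ℝ] W →ₗ[ℝ] ℝ} (H : IsGM g g' h) {A : V →ₗ[ℝ] W}
    (hA : Function.Bijective A) : IsGM (g.compl₁₂ A A) (g'.compl₁₂ A A) (h.compl₁₂ A A) := by
  obtain ⟨S, h1, h2⟩ := H
  let e := LinearEquiv.ofBijective A hA
  have he : ∀ v, A (e.symm v) = v := fun v => e.apply_symm_apply v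
  refine ⟨e.symm.toLinearMap ∘ₗ S ∘ₗ A, fun v w => ?_, fun v w => ?_⟩
  · simp only [LinearMap.compl₁₂_apply, LinearMap.comp_apply, LinearEquiv.coe_coe, he, h1]
  · simp only [LinearMap.compl₁₂_apply, LinearMap.comp_apply, LinearEquiv.coe_coe, he, h2]

/-- The geometric mean preserves orthogonality of the range and the kernel of a projection. -/
lemma IsGM.orth [FiniteDimensional ℝ V] {g g' h : V →ₗ[ℝ] V →ₗ[ℝ] ℝ} (hg : IsInner g)
    (hg' : IsInner g') (hh : IsInner h) (H : IsGM g g' h) {P : V →ₗ[ℝ] V}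
    (hP : ∀ v, P (P v) = P v) (o : ∀ v w, P v = v → P w = 0 → g v w = 0)
    (o' : ∀ v w, P v = v → P w = 0 → g' v w = 0) :
    ∀ v w, P v = v → P w = 0 → h v w = 0 := by
  -- the reflection
  let R : V →ₗ[ℝ] V := P - (LinearMap.id - P)
  have hR : ∀ v, R v = P v - (v - P v) := fun v => rfl
  have hRR : ∀ v, R (R v) = v := by
    intro v
    simp only [hR, map_sub, hP]
    abel
  have hRb : Function.Bijective R :=
    ⟨fun v w hvw => by rw [← hRR v, ← hRR w, hvw], fun v => ⟨R v, hRR v⟩⟩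
  have inv : ∀ k : V →ₗ[ℝ] V →ₗ[ℝ] ℝ, IsInner k → (∀ v w, P v = v → P w = 0 → k v w = 0) →
      k.compl₁₂ R R = k := by
    intro k hk ok
    ext v w
    have e1 : k (P v) (w - P w) = 0 := ok _ _ (hP v) (by rw [map_sub, hP, sub_self])
    have e2 : k (v - P v) (P w) = 0 := by
      rw [hk.symm]
      exact ok _ _ (hP w) (by rw [map_sub, hP, sub_self])
    have e3 : k v w = k (P v) (P w) + k (v - P v) (w - P w) := by
      have : k v w = k (P v + (v - P v)) (P w + (w - P w)) := by simp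
      rw [this]
      simp only [map_add, LinearMap.add_apply, e1, e2]
      ring
    rw [LinearMap.compl₁₂_apply, hR, hR, e3]
    have e4 : k (P v - (v - P v)) (P w - (w - P w)) =
        k (P v) (P w) - k (P v) (w - P w) - k (v - P v) (P w) + k (v - P v) (w - P w) := by
      rw [map_sub k (P v), LinearMap.sub_apply, map_sub (k (P v)), map_sub (k (v - P v))]
      ring
    rw [e4, e1, e2]
    ring
  have h1 := H.comp hRb
  rw [inv g hg o, inv g' hg' o'] at h1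
  have h2 : h.compl₁₂ R R = h := IsGM.unique hg hg' (hh.comp hRb.1) hh h1 H
  intro v w hv hw
  have h3 : (h.compl₁₂ R R) v w = h v w := by rw [h2]
  rw [LinearMap.compl₁₂_apply, hR, hR, hv, hw] at h3
  simp only [sub_self, sub_zero, zero_sub, map_neg] at h3
  linarith

end Pullback

end Pool.Agent.H82.Adapted
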