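import Mathlib
import Pool.Agent.H82.Adapted.GeomMean

/-!
# Adapted metrics: the abstract halving argument
-/

namespace Pool.Agent.H82.Adapted

open Module Filter Topology

variable {B : Type*} {𝓥 : B → Type*} [∀ x, AddCommGroup (𝓥 x)] [∀ x, Module ℝ (𝓥 x)]

/-- A field of bilinear forms. -/
abbrev FormField (𝓥 : B → Type*) [∀ x, AddCommGroup (𝓥 x)] [∀ x, Module ℝ (𝓥 x)] :=
  ∀ x, 𝓥 x →ₗ[ℝ] 𝓥 x →ₗ[ℝ] ℝ

variable (φ : ℝ → B → B) (A : ∀ t x, 𝓥 x →ₗ[ℝ] 𝓥 (φ t x))

/-- The pullback of a field of forms under the time `t` map. -/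
noncomputable def pull (t : ℝ) (b : FormField 𝓥) : FormField 𝓥 :=
  fun x => (b (φ t x)).compl₁₂ (A t x) (A t x)

variable {φ A}

lemma pull_apply (t : ℝ) (b : FormField 𝓥) (x : B) (v w : 𝓥 x) :
    pull φ A t b x v w = b (φ t x) (A t x v) (A t x w) := rfl

variable (φ A) in
/-- The conditions at time `T` with rate `lam`, for the splitting given by the projections `P`. -/
structure AdaptedAt (P : ∀ x, 𝓥 x →ₗ[ℝ] 𝓥 x) (G : FormField 𝓥) (lam T : ℝ) : Prop where
  dom : ∀ x v w, P x v = v → P x w = 0 →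
    pull φ A T G x v v * G x w w ≤ Real.exp (-2 * lam * T) * (G x v v * pull φ A T G x w w)
  contr : ∀ x v, P x v = v → pull φ A T G x v v ≤ Real.exp (-2 * lam * T) * G x v v
  area : ∀ x v w, P x v = 0 → P x w = 0 →
    Real.exp (2 * lam * T) * areaSq (G x) v w ≤ areaSq (pull φ A T G x) v w

/-- Standing assumptions on the linear cocycle and the splitting. -/
structure Setting (φ : ℝ → B → B) (A : ∀ t x, 𝓥 x →ₗ[ℝ] 𝓥 (φ t x))
    (P : ∀ x, 𝓥 x →ₗ[ℝ] 𝓥 x) : Prop where
  comp : ∀ s t (b : FormField 𝓥), pull φ A (s + t) b = pull φ A t (pull φ A s b)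
  zero : ∀ b : FormField 𝓥, pull φ A 0 b = b
  bij : ∀ t x, Function.Bijective (A t x)
  idem : ∀ x v, P x (P x v) = P x v
  equiv : ∀ t x v, P (φ t x) (A t x v) = A t x (P x v)

variable {P : ∀ x, 𝓥 x →ₗ[ℝ] 𝓥 x}

/-- `G` is an inner product field for which the splitting is orthogonal. -/
structure Inn (P : ∀ x, 𝓥 x →ₗ[ℝ] 𝓥 x) (G : FormField 𝓥) : Prop where
  inner : ∀ x, IsInner (G x)
  orth : ∀ x v w, P x v = v → P x w = 0 → G x v w = 0

namespace Inn

variable {G : FormField 𝓥}

lemma pull' (hS : Setting φ A P) (h : Inn P G) (t : ℝ) : Inn P (pull φ A t G) where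
  inner x := (h.inner _).comp (hS.bij t x).1
  orth x v w hv hw := by
    rw [pull_apply]
    refine h.orth _ _ _ ?_ ?_
    · rw [hS.equiv, hv]
    · rw [hS.equiv, hw, map_zero]

end Inn

variable (φ A) in
/-- The Lipschitz bound along the flow. -/
def LipAlong (G : FormField 𝓥) (L : ℝ) : Prop :=
  ∀ t x v, pull φ A t G x v v ≤ Real.exp (2 * L * |t|) * G x v v

variable (φ A) in
/-- The halving step. -/
noncomputable def mean (T : ℝ) (G : FormField 𝓥) : FormField 𝓥 :=
  fun x => gm (G x) (pull φ A T G x)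

section Mean

variable [∀ x, FiniteDimensional ℝ (𝓥 x)] (hS : Setting φ A P) {G : FormField 𝓥} (hG : Inn P G)

include hS hG

lemma mean_isGM (T : ℝ) (x : B) : IsGM (G x) (pull φ A T G x) (mean φ A T G x) :=
  gm_isGM (hG.inner x) ((hG.pull' hS T).inner x)

lemma mean_inn (T : ℝ) : Inn P (mean φ A T G) where
  inner x := gm_inner (hG.inner x) ((hG.pull' hS T).inner x)
  orth x := IsGM.orth (hG.inner x) ((hG.pull' hS T).inner x)
    (gm_inner (hG.inner x) ((hG.pull' hS T).inner x))
    (gm_isGM (hG.inner x) ((hG.pull' hS T).inner x)) (hS.idem x) (hG.orth x)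
    ((hG.pull' hS T).orth x)

/-- The pullback of the mean is a mean. -/
lemma pull_mean_isGM (t T : ℝ) (x : B) :
    IsGM (pull φ A t G x) (pull φ A t (pull φ A T G) x) (pull φ A t (mean φ A T G) x) :=
  (mean_isGM hS hG T (φ t x)).comp (hS.bij t x)

lemma mean_lip {L : ℝ} (hL : LipAlong φ A G L) (T : ℝ) : LipAlong φ A (mean φ A T G) L := by
  intro t x v
  have hM := mean_inn hS hG T
  have h1 := IsGM.mono (hG.inner x) ((hG.pull' hS T).inner x) (hM.inner x)
    (mean_isGM hS hG T x) ((hG.pull' hS t).inner x) ((hM.pull' hS t).inner x)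
    (pull_mean_isGM hS hG t T x) (a := Real.exp (L * |t|)) (b := Real.exp (L * |t|))
    (Real.exp_pos _).le (Real.exp_pos _).le ?_ ?_ v
  · refine h1.trans (le_of_eq ?_)
    rw [← Real.exp_add]
    congr 2
    ring
  · intro v
    refine (hL t x v).trans (le_of_eq ?_)
    rw [sq, ← Real.exp_add]
    congr 2
    ring
  · intro v
    rw [← hS.comp, add_comm, hS.comp]
    refine (hL t _ _).trans (le_of_eq ?_)
    rw [sq, ← Real.exp_add, pull_apply]
    congr 2
    ring

lemma mean_le {L : ℝ} (hL : LipAlong φ A G L) {T : ℝ} (hT : 0 ≤ T) (x : B) (v : 𝓥 x) :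
    mean φ A T G x v v ≤ Real.exp (L * T) * G x v v := by
  have hM := mean_inn hS hG T
  have h1 := IsGM.mono (hG.inner x) (hG.inner x) (hG.inner x)
    (IsGM.self (G x)) (hG.inner x) (hM.inner x)
    (mean_isGM hS hG T x) (a := 1) (b := Real.exp (L * T))
    zero_le_one (Real.exp_pos _).le (fun v => by simp) ?_ v
  · simpa using h1
  · intro v
    refine (hL T x v).trans (le_of_eq ?_)
    rw [sq, ← Real.exp_add, abs_of_nonneg hT]
    congr 2
    ring

lemma le_mean {L : ℝ} (hL : LipAlong φ A G L) {T : ℝ} (hT : 0 ≤ T) (x : B) (v : 𝓥 x) :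
    G x v v ≤ Real.exp (L * T) * mean φ A T G x v v := by
  have hM := mean_inn hS hG T
  have h1 := IsGM.mono (hG.inner x) ((hG.pull' hS T).inner x) (hM.inner x)
    (mean_isGM hS hG T x) (hG.inner x) (hG.inner x)
    (IsGM.self (G x)) (a := 1) (b := Real.exp (L * T))
    zero_le_one (Real.exp_pos _).le (fun v => by simp) ?_ v
  · simpa using h1
  · intro v
    have h2 := hL (-T) (φ T x) (A T x v)
    rw [← pull_apply, ← pull_apply, ← hS.comp, neg_add_cancel, hS.zero] at h2
    refine h2.trans (le_of_eq ?_)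
    rw [sq, ← Real.exp_add, abs_neg, abs_of_nonneg hT]
    congr 2
    ring

/-- The halving step: adaptedness at time `2 T` gives adaptedness of the mean at time `T`. -/
lemma mean_adapted {lam T : ℝ} (h : AdaptedAt φ A P G lam (2 * T)) :
    AdaptedAt φ A P (mean φ A T G) lam T := by
  have hM := mean_inn hS hG T
  have e2 : pull φ A T (pull φ A T G) = pull φ A (2 * T) G := by
    rw [← hS.comp]; congr 1; ring
  have H₀ : ∀ x, IsGM (pull φ A T G x) (G x) (mean φ A T G x) := fun x =>
    (mean_isGM hS hG T x).comm (hM.inner x)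
  have H₁ : ∀ x, IsGM (pull φ A T G x) (pull φ A (2 * T) G x) (pull φ A T (mean φ A T G) x) := by
    intro x
    have := pull_mean_isGM hS hG T T x
    rwa [e2] at this
  have hW : ∀ x, LinearMap.range (P x) ⊔ LinearMap.ker (P x) = ⊤ := by
    intro x
    rw [eq_top_iff]
    intro v _
    refine Submodule.mem_sup.mpr ⟨P x v, ⟨v, rfl⟩, v - P x v, ?_, by abel⟩
    rw [LinearMap.mem_ker, map_sub, hS.idem, sub_self]
  have hmem : ∀ x v, v ∈ LinearMap.range (P x) ↔ P x v = v := by
    intro x v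
    constructor
    · rintro ⟨w, rfl⟩
      exact hS.idem x w
    · intro h
      exact ⟨v, h⟩
  have o₀ : ∀ x, ∀ v ∈ LinearMap.range (P x), ∀ w ∈ LinearMap.ker (P x),
      mean φ A T G x v w = 0 := fun x v hv w hw => hM.orth x v w ((hmem x v).mp hv) hw
  have o₁ : ∀ x, ∀ v ∈ LinearMap.range (P x), ∀ w ∈ LinearMap.ker (P x),
      pull φ A T (mean φ A T G) x v w = 0 :=
    fun x v hv w hw => (hM.pull' hS T).orth x v w ((hmem x v).mp hv) hw
  have hexp : ∀ y : ℝ, Real.exp (2 * y) = Real.exp y ^ 2 := fun y => by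
    rw [sq, ← Real.exp_add]; congr 1; ring
  have hc : Real.exp (-2 * lam * (2 * T)) = Real.exp (-2 * lam * T) ^ 2 := by
    rw [← hexp]; congr 1; ring
  have hc' : Real.exp (2 * lam * (2 * T)) = Real.exp (2 * lam * T) ^ 2 := by
    rw [← hexp]; congr 1; ring
  constructor
  · intro x v w hv hw
    refine step_dom (hG.inner x) ((hG.pull' hS T).inner x) (hM.inner x)
      ((hM.pull' hS T).inner x) (H₀ x) (H₁ x) (Real.exp_pos _).le (hW x) (o₀ x) (o₁ x) ?_ v
      ((hmem x v).mpr hv) w hw
    intro v hv w hw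
    rw [← hc]
    exact h.dom x v w ((hmem x v).mp hv) hw
  · intro x v hv
    refine step_contract (hG.inner x) ((hG.pull' hS T).inner x) (hM.inner x)
      ((hM.pull' hS T).inner x) (H₀ x) (H₁ x) (Real.exp_pos _).le (hW x) (o₀ x) (o₁ x) ?_ v
      ((hmem x v).mpr hv)
    intro v hv
    rw [← hc]
    exact h.contr x v ((hmem x v).mp hv)
  · intro x v w hv hw
    refine step_area (W := LinearMap.ker (P x)) (W' := LinearMap.range (P x))
      (hG.inner x) ((hG.pull' hS T).inner x) (hM.inner x)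
      ((hM.pull' hS T).inner x) (H₀ x) (H₁ x) (by rw [sup_comm]; exact hW x)
      (fun v hv w hw => by rw [(hM.inner x).symm]; exact o₀ x w hw v hv)
      (fun v hv w hw => by rw [((hM.pull' hS T).inner x).symm]; exact o₁ x w hw v hv) ?_ v
      hv w hw
    intro v hv w hw
    rw [← hc']
    exact h.area x v w hv hw

end Mean

variable (φ A) in
/-- The sequence of metrics obtained by halving. -/
noncomputable def halving (T₀ : ℝ) (G₀ : FormField 𝓥) : ℕ → FormField 𝓥
  | 0 => G₀
  | k + 1 => mean φ A (T₀ / 2 ^ (k + 1)) (halving T₀ G₀ k)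

section Halving

variable [∀ x, FiniteDimensional ℝ (𝓥 x)] (hS : Setting φ A P) {G₀ : FormField 𝓥}
  (hG : Inn P G₀) {L : ℝ} (hL : LipAlong φ A G₀ L)

include hS hG

lemma halving_inn (T₀ : ℝ) (k : ℕ) : Inn P (halving φ A T₀ G₀ k) := by
  induction k with
  | zero => exact hG
  | succ k ih => exact mean_inn hS ih _

include hL in
lemma halving_lip (T₀ : ℝ) (k : ℕ) : LipAlong φ A (halving φ A T₀ G₀ k) L := by
  induction k with
  | zero => exact hL
  | succ k ih => exact mean_lip hS (halving_inn hS hG T₀ k) ih _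

lemma halving_adapted {lam T₀ : ℝ} (h : AdaptedAt φ A P G₀ lam T₀) (k : ℕ) :
    AdaptedAt φ A P (halving φ A T₀ G₀ k) lam (T₀ / 2 ^ k) := by
  induction k with
  | zero => simpa [halving] using h
  | succ k ih =>
    refine mean_adapted hS (halving_inn hS hG T₀ k) ?_
    have : 2 * (T₀ / 2 ^ (k + 1)) = T₀ / 2 ^ k := by
      rw [pow_succ]; field_simp
    rwa [this]

include hL in
lemma halving_le {T₀ : ℝ} (hT : 0 ≤ T₀) (k : ℕ) (x : B) (v : 𝓥 x) :
    halving φ A T₀ G₀ (k + 1) x v v ≤
      Real.exp (L * (T₀ / 2 ^ (k + 1))) * halving φ A T₀ G₀ k x v v :=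
  mean_le hS (halving_inn hS hG T₀ k) (halving_lip hS hG hL T₀ k) (by positivity) x v

include hL in
lemma le_halving {T₀ : ℝ} (hT : 0 ≤ T₀) (k : ℕ) (x : B) (v : 𝓥 x) :
    halving φ A T₀ G₀ k x v v ≤
      Real.exp (L * (T₀ / 2 ^ (k + 1))) * halving φ A T₀ G₀ (k + 1) x v v :=
  le_mean hS (halving_inn hS hG T₀ k) (halving_lip hS hG hL T₀ k) (by positivity) x v

include hL in
lemma halving_le_zero {T₀ : ℝ} (hT : 0 ≤ T₀) (k : ℕ) (x : B) (v : 𝓥 x) :
    halving φ A T₀ G₀ k x v v ≤ Real.exp (L * (T₀ * (1 - 1 / 2 ^ k))) * G₀ x v v := by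
  induction k with
  | zero => simp [halving]
  | succ k ih =>
    refine (halving_le hS hG hL hT k x v).trans ?_
    refine (mul_le_mul_of_nonneg_left ih (Real.exp_pos _).le).trans (le_of_eq ?_)
    rw [← mul_assoc, ← Real.exp_add]
    congr 2
    rw [pow_succ]
    field_simp
    ring

include hL in
lemma zero_le_halving {T₀ : ℝ} (hT : 0 ≤ T₀) (k : ℕ) (x : B) (v : 𝓥 x) :
    G₀ x v v ≤ Real.exp (L * (T₀ * (1 - 1 / 2 ^ k))) * halving φ A T₀ G₀ k x v v := by
  induction k with
  | zero => simp [halving]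
  | succ k ih =>
    refine ih.trans ?_
    refine (mul_le_mul_of_nonneg_left (le_halving hS hG hL hT k x v) (Real.exp_pos _).le).trans
      (le_of_eq ?_)
    rw [← mul_assoc, ← Real.exp_add]
    congr 2
    rw [pow_succ]
    field_simp
    ring

variable (hL0 : 0 ≤ L)

include hL hL0 in
lemma halving_le_zero' {T₀ : ℝ} (hT : 0 ≤ T₀) (k : ℕ) (x : B) (v : 𝓥 x) :
    halving φ A T₀ G₀ k x v v ≤ Real.exp (L * T₀) * G₀ x v v := by
  refine (halving_le_zero hS hG hL hT k x v).trans ?_
  refine mul_le_mul_of_nonneg_right (Real.exp_le_exp.mpr ?_) ((hG.inner x).nonneg v)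
  refine mul_le_mul_of_nonneg_left ?_ hL0
  have : (0 : ℝ) ≤ 1 / 2 ^ k := by positivity
  nlinarith

include hL hL0 in
lemma zero_le_halving' {T₀ : ℝ} (hT : 0 ≤ T₀) (k : ℕ) (x : B) (v : 𝓥 x) :
    G₀ x v v ≤ Real.exp (L * T₀) * halving φ A T₀ G₀ k x v v := by
  refine (zero_le_halving hS hG hL hT k x v).trans ?_
  refine mul_le_mul_of_nonneg_right (Real.exp_le_exp.mpr ?_)
    (((halving_inn hS hG T₀ k).inner x).nonneg v)
  refine mul_le_mul_of_nonneg_left ?_ hL0
  have : (0 : ℝ) ≤ 1 / 2 ^ k := by positivity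
  nlinarith

include hL hL0 in
/-- Geometric control of the increments. -/
lemma halving_diff {T₀ : ℝ} (hT : 0 ≤ T₀) (k : ℕ) (x : B) (v : 𝓥 x) :
    |halving φ A T₀ G₀ (k + 1) x v v - halving φ A T₀ G₀ k x v v| ≤
      (L * T₀ * Real.exp (L * T₀) ^ 2 * G₀ x v v) / 2 / 2 ^ k := by
  set δ := L * (T₀ / 2 ^ (k + 1)) with hδ
  have hδ0 : 0 ≤ δ := by positivity
  have hle : δ ≤ L * T₀ := by
    rw [hδ]
    refine mul_le_mul_of_nonneg_left ?_ hL0
    exact div_le_self hT (one_le_pow₀ (by norm_num))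
  have hexp : Real.exp δ - 1 ≤ δ * Real.exp (L * T₀) := by
    have h1 : Real.exp δ - 1 ≤ δ * Real.exp δ := by
      have := Real.add_one_le_exp (-δ)
      have h2 := Real.exp_pos δ
      have h3 : Real.exp (-δ) * Real.exp δ = 1 := by
        rw [← Real.exp_add]; simp
      nlinarith
    exact h1.trans (mul_le_mul_of_nonneg_left (Real.exp_le_exp.mpr hle) hδ0)
  have hexp1 : 0 ≤ Real.exp δ - 1 := by
    have := Real.add_one_le_exp δ
    linarith
  have hq : 0 ≤ G₀ x v v := (hG.inner x).nonneg v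
  have b1 := halving_le hS hG hL hT k x v
  have b2 := le_halving hS hG hL hT k x v
  rw [← hδ] at b1 b2
  have b3 := halving_le_zero' hS hG hL hL0 hT k x v
  have b4 := halving_le_zero' hS hG hL hL0 hT (k + 1) x v
  have hE := Real.exp_pos (L * T₀)
  have key : ∀ q, q ≤ Real.exp (L * T₀) * G₀ x v v → (Real.exp δ - 1) * q ≤
      (L * T₀ * Real.exp (L * T₀) ^ 2 * G₀ x v v) / 2 / 2 ^ k := by
    intro q hq'
    calc (Real.exp δ - 1) * q ≤ (Real.exp δ - 1) * (Real.exp (L * T₀) * G₀ x v v) :=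
          mul_le_mul_of_nonneg_left hq' hexp1
      _ ≤ (δ * Real.exp (L * T₀)) * (Real.exp (L * T₀) * G₀ x v v) :=
          mul_le_mul_of_nonneg_right hexp (by positivity)
      _ = _ := by rw [hδ, pow_succ]; field_simp
  rw [abs_le]
  constructor
  · have := key _ b4
    linarith
  · have := key _ b3
    linarith

end Halving

/-- Limits of fields of symmetric forms. -/
lemma exists_limit_form {V : Type*} [AddCommGroup V] [Module ℝ V]
    (g : ℕ → V →ₗ[ℝ] V →ₗ[ℝ] ℝ) (hsymm : ∀ k v w, g k v w = g k w v)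
    (hlim : ∀ v, ∃ l, Tendsto (fun k => g k v v) atTop (𝓝 l)) :
    ∃ f : V →ₗ[ℝ] V →ₗ[ℝ] ℝ, ∀ v w, Tendsto (fun k => g k v w) atTop (𝓝 (f v w)) := by
  have h : ∀ v w, ∃ l, Tendsto (fun k => g k v w) atTop (𝓝 l) := by
    intro v w
    obtain ⟨l₁, h₁⟩ := hlim (v + w)
    obtain ⟨l₂, h₂⟩ := hlim v
    obtain ⟨l₃, h₃⟩ := hlim w
    refine ⟨(l₁ - l₂ - l₃) / 2, ?_⟩
    have := ((h₁.sub h₂).sub h₃).div_const 2
    refine this.congr fun k => ?_
    simp only [map_add, LinearMap.add_apply]
    rw [hsymm k w v]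
    ring
  choose f hf using h
  refine ⟨LinearMap.mk₂ ℝ f ?_ ?_ ?_ ?_, fun v w => hf v w⟩
  · intro v v' w
    refine tendsto_nhds_unique (hf (v + v') w) (((hf v w).add (hf v' w)).congr fun k => ?_)
    simp
  · intro c v w
    refine tendsto_nhds_unique (hf (c • v) w) (((hf v w).const_mul c).congr fun k => ?_)
    simp
  · intro v w w'
    refine tendsto_nhds_unique (hf v (w + w')) (((hf v w).add (hf v w')).congr fun k => ?_)
    simp
  · intro c v w
    refine tendsto_nhds_unique (hf v (c • w)) (((hf v w).const_mul c).congr fun k => ?_)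
    simp

namespace AdaptedAt

variable {G : FormField 𝓥} {lam s t : ℝ}

lemma zero (hS : Setting φ A P) : AdaptedAt φ A P G lam 0 where
  dom x v w _ _ := by rw [hS.zero]; simp
  contr x v _ := by rw [hS.zero]; simp
  area x v w _ _ := by rw [hS.zero]; simp

lemma add (hS : Setting φ A P) (hG : Inn P G) (hs : AdaptedAt φ A P G lam s)
    (ht : AdaptedAt φ A P G lam t) : AdaptedAt φ A P G lam (s + t) := by
  constructor
  · intro x v w hv hw
    rw [hS.comp, pull_apply t (pull φ A s G), pull_apply t (pull φ A s G)]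
    have hv' : P (φ t x) (A t x v) = A t x v := by rw [hS.equiv, hv]
    have hw' : P (φ t x) (A t x w) = 0 := by rw [hS.equiv, hw, map_zero]
    have h1 := hs.dom (φ t x) _ _ hv' hw'
    have h2 := ht.dom x v w hv hw
    rw [pull_apply t, pull_apply t] at h2
    by_cases hv0 : v = 0
    · simp [hv0]
    by_cases hw0 : w = 0
    · simp [hw0]
    have hb : 0 < G (φ t x) (A t x w) (A t x w) :=
      (hG.inner _).pos _ (fun h => hw0 ((hS.bij t x).1 (by rw [h, map_zero])))
    have hc : 0 < G (φ t x) (A t x v) (A t x v) :=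
      (hG.inner _).pos _ (fun h => hv0 ((hS.bij t x).1 (by rw [h, map_zero])))
    have hd := ((hG.pull' hS s).inner (φ t x)).nonneg (A t x w)
    have ha := ((hG.pull' hS s).inner (φ t x)).nonneg (A t x v)
    have he := (hG.inner x).nonneg w
    have hf := (hG.inner x).nonneg v
    set a := pull φ A s G (φ t x) (A t x v) (A t x v)
    set b := G (φ t x) (A t x w) (A t x w)
    set c := G (φ t x) (A t x v) (A t x v)
    set d := pull φ A s G (φ t x) (A t x w) (A t x w)
    set e := G x w w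
    set f := G x v v
    have hexp : Real.exp (-2 * lam * (s + t)) =
        Real.exp (-2 * lam * s) * Real.exp (-2 * lam * t) := by
      rw [← Real.exp_add]; congr 1; ring
    rw [hexp]
    have h3 : (a * b) * (c * e) ≤
        (Real.exp (-2 * lam * s) * (c * d)) * (Real.exp (-2 * lam * t) * (f * b)) :=
      mul_le_mul h1 h2 (by positivity) (by positivity)
    have h4 : (a * e) * (b * c) ≤
        (Real.exp (-2 * lam * s) * Real.exp (-2 * lam * t) * (f * d)) * (b * c) := by
      calc _ = (a * b) * (c * e) := by ring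
        _ ≤ _ := h3
        _ = _ := by ring
    exact le_of_mul_le_mul_right h4 (by positivity)
  · intro x v hv
    rw [hS.comp, pull_apply t (pull φ A s G)]
    have hv' : P (φ t x) (A t x v) = A t x v := by rw [hS.equiv, hv]
    have h1 := hs.contr (φ t x) _ hv'
    have h2 := ht.contr x v hv
    rw [pull_apply t] at h2
    have hexp : Real.exp (-2 * lam * (s + t)) =
        Real.exp (-2 * lam * s) * Real.exp (-2 * lam * t) := by
      rw [← Real.exp_add]; congr 1; ring
    rw [hexp, mul_assoc]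
    exact h1.trans (mul_le_mul_of_nonneg_left h2 (Real.exp_pos _).le)
  · intro x v w hv hw
    have hv' : P (φ t x) (A t x v) = 0 := by rw [hS.equiv, hv, map_zero]
    have hw' : P (φ t x) (A t x w) = 0 := by rw [hS.equiv, hw, map_zero]
    have h1 := hs.area (φ t x) _ _ hv' hw'
    have h2 := ht.area x v w hv hw
    have e1 : areaSq (pull φ A (s + t) G x) v w =
        areaSq (pull φ A s G (φ t x)) (A t x v) (A t x w) := by
      rw [hS.comp]; rfl
    have e2 : areaSq (pull φ A t G x) v w = areaSq (G (φ t x)) (A t x v) (A t x w) := rfl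
    rw [e2] at h2
    rw [e1]
    have hexp : Real.exp (2 * lam * (s + t)) =
        Real.exp (2 * lam * s) * Real.exp (2 * lam * t) := by
      rw [← Real.exp_add]; congr 1; ring
    rw [hexp, mul_assoc]
    exact (mul_le_mul_of_nonneg_left h2 (Real.exp_pos _).le).trans h1

lemma nat_mul (hS : Setting φ A P) (hG : Inn P G) (ht : AdaptedAt φ A P G lam t) (m : ℕ) :
    AdaptedAt φ A P G lam (m * t) := by
  induction m with
  | zero => simpa using zero hS
  | succ m ih =>
    have : ((m + 1 : ℕ) : ℝ) * t = m * t + t := by push_cast; ring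
    rw [this]
    exact add hS hG ih ht

/-- Passage to the limit in the field of forms. -/
lemma of_tendsto {g : ℕ → FormField 𝓥}
    (hlim : ∀ x v w, Tendsto (fun k => g k x v w) atTop (𝓝 (G x v w)))
    (h : ∀ᶠ k in atTop, AdaptedAt φ A P (g k) lam t) : AdaptedAt φ A P G lam t := by
  have hp : ∀ x v w, Tendsto (fun k => pull φ A t (g k) x v w) atTop
      (𝓝 (pull φ A t G x v w)) := fun x v w => hlim _ _ _
  constructor
  · intro x v w hv hw
    refine le_of_tendsto_of_tendsto ((hp x v v).mul (hlim x w w))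
      (((hlim x v v).mul (hp x w w)).const_mul _) ?_
    filter_upwards [h] with k hk using hk.dom x v w hv hw
  · intro x v hv
    refine le_of_tendsto_of_tendsto (hp x v v) ((hlim x v v).const_mul _) ?_
    filter_upwards [h] with k hk using hk.contr x v hv
  · intro x v w hv hw
    refine le_of_tendsto_of_tendsto
      ((((hlim x v v).mul (hlim x w w)).sub ((hlim x v w).pow 2)).const_mul _)
      (((hp x v v).mul (hp x w w)).sub ((hp x v w).pow 2)) ?_
    filter_upwards [h] with k hk using hk.area x v w hv hw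

/-- Passage to the limit in time. -/
lemma of_tendsto_time {τ : ℕ → ℝ} (hτ : Tendsto τ atTop (𝓝 t))
    (hcont : ∀ x v w, Continuous fun t => pull φ A t G x v w)
    (h : ∀ᶠ k in atTop, AdaptedAt φ A P G lam (τ k)) : AdaptedAt φ A P G lam t := by
  have hp : ∀ x v w, Tendsto (fun k => pull φ A (τ k) G x v w) atTop
      (𝓝 (pull φ A t G x v w)) := fun x v w => ((hcont x v w).tendsto t).comp hτ
  have he : Tendsto (fun k => Real.exp (-2 * lam * τ k)) atTop (𝓝 (Real.exp (-2 * lam * t))) :=
    (Real.continuous_exp.tendsto _).comp (hτ.const_mul _)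
  have he' : Tendsto (fun k => Real.exp (2 * lam * τ k)) atTop (𝓝 (Real.exp (2 * lam * t))) :=
    (Real.continuous_exp.tendsto _).comp (hτ.const_mul _)
  constructor
  · intro x v w hv hw
    refine le_of_tendsto_of_tendsto ((hp x v v).mul tendsto_const_nhds)
      (he.mul (tendsto_const_nhds.mul (hp x w w))) ?_
    filter_upwards [h] with k hk using hk.dom x v w hv hw
  · intro x v hv
    refine le_of_tendsto_of_tendsto (hp x v v) (he.mul tendsto_const_nhds) ?_
    filter_upwards [h] with k hk using hk.contr x v hv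
  · intro x v w hv hw
    refine le_of_tendsto_of_tendsto (he'.mul tendsto_const_nhds)
      (((hp x v v).mul (hp x w w)).sub ((hp x v w).pow 2)) ?_
    filter_upwards [h] with k hk using hk.area x v w hv hw

end AdaptedAt

/-- **The halving theorem**: an inner product field which is adapted at one time `T₀` and is
Lipschitz along the flow can be replaced by one which is adapted at all positive times. -/
theorem core [∀ x, FiniteDimensional ℝ (𝓥 x)] (hS : Setting φ A P) (Cont : FormField 𝓥 → Prop)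
    (hCpull : ∀ t b, Cont b → Cont (pull φ A t b))
    (hCgm : ∀ b b' : FormField 𝓥, (∀ x, IsInner (b x)) → (∀ x, IsInner (b' x)) → Cont b →
      Cont b' → Cont (fun x => gm (b x) (b' x)))
    (hClim : ∀ (b : ℕ → FormField 𝓥) (b' b₀ : FormField 𝓥) (ε : ℕ → ℝ),
      Tendsto ε atTop (𝓝 0) → Cont b₀ → (∀ k, Cont (b k)) →
      (∀ k x v, |b k x v v - b' x v v| ≤ ε k * b₀ x v v) → Cont b')
    (hCt : ∀ b : FormField 𝓥, (∀ x, IsInner (b x)) → Cont b →
      ∀ x v, Continuous fun t => pull φ A t b x v v)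
    {G₀ : FormField 𝓥} (hG : Inn P G₀) (hC : Cont G₀) {L : ℝ} (hL0 : 0 ≤ L)
    (hL : LipAlong φ A G₀ L) {lam T₀ : ℝ} (hT₀ : 0 < T₀) (h : AdaptedAt φ A P G₀ lam T₀) :
    ∃ G : FormField 𝓥, Inn P G ∧ Cont G ∧ ∀ t > 0, AdaptedAt φ A P G lam t := by
  set g := halving φ A T₀ G₀ with hg
  have hinn : ∀ k, Inn P (g k) := halving_inn hS hG T₀
  have hcont : ∀ k, Cont (g k) := by
    intro k
    induction k with
    | zero => exact hC
    | succ k ih =>
      exact hCgm _ _ (hinn k).inner ((hinn k).pull' hS _).inner ih (hCpull _ _ ih)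
  have hdist : ∀ x (v : 𝓥 x) k, dist (g k x v v) (g (k + 1) x v v) ≤
      (L * T₀ * Real.exp (L * T₀) ^ 2 * G₀ x v v) / 2 / 2 ^ k := by
    intro x v k
    rw [dist_comm, Real.dist_eq]
    exact halving_diff hS hG hL hL0 hT₀.le k x v
  have hlim : ∀ x (v : 𝓥 x), ∃ l, Tendsto (fun k => g k x v v) atTop (𝓝 l) := fun x v =>
    cauchySeq_tendsto_of_complete (cauchySeq_of_le_geometric_two (hdist x v))
  choose G hGlim using fun x => exists_limit_form (fun k => g k x)
    (fun k => ((hinn k).inner x).symm) (hlim x)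
  have hGinn : Inn P G := by
    constructor
    · intro x
      refine ⟨fun v w => ?_, fun v hv => ?_⟩
      · refine tendsto_nhds_unique (hGlim x v w) ((hGlim x w v).congr fun k => ?_)
        exact ((hinn k).inner x).symm w v
      · have h1 : G₀ x v v ≤ Real.exp (L * T₀) * G x v v := by
          refine ge_of_tendsto' ((hGlim x v v).const_mul _) fun k => ?_
          exact zero_le_halving' hS hG hL hL0 hT₀.le k x v
        have h2 := (hG.inner x).pos v hv
        have h3 := Real.exp_pos (L * T₀)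
        by_contra h4
        push Not at h4
        nlinarith
    · intro x v w hv hw
      refine tendsto_nhds_unique (hGlim x v w) ?_
      refine tendsto_const_nhds.congr fun k => ?_
      exact ((hinn k).orth x v w hv hw).symm
  have hGcont : Cont G := by
    refine hClim g G G₀ (fun k => (L * T₀ * Real.exp (L * T₀) ^ 2) / 2 ^ k) ?_ hC hcont ?_
    · have h1 : Tendsto (fun k : ℕ => ((1 : ℝ) / 2) ^ k) atTop (𝓝 0) :=
        tendsto_pow_atTop_nhds_zero_of_lt_one (by norm_num) (by norm_num)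
      have h2 := h1.const_mul (L * T₀ * Real.exp (L * T₀) ^ 2)
      rw [mul_zero] at h2
      refine h2.congr fun k => ?_
      rw [one_div, inv_pow]; rfl
    · intro k x v
      have := dist_le_of_le_geometric_two_of_tendsto (hdist x v) (hGlim x v v) k
      rw [Real.dist_eq] at this
      refine this.trans (le_of_eq ?_)
      ring
  have hCt' : ∀ x v w, Continuous fun t => pull φ A t G x v w := by
    intro x v w
    have h1 := hCt G hGinn.inner hGcont x (v + w)
    have h2 := hCt G hGinn.inner hGcont x v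
    have h3 := hCt G hGinn.inner hGcont x w
    have h4 := ((h1.sub h2).sub h3).div_const 2
    refine h4.congr fun t => ?_
    simp only [map_add, LinearMap.add_apply, Pi.sub_apply]
    rw [((hGinn.pull' hS t).inner x).symm w v]
    ring
  refine ⟨G, hGinn, hGcont, fun t ht => ?_⟩
  -- dyadic times
  have hdyad : ∀ m k : ℕ, AdaptedAt φ A P G lam (m * (T₀ / 2 ^ k)) := by
    intro m k
    refine AdaptedAt.of_tendsto hGlim ?_
    filter_upwards [eventually_ge_atTop k] with j hj
    have h1 := (halving_adapted hS hG h j).nat_mul hS (hinn j) (m * 2 ^ (j - k))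
    have h2 : ((m * 2 ^ (j - k) : ℕ) : ℝ) * (T₀ / 2 ^ j) = m * (T₀ / 2 ^ k) := by
      obtain ⟨i, rfl⟩ := Nat.exists_eq_add_of_le hj
      rw [Nat.add_sub_cancel_left, pow_add]
      push_cast
      field_simp
    rwa [h2] at h1
  refine AdaptedAt.of_tendsto_time (τ := fun k => ⌊t / (T₀ / 2 ^ k)⌋₊ * (T₀ / 2 ^ k)) ?_ hCt'
    (Eventually.of_forall fun k => hdyad _ k)
  have hstep : ∀ k : ℕ, 0 < T₀ / 2 ^ k := fun k => by positivity
  have h0 : Tendsto (fun k : ℕ => T₀ / 2 ^ k) atTop (𝓝 0) := by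
    have h1 : Tendsto (fun k : ℕ => ((1 : ℝ) / 2) ^ k) atTop (𝓝 0) :=
      tendsto_pow_atTop_nhds_zero_of_lt_one (by norm_num) (by norm_num)
    have h2 := h1.const_mul T₀
    rw [mul_zero] at h2
    refine h2.congr fun k => ?_
    rw [one_div, inv_pow]; rfl
  refine tendsto_of_tendsto_of_tendsto_of_le_of_le (g := fun k => t - T₀ / 2 ^ k) (h := fun _ => t)
    (by simpa using tendsto_const_nhds.sub h0) tendsto_const_nhds ?_ ?_
  · intro k
    have h1 := Nat.lt_floor_add_one (t / (T₀ / 2 ^ k))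
    have h2 : t < (⌊t / (T₀ / 2 ^ k)⌋₊ + 1) * (T₀ / 2 ^ k) := by
      rwa [div_lt_iff₀ (hstep k)] at h1
    simp only
    linarith
  · intro k
    have h1 := Nat.floor_le (div_nonneg ht.le (hstep k).le)
    simp only
    rwa [le_div_iff₀ (hstep k)] at h1

end Pool.Agent.H82.Adapted
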