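import Mathlib
import Pool.Agent.H82.Adapted.Core

/-!
# The averaged metric
-/

set_option linter.unusedSectionVars false

namespace Pool.Agent.H82.Adapted

open Module Filter Topology Set

/-- Comparison of areas. -/
lemma areaSq_le_of_le {V : Type*} [AddCommGroup V] [Module ℝ V] {g g' : V →ₗ[ℝ] V →ₗ[ℝ] ℝ}
    (hg : IsInner g) (hg' : IsInner g') {K : ℝ} (hK : 0 ≤ K) (h : ∀ v, g v v ≤ K * g' v v)
    (v w : V) : areaSq g v w ≤ K ^ 2 * areaSq g' v w := by
  by_cases hv : v = 0
  · simp [areaSq, hv]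
  have hp : 0 < g' v v := hg'.pos v hv
  set u := w - (g' v w / g' v v) • v with hu
  have e1 : ∀ k : V →ₗ[ℝ] V →ₗ[ℝ] ℝ, IsInner k → areaSq k v w = areaSq k v u := by
    intro k hk
    simp only [areaSq, hu, map_sub, map_smul, LinearMap.sub_apply, LinearMap.smul_apply,
      smul_eq_mul]
    rw [hk.symm w v]
    ring
  have e2 : g' v u = 0 := by
    simp only [hu, map_sub, map_smul, smul_eq_mul]
    field_simp
    ring
  rw [e1 g hg, e1 g' hg']
  have e3 : areaSq g' v u = g' v v * g' u u := by simp [areaSq, e2]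
  have e4 : areaSq g v u ≤ g v v * g u u := by
    unfold areaSq
    linarith [sq_nonneg (g v u)]
  rw [e3]
  calc areaSq g v u ≤ g v v * g u u := e4
    _ ≤ (K * g' v v) * (K * g' u u) :=
        mul_le_mul (h v) (h u) (hg.nonneg u) (mul_nonneg hK hp.le)
    _ = _ := by ring

variable {B : Type*} {𝓥 : B → Type*} [∀ x, AddCommGroup (𝓥 x)] [∀ x, Module ℝ (𝓥 x)]
  {φ : ℝ → B → B} {A : ∀ t x, 𝓥 x →ₗ[ℝ] 𝓥 (φ t x)} {P : ∀ x, 𝓥 x →ₗ[ℝ] 𝓥 x}

/-- The time average over `[0, 1]` of a field of forms. -/
noncomputable def avg (b : FormField 𝓥)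
    (hb : ∀ x v w, Continuous fun t => pull φ A t b x v w) : FormField 𝓥 := fun x =>
  LinearMap.mk₂ ℝ (fun v w => ∫ s in (0 : ℝ)..1, pull φ A s b x v w)
    (fun v v' w => by
      rw [← intervalIntegral.integral_add ((hb x v w).intervalIntegrable _ _)
        ((hb x v' w).intervalIntegrable _ _)]
      simp)
    (fun c v w => by
      rw [smul_eq_mul, ← intervalIntegral.integral_const_mul]
      simp)
    (fun v w w' => by
      rw [← intervalIntegral.integral_add ((hb x v w).intervalIntegrable _ _)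
        ((hb x v w').intervalIntegrable _ _)]
      simp)
    (fun c v w => by
      rw [smul_eq_mul, ← intervalIntegral.integral_const_mul]
      simp)

variable {b : FormField 𝓥} (hb : ∀ x v w, Continuous fun t => pull φ A t b x v w)

lemma avg_apply (x : B) (v w : 𝓥 x) :
    avg b hb x v w = ∫ s in (0 : ℝ)..1, pull φ A s b x v w := rfl

section

variable (hS : Setting φ A P) (hI : Inn P b)

include hS

lemma pull_avg (t : ℝ) (x : B) (v w : 𝓥 x) :
    pull φ A t (avg b hb) x v w = ∫ s in t..(1 + t), pull φ A s b x v w := by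
  rw [pull_apply, avg_apply]
  have h1 : ∀ s, pull φ A s b (φ t x) (A t x v) (A t x w) = pull φ A (s + t) b x v w := by
    intro s
    rw [hS.comp]; rfl
  simp only [h1]
  rw [intervalIntegral.integral_comp_add_right (fun s => pull φ A s b x v w)]
  simp

include hI

variable {K : ℝ} (hK : 1 ≤ K)
  (hKb : ∀ t ∈ Icc (-2 : ℝ) 2, ∀ x v, pull φ A t b x v v ≤ K * b x v v)

include hK hKb

lemma le_pull {s : ℝ} (hs : s ∈ Icc (-2 : ℝ) 2) (x : B) (v : 𝓥 x) :
    b x v v ≤ K * pull φ A s b x v v := by
  have h1 := hKb (-s) ⟨by linarith [hs.2], by linarith [hs.1]⟩ (φ s x) (A s x v)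
  rw [← pull_apply, ← pull_apply, ← hS.comp, neg_add_cancel, hS.zero] at h1
  exact h1

lemma avg_le (x : B) (v : 𝓥 x) : avg b hb x v v ≤ K * b x v v := by
  rw [avg_apply]
  calc ∫ s in (0 : ℝ)..1, pull φ A s b x v v ≤ ∫ s in (0 : ℝ)..1, K * b x v v := by
        refine intervalIntegral.integral_mono_on zero_le_one
          ((hb x v v).intervalIntegrable _ _) (continuous_const.intervalIntegrable _ _) ?_
        intro s hs
        exact hKb s ⟨by linarith [hs.1], by linarith [hs.2]⟩ x v
    _ = K * b x v v := by simp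

lemma le_avg (x : B) (v : 𝓥 x) : b x v v ≤ K * avg b hb x v v := by
  rw [avg_apply, ← intervalIntegral.integral_const_mul]
  calc b x v v = ∫ s in (0 : ℝ)..1, b x v v := by simp
    _ ≤ ∫ s in (0 : ℝ)..1, K * pull φ A s b x v v := by
        refine intervalIntegral.integral_mono_on zero_le_one
          (continuous_const.intervalIntegrable _ _)
          ((continuous_const.mul (hb x v v)).intervalIntegrable _ _) ?_
        intro s hs
        exact le_pull hS hI hK hKb ⟨by linarith [hs.1], by linarith [hs.2]⟩ x v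

lemma avg_inn : Inn P (avg b hb) where
  inner x := by
    refine ⟨fun v w => ?_, fun v hv => ?_⟩
    · rw [avg_apply, avg_apply]
      refine intervalIntegral.integral_congr fun s _ => ?_
      exact ((hI.pull' hS s).inner x).symm v w
    · have h1 := le_avg hb hS hI hK hKb x v
      have h2 := (hI.inner x).pos v hv
      by_contra h3
      push Not at h3
      nlinarith
  orth x v w hv hw := by
    rw [avg_apply]
    rw [intervalIntegral.integral_congr (g := fun _ => (0 : ℝ))
      (fun s _ => (hI.pull' hS s).orth x v w hv hw)]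
    simp

lemma avg_lip_small {t : ℝ} (ht : |t| ≤ 1) (x : B) (v : 𝓥 x) :
    pull φ A t (avg b hb) x v v ≤ Real.exp (2 * K ^ 2 * |t|) * avg b hb x v v := by
  obtain ⟨ht1, ht2⟩ := abs_le.mp ht
  set q : ℝ → ℝ := fun s => pull φ A s b x v v with hq
  have hqc : Continuous q := hb x v v
  have hq0 : ∀ s, 0 ≤ q s := fun s => ((hI.pull' hS s).inner x).nonneg v
  have hint : ∀ a c, IntervalIntegrable q MeasureTheory.volume a c :=
    fun a c => hqc.intervalIntegrable _ _
  have e1 : (∫ s in t..(1 + t), q s) - ∫ s in (0 : ℝ)..1, q s =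
      (∫ s in (1 : ℝ)..(1 + t), q s) - ∫ s in (0 : ℝ)..t, q s := by
    have h1 := intervalIntegral.integral_add_adjacent_intervals (hint 0 t) (hint t (1 + t))
    have h2 := intervalIntegral.integral_add_adjacent_intervals (hint 0 1) (hint 1 (1 + t))
    linarith
  have hbb := (hI.inner x).nonneg v
  have b1 : |∫ s in (1 : ℝ)..(1 + t), q s| ≤ K * b x v v * |t| := by
    have h1 := intervalIntegral.norm_integral_le_of_norm_le_const (a := (1 : ℝ)) (b := 1 + t)
      (f := q) (C := K * b x v v) ?_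
    · rw [Real.norm_eq_abs] at h1
      simpa using h1
    · intro s hs
      rw [Real.norm_eq_abs, abs_of_nonneg (hq0 s)]
      refine hKb s ?_ x v
      rcases le_total 0 t with h0 | h0
      · rw [uIoc_of_le (by linarith)] at hs
        exact ⟨by linarith [hs.1], by linarith [hs.2]⟩
      · rw [uIoc_of_ge (by linarith)] at hs
        exact ⟨by linarith [hs.1], by linarith [hs.2]⟩
  have b2 : |∫ s in (0 : ℝ)..t, q s| ≤ K * b x v v * |t| := by
    have h1 := intervalIntegral.norm_integral_le_of_norm_le_const (a := (0 : ℝ)) (b := t)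
      (f := q) (C := K * b x v v) ?_
    · rw [Real.norm_eq_abs] at h1
      simpa using h1
    · intro s hs
      rw [Real.norm_eq_abs, abs_of_nonneg (hq0 s)]
      refine hKb s ?_ x v
      rcases le_total 0 t with h0 | h0
      · rw [uIoc_of_le (by linarith)] at hs
        exact ⟨by linarith [hs.1], by linarith [hs.2]⟩
      · rw [uIoc_of_ge (by linarith)] at hs
        exact ⟨by linarith [hs.1], by linarith [hs.2]⟩
  have hA := le_avg hb hS hI hK hKb x v
  rw [pull_avg hb hS, avg_apply] at *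
  have e2 : (∫ s in t..(1 + t), q s) ≤ (∫ s in (0 : ℝ)..1, q s) + 2 * (K * b x v v * |t|) := by
    have := (abs_le.mp b1).2
    have := (abs_le.mp b2).1
    linarith
  have hI0 : 0 ≤ ∫ s in (0 : ℝ)..1, q s :=
    intervalIntegral.integral_nonneg zero_le_one fun s _ => hq0 s
  have e3 : 2 * (K * b x v v * |t|) ≤ 2 * K ^ 2 * |t| * ∫ s in (0 : ℝ)..1, q s := by
    have h1 : K * b x v v ≤ K * (K * ∫ s in (0 : ℝ)..1, q s) :=
      mul_le_mul_of_nonneg_left hA (by linarith)
    have h2 := mul_le_mul_of_nonneg_right h1 (abs_nonneg t)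
    nlinarith
  calc (∫ s in t..(1 + t), q s) ≤ (1 + 2 * K ^ 2 * |t|) * ∫ s in (0 : ℝ)..1, q s := by linarith
    _ ≤ Real.exp (2 * K ^ 2 * |t|) * ∫ s in (0 : ℝ)..1, q s := by
        refine mul_le_mul_of_nonneg_right ?_ hI0
        have := Real.add_one_le_exp (2 * K ^ 2 * |t|)
        linarith

lemma avg_lip : LipAlong φ A (avg b hb) (K ^ 2) := by
  -- iterate
  have key : ∀ (n : ℕ) (s : ℝ), |s| ≤ 1 → ∀ x v, pull φ A (n * s) (avg b hb) x v v ≤
      Real.exp (2 * K ^ 2 * (n * |s|)) * avg b hb x v v := by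
    intro n s hs
    induction n with
    | zero => intro x v; simp [hS.zero]
    | succ n ih =>
      intro x v
      have e1 : ((n + 1 : ℕ) : ℝ) * s = n * s + s := by push_cast; ring
      rw [e1, hS.comp, pull_apply]
      have h1 := ih (φ s x) (A s x v)
      have h2 := avg_lip_small hb hS hI hK hKb hs x v
      rw [pull_apply] at h2
      refine h1.trans ((mul_le_mul_of_nonneg_left h2 (Real.exp_pos _).le).trans (le_of_eq ?_))
      rw [← mul_assoc, ← Real.exp_add]
      congr 2
      push_cast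
      ring
  intro t x v
  set n := ⌈|t|⌉₊ + 1 with hn
  have hn0 : (0 : ℝ) < n := by positivity
  have h1 := key n (t / n) (by
    rw [abs_div, abs_of_pos hn0, div_le_one hn0]
    have := Nat.le_ceil |t|
    rw [hn]; push_cast; linarith) x v
  have e1 : (n : ℝ) * (t / n) = t := by field_simp
  rw [e1] at h1
  refine h1.trans (le_of_eq ?_)
  rw [abs_div, abs_of_pos hn0]
  congr 2
  field_simp

/-- Existence of an initial metric which is Lipschitz along the flow and adapted at one time. -/
theorem avg_adapted {C lam : ℝ} (hC : 1 ≤ C) (hlam : 0 < lam)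
    (hdom : ∀ t > 0, ∀ x v w, P x v = v → P x w = 0 → pull φ A t b x v v * b x w w ≤
      C ^ 2 * Real.exp (-2 * lam * t) * (b x v v * pull φ A t b x w w))
    (hcontr : ∀ t > 0, ∀ x v, P x v = v → pull φ A t b x v v ≤
      C ^ 2 * Real.exp (-2 * lam * t) * b x v v)
    (harea : ∀ t > 0, ∀ x v w, P x v = 0 → P x w = 0 →
      (C ^ 2)⁻¹ * Real.exp (2 * lam * t) * areaSq (b x) v w ≤ areaSq (pull φ A t b x) v w) :
    ∃ T₀ > 0, AdaptedAt φ A P (avg b hb) (lam / 2) T₀ := by
  have hK0 : 0 < K := by linarith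
  have hC0 : 0 < C := by linarith
  obtain ⟨T, hT0, hT⟩ : ∃ T > 0, K ^ 4 * C ^ 2 ≤ Real.exp (lam * T) := by
    have h1 : Tendsto (fun T => Real.exp (lam * T)) atTop atTop :=
      Real.tendsto_exp_atTop.comp (tendsto_id.const_mul_atTop hlam)
    obtain ⟨T, h2, h3⟩ := ((h1.eventually_ge_atTop (K ^ 4 * C ^ 2)).and
      (eventually_gt_atTop 0)).exists
    exact ⟨T, h3, h2⟩
  refine ⟨T, hT0, ?_⟩
  have hexp : K ^ 4 * C ^ 2 * Real.exp (-2 * lam * T) ≤ Real.exp (-2 * (lam / 2) * T) := by
    calc K ^ 4 * C ^ 2 * Real.exp (-2 * lam * T) ≤ Real.exp (lam * T) * Real.exp (-2 * lam * T) :=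
          mul_le_mul_of_nonneg_right hT (Real.exp_pos _).le
      _ = Real.exp (-2 * (lam / 2) * T) := by rw [← Real.exp_add]; congr 1; ring
  have hexp' : Real.exp (2 * (lam / 2) * T) ≤ (K ^ 4 * C ^ 2)⁻¹ * Real.exp (2 * lam * T) := by
    rw [inv_mul_eq_div, le_div_iff₀ (by positivity)]
    calc Real.exp (2 * (lam / 2) * T) * (K ^ 4 * C ^ 2) ≤
          Real.exp (2 * (lam / 2) * T) * Real.exp (lam * T) :=
          mul_le_mul_of_nonneg_left hT (Real.exp_pos _).le
      _ = Real.exp (2 * lam * T) := by rw [← Real.exp_add]; congr 1; ring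
  have hGi := avg_inn hb hS hI hK hKb
  have hup := avg_le hb hS hI hK hKb
  have hlo := le_avg hb hS hI hK hKb
  have hKpow : K ^ 2 ≤ K ^ 4 := pow_le_pow_right₀ hK (by norm_num)
  constructor
  · intro x v w hv hw
    have h1 := hdom T hT0 x v w hv hw
    have u1 := hup (φ T x) (A T x v)
    have u2 := hup x w
    have l1 := hlo x v
    have l2 := hlo (φ T x) (A T x w)
    rw [pull_apply] at h1 ⊢
    rw [pull_apply] at h1 ⊢
    have n1 := (hI.inner (φ T x)).nonneg (A T x v)
    have n2 := (hI.inner x).nonneg w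
    have n3 := (hI.inner x).nonneg v
    have n4 := (hI.inner (φ T x)).nonneg (A T x w)
    have m1 := (hGi.inner (φ T x)).nonneg (A T x v)
    have m2 := (hGi.inner x).nonneg w
    have m3 := (hGi.inner x).nonneg v
    have m4 := (hGi.inner (φ T x)).nonneg (A T x w)
    have hE := Real.exp_pos (-2 * lam * T)
    calc avg b hb (φ T x) (A T x v) (A T x v) * avg b hb x w w
        ≤ (K * b (φ T x) (A T x v) (A T x v)) * (K * b x w w) :=
          mul_le_mul u1 u2 m2 (by positivity)
      _ = K ^ 2 * (b (φ T x) (A T x v) (A T x v) * b x w w) := by ring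
      _ ≤ K ^ 2 * (C ^ 2 * Real.exp (-2 * lam * T) *
            (b x v v * b (φ T x) (A T x w) (A T x w))) :=
          mul_le_mul_of_nonneg_left h1 (by positivity)
      _ ≤ K ^ 2 * (C ^ 2 * Real.exp (-2 * lam * T) *
            ((K * avg b hb x v v) * (K * avg b hb (φ T x) (A T x w) (A T x w)))) := by
          refine mul_le_mul_of_nonneg_left (mul_le_mul_of_nonneg_left
            (mul_le_mul l1 l2 n4 (by positivity)) (by positivity)) (by positivity)
      _ = (K ^ 4 * C ^ 2 * Real.exp (-2 * lam * T)) *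
            (avg b hb x v v * avg b hb (φ T x) (A T x w) (A T x w)) := by ring
      _ ≤ _ := mul_le_mul_of_nonneg_right hexp (by positivity)
  · intro x v hv
    have h1 := hcontr T hT0 x v hv
    have u1 := hup (φ T x) (A T x v)
    have l1 := hlo x v
    rw [pull_apply] at h1 ⊢
    have m3 := (hGi.inner x).nonneg v
    have hE := Real.exp_pos (-2 * lam * T)
    calc avg b hb (φ T x) (A T x v) (A T x v) ≤ K * b (φ T x) (A T x v) (A T x v) := u1
      _ ≤ K * (C ^ 2 * Real.exp (-2 * lam * T) * b x v v) :=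
          mul_le_mul_of_nonneg_left h1 (by positivity)
      _ ≤ K * (C ^ 2 * Real.exp (-2 * lam * T) * (K * avg b hb x v v)) :=
          mul_le_mul_of_nonneg_left (mul_le_mul_of_nonneg_left l1 (by positivity)) (by positivity)
      _ = (K ^ 2 * C ^ 2 * Real.exp (-2 * lam * T)) * avg b hb x v v := by ring
      _ ≤ (K ^ 4 * C ^ 2 * Real.exp (-2 * lam * T)) * avg b hb x v v := by gcongr
      _ ≤ _ := mul_le_mul_of_nonneg_right hexp m3
  · intro x v w hv hw
    have h1 := harea T hT0 x v w hv hw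
    have a1 : areaSq (avg b hb x) v w ≤ K ^ 2 * areaSq (b x) v w :=
      areaSq_le_of_le (hGi.inner x) (hI.inner x) hK0.le (hup x) v w
    have a2 : areaSq (b (φ T x)) (A T x v) (A T x w) ≤
        K ^ 2 * areaSq (avg b hb (φ T x)) (A T x v) (A T x w) :=
      areaSq_le_of_le (hI.inner _) (hGi.inner _) hK0.le (hlo _) _ _
    have e1 : areaSq (pull φ A T b x) v w = areaSq (b (φ T x)) (A T x v) (A T x w) := rfl
    have e2 : areaSq (pull φ A T (avg b hb) x) v w =
        areaSq (avg b hb (φ T x)) (A T x v) (A T x w) := rfl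
    rw [e1] at h1
    rw [e2]
    have n0 : 0 ≤ areaSq (b x) v w := by
      have := (hI.inner x).cauchy_schwarz v w
      unfold areaSq; linarith
    have n1 : 0 ≤ areaSq (avg b hb x) v w := by
      have := (hGi.inner x).cauchy_schwarz v w
      unfold areaSq; linarith
    have h2 : (C ^ 2)⁻¹ * Real.exp (2 * lam * T) * areaSq (b x) v w ≤
        K ^ 2 * areaSq (avg b hb (φ T x)) (A T x v) (A T x w) := h1.trans a2
    have h3 : (C ^ 2)⁻¹ * Real.exp (2 * lam * T) * ((K ^ 2)⁻¹ * areaSq (avg b hb x) v w) ≤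
        (C ^ 2)⁻¹ * Real.exp (2 * lam * T) * areaSq (b x) v w := by
      refine mul_le_mul_of_nonneg_left ?_ (by positivity)
      rw [inv_mul_eq_div, div_le_iff₀ (by positivity)]
      linarith
    have h4 := h3.trans h2
    calc Real.exp (2 * (lam / 2) * T) * areaSq (avg b hb x) v w
        ≤ ((K ^ 4 * C ^ 2)⁻¹ * Real.exp (2 * lam * T)) * areaSq (avg b hb x) v w :=
          mul_le_mul_of_nonneg_right hexp' n1
      _ = (K ^ 2)⁻¹ * ((C ^ 2)⁻¹ * Real.exp (2 * lam * T) *
            ((K ^ 2)⁻¹ * areaSq (avg b hb x) v w)) := by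
          field_simp
      _ ≤ (K ^ 2)⁻¹ * (K ^ 2 * areaSq (avg b hb (φ T x)) (A T x v) (A T x w)) :=
          mul_le_mul_of_nonneg_left h4 (by positivity)
      _ = _ := by field_simp

end

end Pool.Agent.H82.Adapted
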