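import Mathlib
import Pool.Agent.H82.Adapted.Core

/-!
# Continuity of fields of forms on a vector bundle over a subset of the base
-/

set_option linter.unusedSectionVars false

namespace Pool.Agent.H82.Adapted

open Module Filter Topology Bundle Set

section Homog

variable {Z F : Type*} [TopologicalSpace Z] [NormedAddCommGroup F] [NormedSpace ℝ F]
  [FiniteDimensional ℝ F]

/-- Uniform closeness of nearby homogeneous functions of degree two. -/
lemma homog_close (f : Z → F → ℝ) (hf : ∀ z (c : ℝ) u, f z (c • u) = c ^ 2 * f z u) (z₀ : Z)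
    (hc : ∀ u, ContinuousAt (fun p : Z × F => f p.1 p.2) (z₀, u)) {ε : ℝ} (hε : 0 < ε) :
    ∀ᶠ z in 𝓝 z₀, ∀ u, |f z u - f z₀ u| ≤ ε * ‖u‖ ^ 2 := by
  have hK : IsCompact (Metric.sphere (0 : F) 1) := isCompact_sphere 0 1
  have h1 : ∀ᶠ z in 𝓝 z₀, ∀ u ∈ Metric.sphere (0 : F) 1, |f z u - f z₀ u| < ε := by
    refine hK.eventually_forall_of_forall_eventually fun u _ => ?_
    have h2 : ContinuousAt (fun p : Z × F => f p.1 p.2) (z₀, u) := hc u
    have h3 : ContinuousAt (fun p : Z × F => f z₀ p.2) (z₀, u) := by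
      have : ContinuousAt (fun p : Z × F => (z₀, p.2)) (z₀, u) := by fun_prop
      exact ContinuousAt.comp (f := fun p : Z × F => (z₀, p.2)) (x := (z₀, u)) h2 this
    have h4 := (h2.sub h3).abs
    have h5 : ∀ᶠ p : Z × F in 𝓝 (z₀, u), |f p.1 p.2 - f z₀ p.2| < ε := by
      refine (h4.tendsto).eventually_lt_const ?_
      simpa using hε
    exact h5
  filter_upwards [h1] with z hz u
  by_cases hu : u = 0
  · have e1 := hf z 0 0
    have e2 := hf z₀ 0 0
    simp only [smul_zero] at e1 e2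
    rw [hu, e1, e2]
    simp
  · have hn : 0 < ‖u‖ := norm_pos_iff.mpr hu
    have h2 := hz (‖u‖⁻¹ • u) (by simp [norm_smul, hn.ne'])
    rw [hf, hf, ← mul_sub, abs_mul, abs_of_nonneg (by positivity)] at h2
    have h3 : ‖u‖⁻¹ ^ 2 * |f z u - f z₀ u| * ‖u‖ ^ 2 ≤ ε * ‖u‖ ^ 2 :=
      mul_le_mul_of_nonneg_right h2.le (by positivity)
    calc |f z u - f z₀ u| = ‖u‖⁻¹ ^ 2 * |f z u - f z₀ u| * ‖u‖ ^ 2 := by field_simp
      _ ≤ _ := h3

/-- A positive continuous homogeneous function of degree two is bounded below. -/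
lemma homog_lower (f : F → ℝ) (hf : ∀ (c : ℝ) u, f (c • u) = c ^ 2 * f u)
    (hc : Continuous f) (hpos : ∀ u, u ≠ 0 → 0 < f u) :
    ∃ m > 0, ∀ u, m * ‖u‖ ^ 2 ≤ f u := by
  rcases subsingleton_or_nontrivial F with hF | hF
  · refine ⟨1, one_pos, fun u => ?_⟩
    have e1 := hf 0 0
    simp only [smul_zero] at e1
    rw [Subsingleton.elim u 0, e1]
    simp
  have hK : IsCompact (Metric.sphere (0 : F) 1) := isCompact_sphere 0 1
  have hne : (Metric.sphere (0 : F) 1).Nonempty := NormedSpace.sphere_nonempty.mpr zero_le_one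
  obtain ⟨u₀, hu₀, hmin⟩ := hK.exists_isMinOn hne hc.continuousOn
  have hu₀' : u₀ ≠ 0 := by
    intro h
    rw [h] at hu₀
    simp at hu₀
  refine ⟨f u₀, hpos _ hu₀', fun u => ?_⟩
  by_cases hu : u = 0
  · have e1 := hf 0 0
    simp only [smul_zero] at e1
    rw [hu, e1]
    simp
  · have hn : 0 < ‖u‖ := norm_pos_iff.mpr hu
    have h2 := hmin (show ‖u‖⁻¹ • u ∈ Metric.sphere (0 : F) 1 by simp [norm_smul, hn.ne'])
    simp only [mem_ofPred_eq] at h2
    rw [hf] at h2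
    calc f u₀ * ‖u‖ ^ 2 ≤ (‖u‖⁻¹ ^ 2 * f u) * ‖u‖ ^ 2 :=
          mul_le_mul_of_nonneg_right h2 (by positivity)
      _ = f u := by field_simp

end Homog

section Bundle

variable {M : Type*} [TopologicalSpace M] {F : Type*} [NormedAddCommGroup F] [NormedSpace ℝ F]
  [FiniteDimensional ℝ F] {𝓔 : M → Type*} [∀ x, AddCommGroup (𝓔 x)] [∀ x, Module ℝ (𝓔 x)]
  [∀ x, TopologicalSpace (𝓔 x)] [TopologicalSpace (TotalSpace F 𝓔)] [FiberBundle F 𝓔]
  [VectorBundle ℝ F 𝓔] {Λ : Set M}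

variable (F) in
/-- Continuity of a field of (symmetric) forms over `Λ`: the associated quadratic function on the
part of the total space over `Λ` is continuous. -/
def ContOn (b : FormField (fun x : Λ => 𝓔 x)) : Prop :=
  Continuous fun p : {p : TotalSpace F 𝓔 // p.proj ∈ Λ} => b ⟨p.1.proj, p.2⟩ p.1.snd p.1.snd

variable (F) in
/-- Local expression of the quadratic function in the trivialization at `x₀`. -/
noncomputable def loc (b : FormField (fun x : Λ => 𝓔 x)) (x₀ : M) (z : Λ) (u : F) : ℝ :=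
  b z ((trivializationAt F 𝓔 x₀).symmL ℝ (z : M) u) ((trivializationAt F 𝓔 x₀).symmL ℝ (z : M) u)

lemma loc_smul (b : FormField (fun x : Λ => 𝓔 x)) (x₀ : M) (z : Λ) (c : ℝ) (u : F) :
    loc F b x₀ z (c • u) = c ^ 2 * loc F b x₀ z u := by
  simp only [loc, map_smul, LinearMap.smul_apply, smul_eq_mul]
  ring

lemma continuousAt_symm (x₀ : M) {z : M} (hz : z ∈ (trivializationAt F 𝓔 x₀).baseSet) (u : F) :
    ContinuousAt (fun p : M × F =>
      (⟨p.1, (trivializationAt F 𝓔 x₀).symmL ℝ p.1 p.2⟩ : TotalSpace F 𝓔)) (z, u) := by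
  have h1 := (trivializationAt F 𝓔 x₀).continuousOn_symm
  have h2 : (trivializationAt F 𝓔 x₀).baseSet ×ˢ (univ : Set F) ∈ 𝓝 (z, u) :=
    ((trivializationAt F 𝓔 x₀).open_baseSet.prod isOpen_univ).mem_nhds ⟨hz, mem_univ _⟩
  refine (h1.continuousAt h2).congr ?_
  filter_upwards [h2] with p hp
  rw [Trivialization.symmL_apply _ hp.1]

lemma ContOn.continuousAt_loc {b : FormField (fun x : Λ => 𝓔 x)} (hb : ContOn F b) (x₀ : M)
    {z : Λ} (hz : (z : M) ∈ (trivializationAt F 𝓔 x₀).baseSet) (u : F) :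
    ContinuousAt (fun p : Λ × F => loc F b x₀ p.1 p.2) (z, u) := by
  have h1 : ContinuousAt (fun p : Λ × F =>
      (⟨⟨(p.1 : M), (trivializationAt F 𝓔 x₀).symmL ℝ (p.1 : M) p.2⟩, p.1.2⟩ :
        {p : TotalSpace F 𝓔 // p.proj ∈ Λ})) (z, u) := by
    unfold ContinuousAt
    rw [tendsto_subtype_rng]
    have h2 := continuousAt_symm (F := F) (𝓔 := 𝓔) x₀ hz u
    have h3 : ContinuousAt (fun p : Λ × F => ((p.1 : M), p.2)) (z, u) := by fun_prop
    exact ContinuousAt.comp (f := fun p : Λ × F => ((p.1 : M), p.2)) (x := (z, u)) h2 h3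
  have h4 := (Continuous.continuousAt hb (x := (⟨⟨(z : M),
    (trivializationAt F 𝓔 x₀).symmL ℝ (z : M) u⟩, z.2⟩ :
        {p : TotalSpace F 𝓔 // p.proj ∈ Λ})))
  exact ContinuousAt.comp (f := fun p : Λ × F =>
      (⟨⟨(p.1 : M), (trivializationAt F 𝓔 x₀).symmL ℝ (p.1 : M) p.2⟩, p.1.2⟩ :
        {p : TotalSpace F 𝓔 // p.proj ∈ Λ})) (x := (z, u)) h4 h1

lemma contOn_of_loc {b : FormField (fun x : Λ => 𝓔 x)}
    (h : ∀ (z : Λ) (u : F), ContinuousAt (fun p : Λ × F => loc F b z p.1 p.2) (z, u)) :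
    ContOn F b := by
  unfold ContOn
  rw [continuous_iff_continuousAt]
  intro p₀
  set x₀ : Λ := ⟨p₀.1.proj, p₀.2⟩ with hx₀
  set e := trivializationAt F 𝓔 (x₀ : M) with he
  have hmem : p₀.1 ∈ e.source := by
    rw [e.mem_source]
    exact FiberBundle.mem_baseSet_trivializationAt' _
  have h1 : ContinuousAt (fun p : {p : TotalSpace F 𝓔 // p.proj ∈ Λ} =>
      ((⟨p.1.proj, p.2⟩ : Λ), (e p.1).2)) p₀ := by
    refine ContinuousAt.prodMk ?_ ?_
    · unfold ContinuousAt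
      rw [tendsto_subtype_rng]
      exact ((FiberBundle.continuous_proj F 𝓔).comp continuous_subtype_val).continuousAt
    · have h2 : ContinuousAt (fun p : TotalSpace F 𝓔 => (e p).2) p₀.1 :=
        (e.continuousOn.continuousAt (e.open_source.mem_nhds hmem)).snd
      exact ContinuousAt.comp (f := fun p : {p : TotalSpace F 𝓔 // p.proj ∈ Λ} => p.1) (x := p₀) h2
        continuous_subtype_val.continuousAt
  have h3 := h x₀ (e p₀.1).2
  have h4 : ContinuousAt (fun p : {p : TotalSpace F 𝓔 // p.proj ∈ Λ} =>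
      loc F b x₀ ⟨p.1.proj, p.2⟩ (e p.1).2) p₀ :=
    ContinuousAt.comp (f := fun p : {p : TotalSpace F 𝓔 // p.proj ∈ Λ} =>
      ((⟨p.1.proj, p.2⟩ : Λ), (e p.1).2)) (x := p₀) h3 h1
  refine h4.congr ?_
  have h5 : ∀ᶠ p : {p : TotalSpace F 𝓔 // p.proj ∈ Λ} in 𝓝 p₀, p.1 ∈ e.source :=
    continuous_subtype_val.continuousAt.eventually (e.open_source.mem_nhds hmem)
  filter_upwards [h5] with p hp
  have hpb : p.1.proj ∈ e.baseSet := e.mem_source.mp hp
  simp only [loc]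
  rw [Trivialization.symmL_apply _ hpb, e.symm_proj_apply p.1 hpb]

/-- A bilinear form on the model space composed with `symmL`. -/
noncomputable def hatForm (b : FormField (fun x : Λ => 𝓔 x)) (x₀ : M) (z : Λ) :
    F →ₗ[ℝ] F →ₗ[ℝ] ℝ :=
  (b z).compl₁₂ ((trivializationAt F 𝓔 x₀).symmL ℝ (z : M)).toLinearMap
    ((trivializationAt F 𝓔 x₀).symmL ℝ (z : M)).toLinearMap

lemma hatForm_self (b : FormField (fun x : Λ => 𝓔 x)) (x₀ : M) (z : Λ) (u : F) :
    hatForm b x₀ z u u = loc F b x₀ z u := rfl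

lemma symmL_bijective (x₀ : M) {z : M} (hz : z ∈ (trivializationAt F 𝓔 x₀).baseSet) :
    Function.Bijective ((trivializationAt F 𝓔 x₀).symmL ℝ z).toLinearMap := by
  have h := ((trivializationAt F 𝓔 x₀).continuousLinearEquivAt ℝ z hz).symm.bijective
  rw [(trivializationAt F 𝓔 x₀).symm_continuousLinearEquivAt_eq hz] at h
  exact h

lemma continuous_form_self (f : F →ₗ[ℝ] F →ₗ[ℝ] ℝ) : Continuous fun u : F => f u u := by
  have h1 : Continuous fun p : F × F => f p.1 p.2 := by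
    let g : F →ₗ[ℝ] F →L[ℝ] ℝ := LinearMap.toContinuousLinearMap.toLinearMap ∘ₗ f
    have hg : Continuous g := LinearMap.continuous_of_finiteDimensional g
    have : (fun p : F × F => f p.1 p.2) = fun p : F × F => g p.1 p.2 := rfl
    rw [this]
    exact (hg.comp continuous_fst).clm_apply continuous_snd
  exact h1.comp (continuous_id.prodMk continuous_id)

/-- A squeezing criterion for continuity. -/
lemma continuousAt_of_rel_close {Z : Type*} [TopologicalSpace Z] (f : Z → F → ℝ) (g : F → ℝ)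
    (hg : Continuous g) (hg0 : ∀ u, 0 ≤ g u) (z₀ : Z) (u₀ : F) (h0 : f z₀ u₀ = g u₀)
    (h : ∀ δ : ℝ, 0 < δ → δ < 1 → ∀ᶠ z in 𝓝 z₀, ∀ u, |f z u - g u| ≤ δ * g u) :
    ContinuousAt (fun p : Z × F => f p.1 p.2) (z₀, u₀) := by
  rw [Metric.continuousAt_iff']
  intro η hη
  have hpos : 0 < g u₀ + 1 := by linarith [hg0 u₀]
  set δ := min (1 / 2) (η / (2 * (g u₀ + 1))) with hδ
  have hδ0 : 0 < δ := by positivity
  have hδ1 : δ < 1 := lt_of_le_of_lt (min_le_left _ _) (by norm_num)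
  have hδ2 : δ * (g u₀ + 1) ≤ η / 2 := by
    calc δ * (g u₀ + 1) ≤ (η / (2 * (g u₀ + 1))) * (g u₀ + 1) :=
          mul_le_mul_of_nonneg_right (min_le_right _ _) hpos.le
      _ = η / 2 := by field_simp
  have e1 : ∀ᶠ p : Z × F in 𝓝 (z₀, u₀), ∀ u, |f p.1 u - g u| ≤ δ * g u :=
    (continuous_fst.tendsto (z₀, u₀)).eventually (h δ hδ0 hδ1)
  have hgu : Tendsto (fun p : Z × F => g p.2) (𝓝 (z₀, u₀)) (𝓝 (g u₀)) :=
    (hg.tendsto u₀).comp (continuous_snd.tendsto (z₀, u₀))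
  have e2 : ∀ᶠ p : Z × F in 𝓝 (z₀, u₀), g p.2 < g u₀ + 1 :=
    hgu.eventually_lt_const (by linarith)
  have e3 : ∀ᶠ p : Z × F in 𝓝 (z₀, u₀), |g p.2 - g u₀| < η / 2 := by
    have := (Metric.tendsto_nhds.mp hgu) (η / 2) (by linarith)
    simpa [Real.dist_eq] using this
  filter_upwards [e1, e2, e3] with p h1 h2 h3
  rw [Real.dist_eq, h0]
  have h4 := h1 p.2
  have h5 : δ * g p.2 ≤ δ * (g u₀ + 1) := mul_le_mul_of_nonneg_left h2.le hδ0.le
  calc |f p.1 p.2 - g u₀| = |(f p.1 p.2 - g p.2) + (g p.2 - g u₀)| := by ring_nf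
    _ ≤ |f p.1 p.2 - g p.2| + |g p.2 - g u₀| := abs_add_le _ _
    _ < η := by linarith

/-- Relative closeness of the local expressions of a continuous field of inner products. -/
lemma ContOn.rel_close {b : FormField (fun x : Λ => 𝓔 x)} (hb : ContOn F b)
    (hbi : ∀ x, IsInner (b x)) (z₀ : Λ) {δ : ℝ} (hδ : 0 < δ) :
    ∀ᶠ z in 𝓝 z₀, ∀ u, |loc F b z₀ z u - loc F b z₀ z₀ u| ≤ δ * loc F b z₀ z₀ u := by
  have hz₀ : (z₀ : M) ∈ (trivializationAt F 𝓔 (z₀ : M)).baseSet :=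
    FiberBundle.mem_baseSet_trivializationAt' _
  have hin : IsInner (hatForm (F := F) b z₀ z₀) := (hbi z₀).comp (symmL_bijective _ hz₀).1
  obtain ⟨m, hm, hmu⟩ := homog_lower (loc F b z₀ z₀) (loc_smul b z₀ z₀)
    (continuous_form_self (hatForm b z₀ z₀)) (fun u hu => hin.pos u hu)
  filter_upwards [homog_close (loc F b z₀) (loc_smul b z₀) z₀
    (fun u => hb.continuousAt_loc z₀ hz₀ u) (mul_pos hδ hm)] with z hz u
  calc _ ≤ δ * m * ‖u‖ ^ 2 := hz u
    _ = δ * (m * ‖u‖ ^ 2) := by ring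
    _ ≤ _ := mul_le_mul_of_nonneg_left (hmu u) hδ.le

/-- The geometric mean of two continuous fields of inner products is continuous. -/
lemma ContOn.gm [∀ x, FiniteDimensional ℝ (𝓔 x)] {b b' : FormField (fun x : Λ => 𝓔 x)}
    (hb : ContOn F b) (hb' : ContOn F b')
    (hbi : ∀ x, IsInner (b x)) (hbi' : ∀ x, IsInner (b' x)) :
    ContOn F (fun x => gm (b x) (b' x)) := by
  refine contOn_of_loc fun z₀ u₀ => ?_
  have hz₀ : (z₀ : M) ∈ (trivializationAt F 𝓔 (z₀ : M)).baseSet :=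
    FiberBundle.mem_baseSet_trivializationAt' _
  set h : FormField (fun x : Λ => 𝓔 x) := fun x => Adapted.gm (b x) (b' x) with hh
  have hi : ∀ x, IsInner (h x) := fun x => gm_inner (hbi x) (hbi' x)
  have hGM : ∀ x, IsGM (b x) (b' x) (h x) := fun x => gm_isGM (hbi x) (hbi' x)
  refine continuousAt_of_rel_close (loc F h z₀) (loc F h z₀ z₀)
    (continuous_form_self (hatForm h z₀ z₀)) (fun u => (hi z₀).nonneg _) z₀ u₀ rfl ?_
  intro δ hδ hδ1
  have hbase : ∀ᶠ z : Λ in 𝓝 z₀, (z : M) ∈ (trivializationAt F 𝓔 (z₀ : M)).baseSet :=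
    continuous_subtype_val.continuousAt.eventually
      ((trivializationAt F 𝓔 (z₀ : M)).open_baseSet.mem_nhds hz₀)
  filter_upwards [hb.rel_close hbi z₀ hδ, hb'.rel_close hbi' z₀ hδ, hbase] with z h1 h2 h3 u
  have hbij := symmL_bijective (F := F) (𝓔 := 𝓔) z₀ h3
  have hbij₀ := symmL_bijective (F := F) (𝓔 := 𝓔) z₀ hz₀
  have i1 : IsInner (hatForm (F := F) b z₀ z) := (hbi z).comp hbij.1
  have i1' : IsInner (hatForm (F := F) b' z₀ z) := (hbi' z).comp hbij.1
  have i1h : IsInner (hatForm (F := F) h z₀ z) := (hi z).comp hbij.1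
  have i2 : IsInner (hatForm (F := F) b z₀ z₀) := (hbi z₀).comp hbij₀.1
  have i2' : IsInner (hatForm (F := F) b' z₀ z₀) := (hbi' z₀).comp hbij₀.1
  have i2h : IsInner (hatForm (F := F) h z₀ z₀) := (hi z₀).comp hbij₀.1
  have G1 : IsGM (hatForm (F := F) b z₀ z) (hatForm (F := F) b' z₀ z) (hatForm (F := F) h z₀ z) :=
    (hGM z).comp hbij
  have G2 : IsGM (hatForm (F := F) b z₀ z₀) (hatForm (F := F) b' z₀ z₀)
      (hatForm (F := F) h z₀ z₀) := (hGM z₀).comp hbij₀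
  have s1 : (Real.sqrt (1 + δ)) ^ 2 = 1 + δ := Real.sq_sqrt (by linarith)
  have s1' : Real.sqrt (1 + δ) * Real.sqrt (1 + δ) = 1 + δ := Real.mul_self_sqrt (by linarith)
  have hd : 0 < 1 - δ := by linarith
  have s2 : (Real.sqrt (1 - δ)⁻¹) ^ 2 = (1 - δ)⁻¹ := Real.sq_sqrt (by positivity)
  have s2' : Real.sqrt (1 - δ)⁻¹ * Real.sqrt (1 - δ)⁻¹ = (1 - δ)⁻¹ :=
    Real.mul_self_sqrt (by positivity)
  have up := IsGM.mono i2 i2' i2h G2 i1 i1h G1 (Real.sqrt_nonneg (1 + δ))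
    (Real.sqrt_nonneg (1 + δ)) (fun v => by
      rw [s1, hatForm_self, hatForm_self]
      have := (abs_le.mp (h1 v)).2
      linarith) (fun v => by
      rw [s1, hatForm_self, hatForm_self]
      have := (abs_le.mp (h2 v)).2
      linarith) u
  have lo := IsGM.mono i1 i1' i1h G1 i2 i2h G2 (Real.sqrt_nonneg (1 - δ)⁻¹)
    (Real.sqrt_nonneg (1 - δ)⁻¹) (fun v => by
      rw [s2, hatForm_self, hatForm_self]
      have := (abs_le.mp (h1 v)).1
      rw [inv_mul_eq_div, le_div_iff₀ hd]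
      linarith) (fun v => by
      rw [s2, hatForm_self, hatForm_self]
      have := (abs_le.mp (h2 v)).1
      rw [inv_mul_eq_div, le_div_iff₀ hd]
      linarith) u
  rw [s1', hatForm_self, hatForm_self] at up
  rw [s2', hatForm_self, hatForm_self, inv_mul_eq_div, le_div_iff₀ hd] at lo
  rw [abs_le]
  constructor <;> linarith

/-- Locally uniform limits. -/
lemma ContOn.of_limit {b : ℕ → FormField (fun x : Λ => 𝓔 x)}
    {b' b₀ : FormField (fun x : Λ => 𝓔 x)} {ε : ℕ → ℝ} (hε : Tendsto ε atTop (𝓝 0))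
    (h0 : ContOn F b₀) (hb : ∀ k, ContOn F (b k))
    (h : ∀ k x v, |b k x v v - b' x v v| ≤ ε k * b₀ x v v) : ContOn F b' := by
  unfold ContOn
  rw [continuous_iff_continuousAt]
  intro p₀
  rw [Metric.continuousAt_iff']
  intro η hη
  set q : {p : TotalSpace F 𝓔 // p.proj ∈ Λ} → ℝ :=
    fun p => b₀ ⟨p.1.proj, p.2⟩ p.1.snd p.1.snd with hq
  have hqc : Continuous q := h0
  have e1 : ∀ᶠ p in 𝓝 p₀, |q p| < |q p₀| + 1 :=
    (hqc.abs.tendsto p₀).eventually_lt_const (by linarith)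
  have hCpos : 0 < |q p₀| + 1 := by positivity
  obtain ⟨k, hk⟩ : ∃ k, |ε k| * (|q p₀| + 1) < η / 3 := by
    have h1 : Tendsto (fun k => |ε k| * (|q p₀| + 1)) atTop (𝓝 0) := by
      have := (hε.abs).mul_const (|q p₀| + 1)
      simpa using this
    exact (h1.eventually_lt_const (by linarith : (0 : ℝ) < η / 3)).exists
  have hkc : Continuous fun p : {p : TotalSpace F 𝓔 // p.proj ∈ Λ} =>
    b k ⟨p.1.proj, p.2⟩ p.1.snd p.1.snd := hb k
  have e2 : ∀ᶠ p : {p : TotalSpace F 𝓔 // p.proj ∈ Λ} in 𝓝 p₀,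
      |b k ⟨p.1.proj, p.2⟩ p.1.snd p.1.snd - b k ⟨p₀.1.proj, p₀.2⟩ p₀.1.snd p₀.1.snd| < η / 3 := by
    have := (Metric.tendsto_nhds.mp (hkc.tendsto p₀)) (η / 3) (by linarith)
    simpa [Real.dist_eq] using this
  filter_upwards [e1, e2] with p h1 h2
  rw [Real.dist_eq]
  have h3 := h k ⟨p.1.proj, p.2⟩ p.1.snd
  have h4 := h k ⟨p₀.1.proj, p₀.2⟩ p₀.1.snd
  have h5 : ε k * b₀ ⟨p.1.proj, p.2⟩ p.1.snd p.1.snd < η / 3 := by
    calc ε k * q p ≤ |ε k * q p| := le_abs_self _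
      _ = |ε k| * |q p| := abs_mul _ _
      _ ≤ |ε k| * (|q p₀| + 1) := mul_le_mul_of_nonneg_left h1.le (abs_nonneg _)
      _ < η / 3 := hk
  have h6 : ε k * b₀ ⟨p₀.1.proj, p₀.2⟩ p₀.1.snd p₀.1.snd < η / 3 := by
    calc ε k * q p₀ ≤ |ε k * q p₀| := le_abs_self _
      _ = |ε k| * |q p₀| := abs_mul _ _
      _ ≤ |ε k| * (|q p₀| + 1) := mul_le_mul_of_nonneg_left (by linarith) (abs_nonneg _)
      _ < η / 3 := hk
  have h7 := abs_le.mp (h3.trans h5.le)
  have h8 := abs_le.mp (h4.trans h6.le)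
  have h9 := abs_lt.mp h2
  have h10 := lt_of_le_of_lt h3 h5
  have h11 := abs_lt.mp h10
  rw [abs_lt]
  constructor <;> linarith [h11.1, h11.2, h8.1, h8.2, h9.1, h9.2]

end Bundle

end Pool.Agent.H82.Adapted
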