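import Mathlib
import Pool.Agent.H82.Adapted.Init
import Pool.Agent.H82.Adapted.Topo

/-!
# Adapted metrics on a vector bundle over a compact invariant set
-/

set_option linter.unusedSectionVars false

namespace Pool.Agent.H82.Adapted

open Module Filter Topology Bundle Set

variable {M : Type*} [TopologicalSpace M] {F : Type*} [NormedAddCommGroup F] [NormedSpace ℝ F]
  [FiniteDimensional ℝ F] {𝓔 : M → Type*} [∀ x, AddCommGroup (𝓔 x)] [∀ x, Module ℝ (𝓔 x)]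
  [∀ x, TopologicalSpace (𝓔 x)] [TopologicalSpace (TotalSpace F 𝓔)] [FiberBundle F 𝓔]
  [VectorBundle ℝ F 𝓔] {Λ : Set M}

variable (F) in
/-- The map induced by the cocycle on the part of the total space over `Λ`. -/
def tot (φ : ℝ → Λ → Λ) (A : ∀ t (x : Λ), 𝓔 x →ₗ[ℝ] 𝓔 (φ t x)) (t : ℝ)
    (p : {p : TotalSpace F 𝓔 // p.proj ∈ Λ}) : {p : TotalSpace F 𝓔 // p.proj ∈ Λ} :=
  ⟨⟨φ t ⟨p.1.proj, p.2⟩, A t ⟨p.1.proj, p.2⟩ p.1.snd⟩, (φ t ⟨p.1.proj, p.2⟩).2⟩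

variable {φ : ℝ → Λ → Λ} {A : ∀ t (x : Λ), 𝓔 x →ₗ[ℝ] 𝓔 (φ t x)}
  {P : ∀ x : Λ, 𝓔 x →ₗ[ℝ] 𝓔 x}
  (hΦ : Continuous fun r : ℝ × {p : TotalSpace F 𝓔 // p.proj ∈ Λ} => tot F φ A r.1 r.2)

include hΦ

lemma ContOn.joint {b : FormField (fun x : Λ => 𝓔 x)} (hb : ContOn F b) :
    Continuous fun r : ℝ × {p : TotalSpace F 𝓔 // p.proj ∈ Λ} =>
      pull φ A r.1 b ⟨r.2.1.proj, r.2.2⟩ r.2.1.snd r.2.1.snd :=
  Continuous.comp (g := fun p : {p : TotalSpace F 𝓔 // p.proj ∈ Λ} =>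
    b ⟨p.1.proj, p.2⟩ p.1.snd p.1.snd) hb hΦ

lemma ContOn.pull {b : FormField (fun x : Λ => 𝓔 x)} (hb : ContOn F b) (t : ℝ) :
    ContOn F (pull φ A t b) :=
  (hb.joint hΦ).comp (continuous_const.prodMk continuous_id)

lemma ContOn.time {b : FormField (fun x : Λ => 𝓔 x)} (hb : ContOn F b) (x : Λ) (v : 𝓔 x) :
    Continuous fun t => Adapted.pull φ A t b x v v :=
  (hb.joint hΦ).comp (continuous_id.prodMk
    (continuous_const (y := (⟨⟨(x : M), v⟩, x.2⟩ : {p : TotalSpace F 𝓔 // p.proj ∈ Λ}))))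

lemma ContOn.time' (hS : Setting φ A P) {b : FormField (fun x : Λ => 𝓔 x)} (hb : ContOn F b)
    (hI : Inn P b) (x : Λ) (v w : 𝓔 x) :
    Continuous fun t => Adapted.pull φ A t b x v w := by
  have h1 := hb.time hΦ x (v + w)
  have h2 := hb.time hΦ x v
  have h3 := hb.time hΦ x w
  have h4 := ((h1.sub h2).sub h3).div_const 2
  refine h4.congr fun t => ?_
  simp only [map_add, LinearMap.add_apply, Pi.sub_apply]
  rw [((hI.pull' hS t).inner x).symm w v]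
  ring

/-- The local bound. -/
lemma local_bound {b : FormField (fun x : Λ => 𝓔 x)} (hb : ContOn F b)
    (hbi : ∀ x, IsInner (b x)) (z₀ : Λ) :
    ∃ K : ℝ, ∀ᶠ z : Λ in 𝓝 z₀, ∀ t ∈ Icc (-2 : ℝ) 2, ∀ v : 𝓔 (z : M),
      Adapted.pull φ A t b z v v ≤ K * b z v v := by
  set e := trivializationAt F 𝓔 (z₀ : M) with he
  have hz₀ : (z₀ : M) ∈ e.baseSet := FiberBundle.mem_baseSet_trivializationAt' _
  -- the function to be bounded from above
  set f : ℝ → Λ → F → ℝ := fun t z u =>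
    Adapted.pull φ A t b z (e.symmL ℝ (z : M) u) (e.symmL ℝ (z : M) u) with hf
  have hfs : ∀ t z (c : ℝ) u, f t z (c • u) = c ^ 2 * f t z u := by
    intro t z c u
    simp only [hf, map_smul, LinearMap.smul_apply, smul_eq_mul]
    ring
  have hfc : ∀ t u, ContinuousAt (fun p : Λ × ℝ × F => f p.2.1 p.1 p.2.2) (z₀, t, u) := by
    intro t u
    have h1 : ContinuousAt (fun p : Λ × ℝ × F =>
        (p.2.1, (⟨⟨(p.1 : M), e.symmL ℝ (p.1 : M) p.2.2⟩, p.1.2⟩ :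
          {p : TotalSpace F 𝓔 // p.proj ∈ Λ}))) (z₀, t, u) := by
      refine ContinuousAt.prodMk (by fun_prop) ?_
      unfold ContinuousAt
      rw [tendsto_subtype_rng]
      have h2 := continuousAt_symm (F := F) (𝓔 := 𝓔) (z₀ : M) hz₀ u
      have h3 : ContinuousAt (fun p : Λ × ℝ × F => ((p.1 : M), p.2.2)) (z₀, t, u) := by fun_prop
      exact ContinuousAt.comp (f := fun p : Λ × ℝ × F => ((p.1 : M), p.2.2)) (x := (z₀, t, u)) h2 h3
    exact ContinuousAt.comp (f := fun p : Λ × ℝ × F =>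
        (p.2.1, (⟨⟨(p.1 : M), e.symmL ℝ (p.1 : M) p.2.2⟩, p.1.2⟩ :
          {p : TotalSpace F 𝓔 // p.proj ∈ Λ}))) (x := (z₀, t, u)) (hb.joint hΦ).continuousAt h1
  have hK : IsCompact (Icc (-2 : ℝ) 2 ×ˢ Metric.sphere (0 : F) 1) :=
    isCompact_Icc.prod (isCompact_sphere 0 1)
  obtain ⟨C, hC⟩ : ∃ C : ℝ, ∀ p ∈ Icc (-2 : ℝ) 2 ×ˢ Metric.sphere (0 : F) 1,
      f p.1 z₀ p.2 ≤ C := by
    have hc : ContinuousOn (fun p : ℝ × F => f p.1 z₀ p.2)
        (Icc (-2 : ℝ) 2 ×ˢ Metric.sphere (0 : F) 1) := by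
      intro p _
      have h1 : ContinuousAt (fun p : ℝ × F => (z₀, p.1, p.2)) p := by fun_prop
      exact (ContinuousAt.comp (f := fun p : ℝ × F => (z₀, p.1, p.2)) (x := p)
        (hfc p.1 p.2) h1).continuousWithinAt
    obtain ⟨C, hC⟩ := hK.bddAbove_image hc
    exact ⟨C, fun p hp => hC ⟨p, hp, rfl⟩⟩
  have h1 : ∀ᶠ z in 𝓝 z₀, ∀ p ∈ Icc (-2 : ℝ) 2 ×ˢ Metric.sphere (0 : F) 1,
      f p.1 z p.2 < C + 1 := by
    refine hK.eventually_forall_of_forall_eventually fun p hp => ?_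
    have := hfc p.1 p.2
    exact this.tendsto.eventually_lt_const (by have := hC p hp; linarith)
  -- lower bound
  have hin : IsInner (hatForm (F := F) b z₀ z₀) := (hbi z₀).comp (symmL_bijective _ hz₀).1
  obtain ⟨m, hm, hmu⟩ := homog_lower (loc F b z₀ z₀) (loc_smul b z₀ z₀)
    (continuous_form_self (hatForm b z₀ z₀)) (fun u hu => hin.pos u hu)
  have hbase : ∀ᶠ z : Λ in 𝓝 z₀, (z : M) ∈ e.baseSet :=
    continuous_subtype_val.continuousAt.eventually (e.open_baseSet.mem_nhds hz₀)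
  refine ⟨(|C| + 1) * (2 / m), ?_⟩
  filter_upwards [h1, hb.rel_close hbi z₀ (by norm_num : (0 : ℝ) < 1 / 2), hbase] with z k1 k2 k3
  intro t ht v
  obtain ⟨u, rfl⟩ := (symmL_bijective (F := F) (𝓔 := 𝓔) (z₀ : M) k3).2 v
  have e1 : Adapted.pull φ A t b z ((e.symmL ℝ (z : M)).toLinearMap u)
    ((e.symmL ℝ (z : M)).toLinearMap u) = f t z u := rfl
  have e2 : b z ((e.symmL ℝ (z : M)).toLinearMap u)
    ((e.symmL ℝ (z : M)).toLinearMap u) = loc F b z₀ z u := rfl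
  rw [e1, e2]
  have k4 : (m / 2) * ‖u‖ ^ 2 ≤ loc F b z₀ z u := by
    have h3 := (abs_le.mp (k2 u)).1
    have h4 := hmu u
    linarith
  have k5 : f t z u ≤ (|C| + 1) * ‖u‖ ^ 2 := by
    by_cases hu : u = 0
    · have := hfs t z 0 0
      simp only [smul_zero] at this
      rw [hu, this]
      simp
    · have hn : 0 < ‖u‖ := norm_pos_iff.mpr hu
      have h3 := k1 (t, ‖u‖⁻¹ • u) ⟨ht, by simp [norm_smul, hn.ne']⟩
      simp only at h3
      rw [hfs] at h3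
      have h4 : ‖u‖⁻¹ ^ 2 * f t z u ≤ |C| + 1 := by
        have := le_abs_self C
        linarith
      calc f t z u = (‖u‖⁻¹ ^ 2 * f t z u) * ‖u‖ ^ 2 := by field_simp
        _ ≤ _ := mul_le_mul_of_nonneg_right h4 (by positivity)
  calc f t z u ≤ (|C| + 1) * ‖u‖ ^ 2 := k5
    _ = (|C| + 1) * (2 / m) * ((m / 2) * ‖u‖ ^ 2) := by field_simp
    _ ≤ _ := mul_le_mul_of_nonneg_left k4 (by positivity)

/-- The global bound. -/
lemma global_bound [CompactSpace Λ] {b : FormField (fun x : Λ => 𝓔 x)} (hb : ContOn F b)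
    (hbi : ∀ x, IsInner (b x)) :
    ∃ K : ℝ, 1 ≤ K ∧ ∀ t ∈ Icc (-2 : ℝ) 2, ∀ (z : Λ) (v : 𝓔 z),
      Adapted.pull φ A t b z v v ≤ K * b z v v := by
  have h : ∃ K : ℝ, ∀ z : Λ, z ∈ (univ : Set Λ) → ∀ t ∈ Icc (-2 : ℝ) 2, ∀ v : 𝓔 (z : M),
      Adapted.pull φ A t b z v v ≤ K * b z v v := by
    refine isCompact_univ.induction_on (p := fun s : Set Λ => ∃ K : ℝ, ∀ z : Λ, z ∈ s →
      ∀ t ∈ Icc (-2 : ℝ) 2, ∀ v : 𝓔 (z : M), Adapted.pull φ A t b z v v ≤ K * b z v v)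
      ⟨0, by simp⟩ ?_ ?_ ?_
    · rintro s t hst ⟨K, hK⟩
      exact ⟨K, fun z hz => hK z (hst hz)⟩
    · rintro s t ⟨K, hK⟩ ⟨K', hK'⟩
      refine ⟨max K K', fun z hz τ hτ v => ?_⟩
      have h0 := (hbi z).nonneg v
      rcases hz with hz | hz
      · exact (hK z hz τ hτ v).trans (mul_le_mul_of_nonneg_right (le_max_left _ _) h0)
      · exact (hK' z hz τ hτ v).trans (mul_le_mul_of_nonneg_right (le_max_right _ _) h0)
    · intro z _
      obtain ⟨K, hK⟩ := local_bound hΦ hb hbi z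
      exact ⟨_, mem_nhdsWithin_of_mem_nhds hK, K, fun z hz => hz⟩
  obtain ⟨K, hK⟩ := h
  refine ⟨max 1 K, le_max_left _ _, fun t ht z v => (hK z (mem_univ z) t ht v).trans ?_⟩
  exact mul_le_mul_of_nonneg_right (le_max_right _ _) ((hbi z).nonneg v)

/-- Continuity of the averaged field. -/
lemma ContOn.avg {b : FormField (fun x : Λ => 𝓔 x)} (hb : ContOn F b)
    (hc : ∀ x v w, Continuous fun t => Adapted.pull φ A t b x v w) :
    ContOn F (Adapted.avg b hc) := by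
  unfold ContOn
  simp only [avg_apply]
  refine intervalIntegral.continuous_parametric_intervalIntegral_of_continuous' ?_ _ _
  exact (hb.joint hΦ).comp continuous_swap

/-- **Adapted metrics on vector bundles.** -/
theorem bundle_adapted [∀ x, FiniteDimensional ℝ (𝓔 x)] [CompactSpace Λ] (hS : Setting φ A P)
    {b : FormField (fun x : Λ => 𝓔 x)} (hI : Inn P b) (hb : ContOn F b)
    {C lam : ℝ} (hC : 1 ≤ C) (hlam : 0 < lam)
    (hdom : ∀ t > 0, ∀ x v w, P x v = v → P x w = 0 →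
      Adapted.pull φ A t b x v v * b x w w ≤
      C ^ 2 * Real.exp (-2 * lam * t) * (b x v v * Adapted.pull φ A t b x w w))
    (hcontr : ∀ t > 0, ∀ x v, P x v = v → Adapted.pull φ A t b x v v ≤
      C ^ 2 * Real.exp (-2 * lam * t) * b x v v)
    (harea : ∀ t > 0, ∀ x v w, P x v = 0 → P x w = 0 →
      (C ^ 2)⁻¹ * Real.exp (2 * lam * t) * areaSq (b x) v w ≤
        areaSq (Adapted.pull φ A t b x) v w) :
    ∃ G : FormField (fun x : Λ => 𝓔 x), Inn P G ∧ ContOn F G ∧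
      ∃ lam' > 0, ∀ t > 0, AdaptedAt φ A P G lam' t := by
  have hc := hb.time' hΦ hS hI
  obtain ⟨K, hK, hKb⟩ := global_bound hΦ hb hI.inner
  obtain ⟨T₀, hT₀, hT⟩ := avg_adapted hc hS hI hK hKb hC hlam hdom hcontr harea
  obtain ⟨G, h1, h2, h3⟩ := core hS (ContOn F) (fun t b hb => hb.pull hΦ t)
    (fun b b' hbi hbi' hb hb' => hb.gm hb' hbi hbi')
    (fun b b' b₀ ε hε h0 hb h => ContOn.of_limit hε h0 hb h)
    (fun b _ hb x v => hb.time hΦ x v) (avg_inn hc hS hI hK hKb) (hb.avg hΦ hc)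
    (by positivity : (0 : ℝ) ≤ K ^ 2) (avg_lip hc hS hI hK hKb) hT₀ hT
  exact ⟨G, h1, h2, lam / 2, by linarith, h3⟩

end Pool.Agent.H82.Adapted
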