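import Mathlib

/-!
# Sectional-hyperbolic sets and adapted metrics: the definitions
-/

namespace Pool.Agent.H82.Adapted

open Set Bundle
open scoped Manifold ContDiff

/-- A continuous Riemannian metric on the manifold `M`, modelled on the finite-dimensional
space `V`. -/
abbrev RMetric (V M : Type*) [NormedAddCommGroup V] [NormedSpace ℝ V] [TopologicalSpace M]
    [ChartedSpace V M] [IsManifold 𝓘(ℝ, V) ∞ M] : Type _ :=
  ContinuousRiemannianMetric V (fun x : M => TangentSpace 𝓘(ℝ, V) x)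

variable {V M : Type*} [NormedAddCommGroup V] [NormedSpace ℝ V] [TopologicalSpace M]
  [ChartedSpace V M] [IsManifold 𝓘(ℝ, V) ∞ M]

/-- `φ` is the flow of the vector field `X`: `φ t x` is the integral curve of `X` through `x`. -/
structure IsFlow (X : ∀ x : M, TangentSpace 𝓘(ℝ, V) x) (φ : ℝ → M → M) : Prop where
  zero : ∀ x, φ 0 x = x
  curve : ∀ x, IsMIntegralCurve (fun t => φ t x) X

/-- The derivative of the time `t` map of the flow. -/
noncomputable def D (φ : ℝ → M → M) (t : ℝ) (x : M) :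
    TangentSpace 𝓘(ℝ, V) x →L[ℝ] TangentSpace 𝓘(ℝ, V) (φ t x) :=
  mfderiv 𝓘(ℝ, V) 𝓘(ℝ, V) (φ t) x

/-- A continuous splitting `T_Λ M = E ⊕ F`, invariant under the derivative of the flow, with
`dim F ≥ 2`. Continuity: the projection `v + w ↦ v` (`v ∈ E x`, `w ∈ F x`) is a continuous map of
the part of the tangent bundle over `Λ`. -/
structure IsSplitting (φ : ℝ → M → M) (Λ : Set M)
    (E F : ∀ x : M, Submodule ℝ (TangentSpace 𝓘(ℝ, V) x)) : Prop where
  isCompl : ∀ x ∈ Λ, IsCompl (E x) (F x)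
  two_le : ∀ x ∈ Λ, 2 ≤ Module.finrank ℝ (F x)
  continuous : ∃ P : TangentBundle 𝓘(ℝ, V) M → TangentBundle 𝓘(ℝ, V) M,
    ContinuousOn P (TotalSpace.proj ⁻¹' Λ) ∧
      ∀ x ∈ Λ, ∀ v ∈ E x, ∀ w ∈ F x, P ⟨x, v + w⟩ = ⟨x, v⟩
  invariant_E : ∀ x ∈ Λ, ∀ t : ℝ, (E x).map (D φ t x).toLinearMap = E (φ t x)
  invariant_F : ∀ x ∈ Λ, ∀ t : ℝ, (F x).map (D φ t x).toLinearMap = F (φ t x)

/-- The norm of a tangent vector. -/
noncomputable def nrm (g : RMetric V M) {x : M} (v : TangentSpace 𝓘(ℝ, V) x) : ℝ :=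
  Real.sqrt (g.inner x v v)

/-- The norm of `v ∧ w`, the area of the parallelogram spanned by `v` and `w`. -/
noncomputable def area (g : RMetric V M) {x : M} (v w : TangentSpace 𝓘(ℝ, V) x) : ℝ :=
  Real.sqrt (g.inner x v v * g.inner x w w - g.inner x v w ^ 2)

/-- The conditions 1-3 (domination, contraction, sectional expansion) with constants `C`, `lam`. -/
structure Conditions (g : RMetric V M) (φ : ℝ → M → M) (Λ : Set M)
    (E F : ∀ x : M, Submodule ℝ (TangentSpace 𝓘(ℝ, V) x)) (C lam : ℝ) : Prop where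
  domination : ∀ x ∈ Λ, ∀ t > 0, ∀ v ∈ E x, ∀ w ∈ F (φ t x),
    nrm g (D φ t x v) * nrm g (D φ (-t) (φ t x) w) ≤
      C * Real.exp (-(lam * t)) * (nrm g v * nrm g w)
  contraction : ∀ x ∈ Λ, ∀ t > 0, ∀ v ∈ E x,
    nrm g (D φ t x v) ≤ C * Real.exp (-(lam * t)) * nrm g v
  expansion : ∀ x ∈ Λ, ∀ t > 0, ∀ v ∈ F x, ∀ w ∈ F x,
    nrm g v = 1 → nrm g w = 1 → g.inner x v w = 0 →
      C⁻¹ * Real.exp (lam * t) ≤ area g (D φ t x v) (D φ t x w)

/-- `Λ` is sectional-hyperbolic with splitting `E ⊕ F`. -/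
def SectionalHyperbolic (φ : ℝ → M → M) (Λ : Set M)
    (E F : ∀ x : M, Submodule ℝ (TangentSpace 𝓘(ℝ, V) x)) : Prop :=
  IsSplitting φ Λ E F ∧
    ∃ (g : RMetric V M) (C lam : ℝ), 1 ≤ C ∧ 0 < lam ∧ Conditions g φ Λ E F C lam

/-- `g` is an adapted metric: the conditions 1-3 hold with `C = 1` and some `lam > 0`. -/
def IsAdapted (g : RMetric V M) (φ : ℝ → M → M) (Λ : Set M)
    (E F : ∀ x : M, Submodule ℝ (TangentSpace 𝓘(ℝ, V) x)) : Prop :=
  ∃ lam > 0, Conditions g φ Λ E F 1 lam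

end Pool.Agent.H82.Adapted
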