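import Mathlib

/-!
# `C¹` dependence on the initial condition, for compactly supported `C¹` vector fields on `E`
-/

set_option linter.unusedSectionVars false

namespace Pool.Agent.H82.Adapted

open Filter Topology Set
open scoped NNReal

variable {E : Type*} [NormedAddCommGroup E] [NormedSpace ℝ E] [FiniteDimensional ℝ E]

/-- Global solutions on `(-1, 1)` of a bounded Lipschitz vector field. -/
lemma exists_sol {g : E → E} {K : ℝ≥0} (hK : LipschitzWith K g) {C : ℝ} (hC : ∀ x, ‖g x‖ ≤ C)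
    (x : E) : ∃ α : ℝ → E, α 0 = x ∧ ∀ t ∈ Ioo (-1 : ℝ) 1, HasDerivAt α (g (α t)) t := by
  have hC0 : 0 ≤ C := (norm_nonneg _).trans (hC 0)
  have hpl : IsPicardLindelof (fun _ => g) (tmin := -1) (tmax := 1)
      ⟨0, by norm_num, by norm_num⟩ x ⟨C, hC0⟩ 0 ⟨C, hC0⟩ K := by
    refine ⟨fun t _ => hK.lipschitzOnWith, fun x _ => continuousOn_const, fun t _ x _ => hC x, ?_⟩
    simp
  obtain ⟨α, h0, h1⟩ := hpl.exists_eq_forall_mem_Icc_hasDerivWithinAt₀
  exact ⟨α, h0, fun t ht => (h1 t (Ioo_subset_Icc_self ht)).hasDerivAt (Icc_mem_nhds ht.1 ht.2)⟩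

/-- Clamping of the time to `[0, T]`. -/
noncomputable def clamp (T t : ℝ) : ℝ := max 0 (min t T)

lemma clamp_mem {T : ℝ} (hT : 0 ≤ T) (t : ℝ) : clamp T t ∈ Icc 0 T :=
  ⟨le_max_left _ _, max_le hT (min_le_right _ _)⟩

lemma clamp_of_mem {T t : ℝ} (ht : t ∈ Icc 0 T) : clamp T t = t := by
  unfold clamp
  rw [min_eq_left ht.2, max_eq_right ht.1]

lemma continuous_clamp (T : ℝ) : Continuous (clamp T) := by
  unfold clamp
  fun_prop

section Flow

variable {g : E → E} {K : ℝ≥0} (hK : LipschitzWith K g) {α : E → ℝ → E}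
  (hα0 : ∀ x, α x 0 = x) (hα : ∀ x, ∀ t ∈ Ioo (-1 : ℝ) 1, HasDerivAt (α x) (g (α x t)) t)
  {T : ℝ} (hT0 : 0 < T) (hT1 : T < 1)

include hα in
lemma sol_continuousOn (hT1 : T < 1) (x : E) : ContinuousOn (α x) (Icc 0 T) := fun t ht =>
  (hα x t ⟨by linarith [ht.1], by linarith [ht.2]⟩).continuousAt.continuousWithinAt

include hK hα0 hα in
lemma sol_dist_le (hT1 : T < 1) (x y : E) {t : ℝ} (ht : t ∈ Icc 0 T) :
    dist (α x t) (α y t) ≤ dist x y * Real.exp (K * t) := by
  have h := dist_le_of_trajectories_ODE (v := fun _ => g) (K := K) (a := 0) (b := T)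
    (f := α x) (g := α y) (δ := dist x y) (fun _ => hK) (sol_continuousOn hα hT1 x)
    (fun t ht => (hα x t ⟨by linarith [ht.1], by linarith [ht.2]⟩).hasDerivWithinAt)
    (sol_continuousOn hα hT1 y)
    (fun t ht => (hα y t ⟨by linarith [ht.1], by linarith [ht.2]⟩).hasDerivWithinAt)
    (by rw [hα0, hα0]) t ht
  simpa using h

include hK hα0 hα in
lemma continuous_clamped (hT0 : 0 < T) (hT1 : T < 1) :
    Continuous fun p : E × ℝ => α p.1 (clamp T p.2) := by
  refine continuous_prod_of_continuous_lipschitzWith _ (⟨Real.exp (K * T), (Real.exp_pos _).le⟩)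
    (fun x => ?_) (fun t => ?_)
  · refine (sol_continuousOn hα hT1 x).comp_continuous (continuous_clamp T) fun t => ?_
    exact clamp_mem hT0.le t
  · refine LipschitzWith.of_dist_le_mul fun x y => ?_
    have h := sol_dist_le hK hα0 hα hT1 x y (clamp_mem hT0.le t)
    refine h.trans ?_
    rw [mul_comm]
    refine mul_le_mul_of_nonneg_right ?_ dist_nonneg
    exact Real.exp_le_exp.mpr (mul_le_mul_of_nonneg_left (clamp_mem hT0.le t).2 K.2)

/-- The averaged Jacobian. -/
noncomputable def jac (g : E → E) (α : E → ℝ → E) (T : ℝ) (p : E × E) (t : ℝ) : E →L[ℝ] E :=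
  ∫ s in (0 : ℝ)..1, fderiv ℝ g (α p.1 (clamp T t) + s • (α p.2 (clamp T t) - α p.1 (clamp T t)))

include hK hα0 hα in
lemma continuous_jac (hg : ContDiff ℝ 1 g) (hT0 : 0 < T) (hT1 : T < 1) :
    Continuous fun q : (E × E) × ℝ => jac g α T q.1 q.2 := by
  unfold jac
  have h1 := continuous_clamped hK hα0 hα hT0 hT1
  have h2 : Continuous (fderiv ℝ g) := hg.continuous_fderiv (by norm_num)
  refine intervalIntegral.continuous_parametric_intervalIntegral_of_continuous' ?_ _ _
  have ha : Continuous fun x : ((E × E) × ℝ) × ℝ => α x.1.1.1 (clamp T x.1.2) :=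
    h1.comp (f := fun x : ((E × E) × ℝ) × ℝ => (x.1.1.1, x.1.2)) (by fun_prop)
  have hb : Continuous fun x : ((E × E) × ℝ) × ℝ => α x.1.1.2 (clamp T x.1.2) :=
    h1.comp (f := fun x : ((E × E) × ℝ) × ℝ => (x.1.1.2, x.1.2)) (by fun_prop)
  exact h2.comp (ha.add (continuous_snd.smul (hb.sub ha)))

include hK in
lemma norm_jac_le (p : E × E) (t : ℝ) : ‖jac g α T p t‖ ≤ K := by
  unfold jac
  have := intervalIntegral.norm_integral_le_of_norm_le_const (a := (0 : ℝ)) (b := 1) (C := (K : ℝ))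
    (f := fun s : ℝ => fderiv ℝ g (α p.1 (clamp T t) +
      s • (α p.2 (clamp T t) - α p.1 (clamp T t))))
    (fun s _ => norm_fderiv_le_of_lipschitz ℝ hK)
  simpa using this

lemma jac_apply (hg : ContDiff ℝ 1 g) (p : E × E) {t : ℝ} (ht : t ∈ Icc 0 T) :
    jac g α T p t (α p.2 t - α p.1 t) = g (α p.2 t) - g (α p.1 t) := by
  unfold jac
  rw [clamp_of_mem ht]
  have h2 : Continuous (fderiv ℝ g) := hg.continuous_fderiv (by norm_num)
  have h3 : Continuous fun s : ℝ => fderiv ℝ g (α p.1 t + s • (α p.2 t - α p.1 t)) :=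
    h2.comp (by fun_prop)
  rw [ContinuousLinearMap.intervalIntegral_apply (h3.intervalIntegrable _ _)]
  have h4 : ∀ s ∈ uIcc (0 : ℝ) 1, HasDerivAt (fun s : ℝ => g (α p.1 t + s • (α p.2 t - α p.1 t)))
      (fderiv ℝ g (α p.1 t + s • (α p.2 t - α p.1 t)) (α p.2 t - α p.1 t)) s := by
    intro s _
    have h5 : HasDerivAt (fun s : ℝ => α p.1 t + s • (α p.2 t - α p.1 t))
        (α p.2 t - α p.1 t) s := by
      simpa using ((hasDerivAt_id s).smul_const (α p.2 t - α p.1 t)).const_add (α p.1 t)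
    exact ((hg.differentiable (by norm_num) _).hasFDerivAt).comp_hasDerivAt s h5
  rw [intervalIntegral.integral_eq_sub_of_hasDerivAt h4
    ((h3.clm_apply continuous_const).intervalIntegrable _ _)]
  simp

/-- Solutions of the linearised equation. -/
lemma exists_lin {B : ℝ → E →L[ℝ] E} (hB : Continuous B) (hBK : ∀ t, ‖B t‖ ≤ K)
    (hTK : 2 * (K : ℝ) * T ≤ 1) (hT0 : 0 < T) :
    ∃ Z : ℝ → E →L[ℝ] E, Z 0 = ContinuousLinearMap.id ℝ E ∧
      ContinuousOn Z (Icc 0 T) ∧ ∀ t ∈ Ico 0 T, HasDerivWithinAt Z ((B t).comp (Z t)) (Ici t) t := by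
  have hpl : IsPicardLindelof (fun t (Z : E →L[ℝ] E) => (B t).comp Z) (tmin := -T) (tmax := T)
      ⟨0, by linarith, hT0.le⟩ (ContinuousLinearMap.id ℝ E) 1 0 (2 * K) K := by
    refine ⟨fun t _ => ?_, fun Z _ => ?_, fun t _ Z hZ => ?_, ?_⟩
    · refine (LipschitzWith.of_dist_le_mul fun Z Z' => ?_).lipschitzOnWith
      rw [dist_eq_norm, dist_eq_norm, ← ContinuousLinearMap.comp_sub]
      refine (ContinuousLinearMap.opNorm_comp_le _ _).trans ?_
      exact mul_le_mul_of_nonneg_right (hBK t) (norm_nonneg _)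
    · exact (hB.clm_comp continuous_const).continuousOn
    · refine (ContinuousLinearMap.opNorm_comp_le _ _).trans ?_
      rw [Metric.mem_closedBall, dist_eq_norm] at hZ
      have h1 : ‖Z‖ ≤ 2 := by
        calc ‖Z‖ = ‖(Z - ContinuousLinearMap.id ℝ E) + ContinuousLinearMap.id ℝ E‖ := by
              rw [sub_add_cancel]
          _ ≤ ‖Z - ContinuousLinearMap.id ℝ E‖ + ‖ContinuousLinearMap.id ℝ E‖ := norm_add_le _ _
          _ ≤ 1 + 1 := add_le_add (by simpa using hZ) ContinuousLinearMap.norm_id_le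
          _ = 2 := by norm_num
      calc ‖B t‖ * ‖Z‖ ≤ K * 2 := mul_le_mul (hBK t) h1 (norm_nonneg _) K.2
        _ = ((2 * K : ℝ≥0) : ℝ) := by push_cast; ring
    · simp only [sub_zero, zero_sub, neg_neg, max_self, NNReal.coe_one, NNReal.coe_zero]
      push_cast
      linarith
  obtain ⟨Z, h0, h1⟩ := hpl.exists_eq_forall_mem_Icc_hasDerivWithinAt₀
  refine ⟨Z, h0, fun t ht => ?_, fun t ht => ?_⟩
  · exact ((h1 t ⟨by linarith [ht.1], ht.2⟩).continuousWithinAt).mono
      (Icc_subset_Icc (by linarith) le_rfl)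
  · have h2 := h1 t ⟨by linarith [ht.1], ht.2.le⟩
    refine h2.mono_of_mem_nhdsWithin ?_
    exact mem_nhdsWithin_of_mem_nhds (Icc_mem_nhds (by linarith [ht.1]) ht.2)

end Flow

/-- **`C¹` dependence on initial conditions** for compactly supported `C¹` vector fields. -/
theorem exists_local_flow {g : E → E} (hg : ContDiff ℝ 1 g) (hgs : HasCompactSupport g) :
    ∃ (T : ℝ) (α : E → ℝ → E) (D : E → ℝ → E →L[ℝ] E), 0 < T ∧ T < 1 ∧ (∀ x, α x 0 = x) ∧
      (∀ x, ∀ t ∈ Ioo (-1 : ℝ) 1, HasDerivAt (α x) (g (α x t)) t) ∧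
      (∀ x, ∀ t ∈ Icc 0 T, HasFDerivAt (fun y => α y t) (D x t) x) ∧
      ContinuousOn (fun p : E × ℝ => α p.1 p.2) (univ ×ˢ Icc 0 T) ∧
      ContinuousOn (fun p : E × ℝ => D p.1 p.2) (univ ×ˢ Icc 0 T) := by
  obtain ⟨K, hK⟩ := hg.lipschitzWith_of_hasCompactSupport hgs (by norm_num)
  obtain ⟨C, hC⟩ := hg.continuous.bounded_above_of_compact_support hgs
  choose α hα0 hα using exists_sol hK hC
  set T : ℝ := 1 / (2 * (K + 1)) with hT
  have hK0 : (0 : ℝ) ≤ K := K.2
  have hT0 : 0 < T := by positivity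
  have hT1 : T < 1 := by
    rw [hT, div_lt_one (by positivity)]; linarith
  have hTK : 2 * (K : ℝ) * T ≤ 1 := by
    rw [hT, mul_one_div, div_le_one (by positivity)]; linarith
  have hBc := continuous_jac hK hα0 hα hg hT0 hT1
  choose Z hZ0 hZc hZ using fun p : E × E => exists_lin (K := K) (T := T)
    (B := jac g α T p) (hBc.comp (Continuous.prodMk_right p)) (norm_jac_le hK p) hTK hT0
  -- Lipschitz property of the linear equation
  have hlin : ∀ (p : E × E) (t : ℝ), LipschitzWith K fun Y : E →L[ℝ] E => (jac g α T p t).comp Y := by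
    intro p t
    refine LipschitzWith.of_dist_le_mul fun Y Y' => ?_
    rw [dist_eq_norm, dist_eq_norm, ← ContinuousLinearMap.comp_sub]
    refine (ContinuousLinearMap.opNorm_comp_le _ _).trans ?_
    exact mul_le_mul_of_nonneg_right (norm_jac_le hK p t) (norm_nonneg _)
  -- bound on `Z`
  have hZb : ∀ p, ∀ t ∈ Icc 0 T, ‖Z p t‖ ≤ Real.exp (K * T) := by
    intro p t ht
    have h := dist_le_of_trajectories_ODE (v := fun t Y => (jac g α T p t).comp Y) (K := K)
      (a := 0) (b := T) (f := Z p) (g := fun _ => 0) (δ := 1) (hlin p) (hZc p) (hZ p)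
      continuousOn_const (fun t _ => by simpa using hasDerivWithinAt_const t (Ici t) (0 : E →L[ℝ] E))
      (by rw [hZ0, dist_zero_right]; exact ContinuousLinearMap.norm_id_le) t ht
    rw [dist_zero_right] at h
    refine h.trans ?_
    rw [one_mul, sub_zero]
    exact Real.exp_le_exp.mpr (mul_le_mul_of_nonneg_left ht.2 hK0)
  -- the difference formula
  have hdiff : ∀ x y, ∀ t ∈ Icc 0 T, α y t - α x t = Z (x, y) t (y - x) := by
    intro x y
    have h := ODE_solution_unique_of_mem_Icc_right (v := fun t z => jac g α T (x, y) t z)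
      (s := fun _ => univ) (K := K) (a := 0) (b := T) (f := fun t => α y t - α x t)
      (g := fun t => Z (x, y) t (y - x)) (fun t _ => ?_) ?_ (fun t ht => ?_) (fun _ _ => trivial)
      ?_ (fun t ht => ?_) (fun _ _ => trivial) ?_
    · exact h
    · refine (LipschitzWith.of_dist_le_mul fun z z' => ?_).lipschitzOnWith
      rw [dist_eq_norm, dist_eq_norm, ← map_sub]
      refine (ContinuousLinearMap.le_opNorm _ _).trans ?_
      exact mul_le_mul_of_nonneg_right (norm_jac_le hK (x, y) t) (norm_nonneg _)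
    · exact (sol_continuousOn hα hT1 y).sub (sol_continuousOn hα hT1 x)
    · have h1 := (hα y t ⟨by linarith [ht.1], by linarith [ht.2]⟩).sub
        (hα x t ⟨by linarith [ht.1], by linarith [ht.2]⟩)
      have h2 := jac_apply (T := T) hg (α := α) (x, y) (t := t) ⟨ht.1, ht.2.le⟩
      simp only at h2
      rw [h2]
      exact h1.hasDerivWithinAt
    · exact (hZc (x, y)).clm_apply continuousOn_const
    · have h1 := (hZ (x, y) t ht).clm_apply (hasDerivWithinAt_const t (Ici t) (y - x))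
      simpa using h1
    · simp [hα0, hZ0]
  -- joint continuity of `Z`
  have hZjoint : Continuous fun q : (E × E) × ℝ => Z q.1 (clamp T q.2) := by
    rw [continuous_iff_continuousAt]
    rintro ⟨p₀, t₀⟩
    rw [Metric.continuousAt_iff']
    intro ε hε
    obtain ⟨η, hη0, hη⟩ : ∃ η > 0, gronwallBound 0 K (0 + η * Real.exp (K * T)) T < ε / 2 := by
      have h1 : Tendsto (fun η => gronwallBound 0 K (0 + η * Real.exp (K * T)) T) (𝓝[>] 0)
          (𝓝 (gronwallBound 0 K (0 + 0 * Real.exp (K * T)) T)) := by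
        have := (gronwallBound_continuous_ε 0 K T).comp
          (f := fun η : ℝ => 0 + η * Real.exp (K * T)) (by fun_prop)
        exact (this.tendsto 0).mono_left nhdsWithin_le_nhds
      have h2 : gronwallBound 0 K (0 + 0 * Real.exp (K * T)) T = 0 := by
        rw [zero_mul, add_zero, gronwallBound_ε0, zero_mul]
      rw [h2] at h1
      have h3 := (h1.eventually_lt_const (half_pos hε)).and self_mem_nhdsWithin
      obtain ⟨η, h4, h5⟩ := h3.exists
      exact ⟨η, h5, h4⟩
    have h1 : ∀ᶠ p in 𝓝 p₀, ∀ t ∈ Icc 0 T, ‖jac g α T p t - jac g α T p₀ t‖ < η := by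
      refine isCompact_Icc.eventually_forall_of_forall_eventually fun t _ => ?_
      have h2 : Continuous fun q : (E × E) × ℝ => ‖jac g α T q.1 q.2 - jac g α T p₀ q.2‖ :=
        (hBc.sub (hBc.comp (continuous_const.prodMk continuous_snd))).norm
      have h3 := h2.tendsto (p₀, t)
      simp only [sub_self, norm_zero] at h3
      exact h3.eventually_lt_const hη0
    have h2 : ∀ᶠ p in 𝓝 p₀, ∀ t ∈ Icc 0 T, dist (Z p t) (Z p₀ t) < ε / 2 := by
      filter_upwards [h1] with p hp t ht
      have h3 := dist_le_of_approx_trajectories_ODE (v := fun t Y => (jac g α T p₀ t).comp Y)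
        (K := K) (a := 0) (b := T) (f := Z p₀) (g := Z p) (δ := 0) (εf := 0)
        (εg := η * Real.exp (K * T)) (f' := fun t => (jac g α T p₀ t).comp (Z p₀ t))
        (g' := fun t => (jac g α T p t).comp (Z p t)) (hlin p₀) (hZc p₀) (hZ p₀)
        (fun t _ => by simp) (hZc p) (hZ p) (fun t ht => ?_) (by rw [hZ0, hZ0, dist_self]) t ht
      · rw [dist_comm]
        refine lt_of_le_of_lt (h3.trans ?_) hη
        refine gronwallBound_mono le_rfl (by positivity) hK0 ?_
        linarith [ht.2]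
      · rw [dist_eq_norm, ← ContinuousLinearMap.sub_comp]
        refine (ContinuousLinearMap.opNorm_comp_le _ _).trans ?_
        exact mul_le_mul (hp t ⟨ht.1, ht.2.le⟩).le (hZb p t ⟨ht.1, ht.2.le⟩) (norm_nonneg _)
          hη0.le
    have h3 : ∀ᶠ q : (E × E) × ℝ in 𝓝 (p₀, t₀), dist (Z p₀ (clamp T q.2)) (Z p₀ (clamp T t₀)) <
        ε / 2 := by
      have h4 : Continuous fun t => Z p₀ (clamp T t) :=
        (hZc p₀).comp_continuous (continuous_clamp T) fun t => clamp_mem hT0.le t
      have h5 := (h4.comp continuous_snd (X := (E × E) × ℝ)).tendsto (p₀, t₀)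
      exact Metric.tendsto_nhds.mp h5 _ (half_pos hε)
    filter_upwards [(continuous_fst.tendsto (p₀, t₀)).eventually h2, h3] with q hq1 hq2
    calc dist (Z q.1 (clamp T q.2)) (Z p₀ (clamp T t₀))
        ≤ dist (Z q.1 (clamp T q.2)) (Z p₀ (clamp T q.2)) +
          dist (Z p₀ (clamp T q.2)) (Z p₀ (clamp T t₀)) := dist_triangle _ _ _
      _ < ε := by
          have := hq1 (clamp T q.2) (clamp_mem hT0.le _)
          linarith
  refine ⟨T, α, fun x t => Z (x, x) t, hT0, hT1, hα0, hα, ?_, ?_, ?_⟩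
  · intro x t ht
    rw [hasFDerivAt_iff_isLittleO]
    rw [Asymptotics.isLittleO_iff]
    intro c hc
    have h1 : ContinuousAt (fun y => Z (x, y) t) x := by
      have h2 : Continuous fun y : E => Z (x, y) (clamp T t) :=
        hZjoint.comp (f := fun y : E => ((x, y), t)) (by fun_prop)
      rw [clamp_of_mem ht] at h2
      exact h2.continuousAt
    have h3 := Metric.tendsto_nhds.mp h1.tendsto c hc
    filter_upwards [h3] with y hy
    rw [hdiff x y t ht, ← sub_apply]
    refine (ContinuousLinearMap.le_opNorm _ _).trans ?_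
    refine mul_le_mul_of_nonneg_right ?_ (norm_nonneg _)
    rw [dist_eq_norm] at hy
    exact hy.le
  · refine (continuous_clamped hK hα0 hα hT0 hT1).continuousOn.congr ?_
    rintro ⟨x, t⟩ ⟨_, ht⟩
    simp only [clamp_of_mem ht]
  · have h1 : Continuous fun p : E × ℝ => Z (p.1, p.1) (clamp T p.2) :=
      hZjoint.comp (f := fun p : E × ℝ => ((p.1, p.1), p.2)) (by fun_prop)
    refine h1.continuousOn.congr ?_
    rintro ⟨x, t⟩ ⟨_, ht⟩
    simp only [clamp_of_mem ht]

end Pool.Agent.H82.Adapted
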