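import Mathlib
import Pool.Agent.H82.Adapted.OdeLocal

/-!
# The flow of a `C¹` vector field on a compact manifold is `C¹`
-/

set_option linter.unusedSectionVars false

namespace Pool.Agent.H82.Adapted

open Filter Topology Set Bundle
open scoped Manifold ContDiff NNReal

variable {E : Type*} [NormedAddCommGroup E] [NormedSpace ℝ E] [FiniteDimensional ℝ E]
  {H : Type*} [TopologicalSpace H] {I : ModelWithCorners ℝ E H}
  {M : Type*} [TopologicalSpace M] [ChartedSpace H M] [IsManifold I ∞ M]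
  [BoundarylessManifold I M] [T2Space M]

/-- `φ` is the (complete) flow of the vector field `X`. -/
structure IsFlowOf (X : ∀ x : M, TangentSpace I x) (φ : ℝ → M → M) : Prop where
  zero : ∀ x, φ 0 x = x
  curve : ∀ x, IsMIntegralCurve (fun t => φ t x) X

section Group

variable {X : ∀ x : M, TangentSpace I x} {φ : ℝ → M → M}
  (hX : ContMDiff I I.tangent 1 fun x => (⟨x, X x⟩ : TangentBundle I M))
  (hφ : IsFlowOf X φ)

include hX hφ

lemma IsFlowOf.add (s t : ℝ) (x : M) : φ (s + t) x = φ s (φ t x) := by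
  have : IsManifold I 1 M := IsManifold.of_le (n := ∞) (by exact_mod_cast le_top)
  have h1 : IsMIntegralCurve ((fun s => φ s x) ∘ (· + t)) X := (hφ.curve x).comp_add t
  have h2 := hφ.curve (φ t x)
  have h3 := isMIntegralCurve_Ioo_eq_of_contMDiff_boundaryless (t₀ := 0) hX h1 h2
    (by simp [hφ.zero])
  exact congrFun h3 s

/-- The reversed flow. -/
lemma IsFlowOf.neg : IsFlowOf (fun x => -X x) (fun t => φ (-t)) where
  zero x := by simp [hφ.zero]
  curve x := by
    have h1 := (hφ.curve x).comp_mul (-1)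
    have h2 : (fun t => φ (-t) x) = (fun t => φ t x) ∘ (· * (-1)) := by
      ext t; simp
    rw [h2]
    convert h1 using 1
    ext y
    simp

end Group

set_option backward.isDefEq.respectTransparency false in
/-- Integral curves from the chart. -/
lemma isMIntegralCurveOn_of_chart {X : ∀ x : M, TangentSpace I x} {x₀ : M} {f : ℝ → E}
    {s : Set ℝ} (hmem : ∀ t ∈ s, f t ∈ interior (extChartAt I x₀).target)
    (hd : ∀ t ∈ s, HasDerivAt f (tangentCoordChange I ((extChartAt I x₀).symm (f t)) x₀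
      ((extChartAt I x₀).symm (f t)) (X ((extChartAt I x₀).symm (f t)))) t) :
    IsMIntegralCurveOn ((extChartAt I x₀).symm ∘ f) X s := by
  have : IsManifold I 1 M := IsManifold.of_le (n := ∞) (by exact_mod_cast le_top)
  intro t ht
  let xₜ : M := (extChartAt I x₀).symm (f t)
  have h : HasDerivAt f (tangentCoordChange I xₜ x₀ xₜ (X xₜ)) t := hd t ht
  have hf3 := hmem t ht
  have hf3' := mem_of_mem_of_subset hf3 interior_subset
  have hft1 := mem_preimage.mp <|
    mem_of_mem_of_subset hf3' (extChartAt I x₀).target_subset_preimage_source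
  have hft2 := mem_extChartAt_source (I := I) xₜ
  apply HasMFDerivAt.hasMFDerivWithinAt
  refine ⟨(continuousAt_extChartAt_symm'' hf3').comp h.continuousAt,
    HasDerivWithinAt.hasFDerivWithinAt ?_⟩
  simp only [mfld_simps, hasDerivWithinAt_univ]
  change HasDerivAt ((extChartAt I xₜ ∘ (extChartAt I x₀).symm) ∘ f) (X xₜ) t
  rw [← tangentCoordChange_self (I := I) (x := xₜ) (z := xₜ) (v := X xₜ) hft2,
    ← tangentCoordChange_comp (x := x₀) ⟨⟨hft2, hft1⟩, hft2⟩]
  apply HasFDerivAt.comp_hasDerivAt _ _ h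
  apply HasFDerivWithinAt.hasFDerivAt (s := range I) _ <|
    mem_nhds_iff.mpr ⟨interior (extChartAt I x₀).target,
      subset_trans interior_subset (extChartAt_target_subset_range ..),
      isOpen_interior, hf3⟩
  rw [← (extChartAt I x₀).right_inv hf3']
  exact hasFDerivWithinAt_tangentCoordChange ⟨hft1, hft2⟩

/-- The coordinate expression of a `C¹` vector field is `C¹`. -/
lemma contDiffAt_coord {X : ∀ x : M, TangentSpace I x}
    (hX : ContMDiff I I.tangent 1 fun x => (⟨x, X x⟩ : TangentBundle I M)) (x₀ : M) :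
    ContDiffAt ℝ 1 (fun y : E => (tangentCoordChange I ((extChartAt I x₀).symm y) x₀
      ((extChartAt I x₀).symm y) (X ((extChartAt I x₀).symm y)) : E)) (extChartAt I x₀ x₀) := by
  have : IsManifold I 1 M := IsManifold.of_le (n := ∞) (by exact_mod_cast le_top)
  have hv := hX.contMDiffAt (x := x₀)
  rw [contMDiffAt_iff] at hv
  obtain ⟨_, hv⟩ := hv
  exact (hv.contDiffAt (range_mem_nhds_isInteriorPoint
    BoundarylessManifold.isInteriorPoint)).snd

/-- Local form of the flow in the chart at `x₀`. -/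
lemma local_chart_flow {X : ∀ x : M, TangentSpace I x} {φ : ℝ → M → M}
    (hX : ContMDiff I I.tangent 1 fun x => (⟨x, X x⟩ : TangentBundle I M))
    (hφ : IsFlowOf X φ) (x₀ : M) :
    ∃ (T : ℝ) (α : E → ℝ → E) (D : E → ℝ → E →L[ℝ] E) (U : Set M), 0 < T ∧ IsOpen U ∧
      x₀ ∈ U ∧ U ⊆ (extChartAt I x₀).source ∧
      (∀ x ∈ U, ∀ t ∈ Ico 0 T, φ t x = (extChartAt I x₀).symm (α (extChartAt I x₀ x) t)) ∧
      (∀ x ∈ U, ∀ t ∈ Ico 0 T, α (extChartAt I x₀ x) t ∈ interior (extChartAt I x₀).target) ∧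
      (∀ x, ∀ t ∈ Ico 0 T, HasFDerivAt (fun y => α y t) (D x t) x) ∧
      ContinuousOn (fun p : E × ℝ => α p.1 p.2) (univ ×ˢ Ico 0 T) ∧
      ContinuousOn (fun p : E × ℝ => D p.1 p.2) (univ ×ˢ Ico 0 T) := by
  have : IsManifold I 1 M := IsManifold.of_le (n := ∞) (by exact_mod_cast le_top)
  set e := extChartAt I x₀ with he
  set y₀ := e x₀ with hy₀
  set f : E → E := fun y : E => (tangentCoordChange I (e.symm y) x₀
      (e.symm y) (X (e.symm y)) : E) with hf
  have hfC : ContDiffAt ℝ 1 f y₀ := contDiffAt_coord hX x₀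
  have hint : interior e.target ∈ 𝓝 y₀ :=
    isOpen_interior.mem_nhds ((I.isInteriorPoint_iff).mp BoundarylessManifold.isInteriorPoint)
  have hV : ∀ᶠ y in 𝓝 y₀, ContDiffAt ℝ 1 f y ∧ y ∈ interior e.target :=
    (hfC.eventually (by norm_num)).and hint
  obtain ⟨R, hR, hRV⟩ := Metric.nhds_basis_closedBall.eventually_iff.mp hV
  let χ : ContDiffBump y₀ := ⟨R / 2, R, by linarith, by linarith⟩
  set g : E → E := fun y => χ y • f y with hg
  have hsupp : tsupport g ⊆ Metric.closedBall y₀ R := by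
    have h1 : tsupport g ⊆ tsupport χ := closure_mono (by
      intro y hy
      simp only [Function.mem_support, hg] at hy ⊢
      intro h
      exact hy (by rw [h, zero_smul]))
    rwa [χ.tsupport_eq] at h1
  have hgC : ContDiff ℝ 1 g := by
    rw [contDiff_iff_contDiffAt]
    intro y
    by_cases hy : y ∈ tsupport g
    · have h2 := (hRV (hsupp hy)).1
      exact (χ.contDiffAt).smul h2
    · exact contDiffAt_const.congr_of_eventuallyEq (notMem_tsupport_iff_eventuallyEq.mp hy)
  have hgs : HasCompactSupport g := by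
    refine HasCompactSupport.of_support_subset_isCompact (isCompact_closedBall y₀ R) ?_
    exact (subset_tsupport g).trans hsupp
  have hgf : ∀ y ∈ Metric.closedBall y₀ (R / 2), g y = f y := by
    intro y hy
    have : χ y = 1 := χ.one_of_mem_closedBall hy
    simp only [hg, this, one_smul]
  obtain ⟨T, α, D, hT0, hT1, hα0, hα, hD, hαc, hDc⟩ := exists_local_flow hgC hgs
  obtain ⟨C, hC⟩ := hgC.continuous.bounded_above_of_compact_support hgs
  have hC0 : 0 ≤ C := (norm_nonneg _).trans (hC 0)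
  set T' := min T (R / (4 * (C + 1))) with hT'
  have hT'0 : 0 < T' := lt_min hT0 (by positivity)
  have hT'T : T' ≤ T := min_le_left _ _
  have hT'C : C * T' ≤ R / 4 := by
    calc C * T' ≤ (C + 1) * (R / (4 * (C + 1))) :=
          mul_le_mul (by linarith) (min_le_right _ _) hT'0.le (by linarith)
      _ = R / 4 := by field_simp
  have hmem : ∀ y ∈ Metric.ball y₀ (R / 4), ∀ t ∈ Ioo (-T') T', α y t ∈ Metric.ball y₀ (R / 2) := by
    intro y hy t ht
    have h1 : ‖α y t - α y 0‖ ≤ C * ‖t - 0‖ := by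
      refine (convex_Ioo (-1 : ℝ) 1).norm_image_sub_le_of_norm_hasDerivWithin_le
        (f := α y) (f' := fun t => g (α y t))
        (fun s hs => (hα y s hs).hasDerivWithinAt) (fun s _ => hC _) ?_ ?_
      · norm_num
      · exact ⟨by linarith [ht.1], by linarith [ht.2]⟩
    rw [hα0, sub_zero, Real.norm_eq_abs] at h1
    have h2 : |t| < T' := abs_lt.mpr ht
    have h3 : C * |t| ≤ C * T' := mul_le_mul_of_nonneg_left h2.le hC0
    rw [Metric.mem_ball, dist_eq_norm] at hy ⊢
    calc ‖α y t - y₀‖ = ‖(α y t - y) + (y - y₀)‖ := by congr 1; abel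
      _ ≤ ‖α y t - y‖ + ‖y - y₀‖ := norm_add_le _ _
      _ < R / 2 := by linarith
  have hR2 : ∀ y ∈ Metric.ball y₀ (R / 2), y ∈ interior e.target := fun y hy =>
    (hRV (Metric.ball_subset_closedBall.trans
      (Metric.closedBall_subset_closedBall (by linarith)) hy)).2
  set U : Set M := e.source ∩ e ⁻¹' Metric.ball y₀ (R / 4) with hU
  have hUo : IsOpen U :=
    (continuousOn_extChartAt x₀).isOpen_inter_preimage (isOpen_extChartAt_source x₀)
      Metric.isOpen_ball
  have hxU : x₀ ∈ U := ⟨mem_extChartAt_source x₀, Metric.mem_ball_self (by positivity)⟩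
  have hflow : ∀ x ∈ U, ∀ t ∈ Ioo (-T') T', φ t x = e.symm (α (e x) t) := by
    intro x hx
    have hcurve : IsMIntegralCurveOn (e.symm ∘ α (e x)) X (Ioo (-T') T') := by
      refine isMIntegralCurveOn_of_chart (fun t ht => hR2 _ (hmem _ hx.2 t ht)) fun t ht => ?_
      have h1 := hα (e x) t ⟨by linarith [ht.1], by linarith [ht.2]⟩
      rw [hgf _ (Metric.ball_subset_closedBall (hmem _ hx.2 t ht))] at h1
      exact h1
    have h2 := isMIntegralCurveOn_Ioo_eqOn_of_contMDiff_boundaryless (t₀ := 0)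
      (⟨by linarith, hT'0⟩ : (0 : ℝ) ∈ Ioo (-T') T') hX
      ((hφ.curve x).isMIntegralCurveOn (Ioo (-T') T')) hcurve (by
        simp only [hφ.zero, Function.comp_apply, hα0]
        exact (e.left_inv hx.1).symm)
    intro t ht
    exact h2 ht
  refine ⟨T', α, D, U, hT'0, hUo, hxU, inter_subset_left, ?_, ?_, ?_, ?_, ?_⟩
  · intro x hx t ht
    exact hflow x hx t ⟨by linarith [ht.1], ht.2⟩
  · intro x hx t ht
    exact hR2 _ (hmem _ hx.2 t ⟨by linarith [ht.1], ht.2⟩)
  · intro x t ht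
    exact hD x t ⟨ht.1, by linarith [ht.2]⟩
  · exact hαc.mono (prod_mono_right fun t ht => ⟨ht.1, by linarith [ht.2]⟩)
  · exact hDc.mono (prod_mono_right fun t ht => ⟨ht.1, by linarith [ht.2]⟩)

/-- Differentiability of the time `t` maps and continuity of the tangent flow, locally and for
small nonnegative times. -/
lemma local_flow_pos {X : ∀ x : M, TangentSpace I x} {φ : ℝ → M → M}
    (hX : ContMDiff I I.tangent 1 fun x => (⟨x, X x⟩ : TangentBundle I M))
    (hφ : IsFlowOf X φ) (x₀ : M) :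
    ∃ T > 0, ∃ U : Set M, IsOpen U ∧ x₀ ∈ U ∧
      (∀ t ∈ Ico 0 T, ∀ x ∈ U, MDifferentiableAt I I (φ t) x) ∧
      ContinuousOn (fun p : ℝ × TangentBundle I M => tangentMap I I (φ p.1) p.2)
        (Ico 0 T ×ˢ (TotalSpace.proj ⁻¹' U)) := by
  have : IsManifold I 1 M := IsManifold.of_le (n := ∞) (by exact_mod_cast le_top)
  obtain ⟨T, α, D, U, hT, hUo, hxU, hUs, hflow, hin, hD, hαc, hDc⟩ := local_chart_flow hX hφ x₀
  set e := extChartAt I x₀ with he
  have hloc : ∀ t ∈ Ico 0 T, ∀ x ∈ U, φ t =ᶠ[𝓝 x] (e.symm ∘ (fun y => α y t) ∘ e) := by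
    intro t ht x hx
    filter_upwards [hUo.mem_nhds hx] with x' hx'
    exact hflow x' hx' t ht
  have hsrc : ∀ x ∈ U, x ∈ (chartAt H x₀).source := fun x hx => by
    have := hUs hx
    rwa [he, extChartAt_source] at this
  have htar : ∀ x ∈ U, ∀ t ∈ Ico 0 T, α (e x) t ∈ e.target := fun x hx t ht =>
    interior_subset (hin x hx t ht)
  have hφsrc : ∀ x ∈ U, ∀ t ∈ Ico 0 T, φ t x ∈ e.source := fun x hx t ht => by
    rw [hflow x hx t ht]
    exact e.map_target (htar x hx t ht)
  have hφsrc' : ∀ x ∈ U, ∀ t ∈ Ico 0 T, φ t x ∈ (chartAt H x₀).source := fun x hx t ht => by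
    have := hφsrc x hx t ht
    rwa [he, extChartAt_source] at this
  have hmd : ∀ t ∈ Ico 0 T, ∀ x ∈ U, MDifferentiableAt I I (φ t) x := by
    intro t ht x hx
    refine MDifferentiableAt.congr_of_eventuallyEq ?_ (hloc t ht x hx)
    have h1 : MDifferentiableAt I 𝓘(ℝ, E) e x := mdifferentiableAt_extChartAt (hsrc x hx)
    have h2 : MDifferentiableAt 𝓘(ℝ, E) 𝓘(ℝ, E) (fun y => α y t) (e x) :=
      (hD (e x) t ht).differentiableAt.mdifferentiableAt
    have h3 : MDifferentiableAt 𝓘(ℝ, E) I e.symm (α (e x) t) := by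
      have h4 := mdifferentiableWithinAt_extChartAt_symm (I := I) (htar x hx t ht)
      refine h4.mdifferentiableAt ?_
      exact mem_of_superset (isOpen_interior.mem_nhds (hin x hx t ht))
        (interior_subset.trans (extChartAt_target_subset_range x₀))
    exact h3.comp x (h2.comp x h1)
  refine ⟨T, hT, U, hUo, hxU, hmd, ?_⟩
  set τ := trivializationAt E (TangentSpace I : M → Type _) x₀ with hτ
  -- the expression in the trivialization
  have hkey : ∀ p : ℝ × TangentBundle I M, p ∈ Ico 0 T ×ˢ (TotalSpace.proj ⁻¹' U) →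
      tangentMap I I (φ p.1) p.2 = τ.toOpenPartialHomeomorph.symm
        (e.symm (α (e p.2.proj) p.1), D (e p.2.proj) p.1 (τ p.2).2) := by
    rintro ⟨t, p⟩ ⟨ht, hp⟩
    simp only at ht hp ⊢
    have hx : p.proj ∈ U := hp
    set x := p.proj with hxdef
    have hb1 : x ∈ τ.baseSet := by
      rw [hτ, TangentBundle.trivializationAt_baseSet]; exact hsrc x hx
    have hb2 : φ t x ∈ τ.baseSet := by
      rw [hτ, TangentBundle.trivializationAt_baseSet]; exact hφsrc' x hx t ht
    have hq : tangentMap I I (φ t) p ∈ τ.source := by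
      rw [τ.mem_source]
      exact hb2
    have e1 : (τ (tangentMap I I (φ t) p)).2 = D (e x) t (τ p).2 := by
      have h1 := τ.continuousLinearMapAt_apply_of_mem (R := ℝ) hb2 (tangentMap I I (φ t) p).2
      have h2 := τ.continuousLinearMapAt_apply_of_mem (R := ℝ) hb1 p.2
      have h3 := TangentBundle.continuousLinearMapAt_trivializationAt (I := I) (𝕜 := ℝ)
        (hφsrc' x hx t ht)
      have h4 := TangentBundle.continuousLinearMapAt_trivializationAt (I := I) (𝕜 := ℝ)
        (hsrc x hx)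
      have m1 : MDifferentiableAt I 𝓘(ℝ, E) e x := mdifferentiableAt_extChartAt (hsrc x hx)
      have m1' : MDifferentiableAt I 𝓘(ℝ, E) e (φ t x) :=
        mdifferentiableAt_extChartAt (hφsrc' x hx t ht)
      have m2 : MDifferentiableAt 𝓘(ℝ, E) 𝓘(ℝ, E) (fun y => α y t) (e x) :=
        (hD (e x) t ht).differentiableAt.mdifferentiableAt
      have h5 : mfderiv I 𝓘(ℝ, E) (e ∘ φ t) x =
          (mfderiv I 𝓘(ℝ, E) e (φ t x)).comp (mfderiv I I (φ t) x) :=
        mfderiv_comp x m1' (hmd t ht x hx)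
      have h6 : mfderiv I 𝓘(ℝ, E) ((fun y => α y t) ∘ e) x =
          (mfderiv 𝓘(ℝ, E) 𝓘(ℝ, E) (fun y => α y t) (e x)).comp (mfderiv I 𝓘(ℝ, E) e x) :=
        mfderiv_comp x m2 m1
      have h7 : (e ∘ φ t) =ᶠ[𝓝 x] ((fun y => α y t) ∘ e) := by
        filter_upwards [hUo.mem_nhds hx] with x' hx'
        simp only [Function.comp_apply]
        rw [hflow x' hx' t ht, e.right_inv (htar x' hx' t ht)]
      have h8 := h7.mfderiv_eq (I := I) (I' := 𝓘(ℝ, E))
      have h9 : mfderiv 𝓘(ℝ, E) 𝓘(ℝ, E) (fun y => α y t) (e x) = D (e x) t := by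
        rw [mfderiv_eq_fderiv]
        exact (hD (e x) t ht).fderiv
      rw [h5, h6, h9] at h8
      have h10 : mfderiv I 𝓘(ℝ, E) e (φ t x) (mfderiv I I (φ t) x p.2) =
          D (e x) t (mfderiv I 𝓘(ℝ, E) e x p.2) := congrArg (fun L => L p.2) h8
      have a1 : (τ (tangentMap I I (φ t) p)).2 =
          mfderiv I 𝓘(ℝ, E) e (φ t x) (mfderiv I I (φ t) x p.2) := by
        rw [← h3]; exact h1.symm
      have a2 : D (e x) t (mfderiv I 𝓘(ℝ, E) e x p.2) = D (e x) t (τ p).2 := by
        rw [← h4]; exact congrArg _ h2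
      exact a1.trans (h10.trans a2)
    have e2 : τ (tangentMap I I (φ t) p) = (φ t x, D (e x) t (τ p).2) := by
      ext
      · exact τ.coe_fst hq
      · exact e1
    rw [← hflow x hx t ht, ← e2]
    exact (τ.toOpenPartialHomeomorph.left_inv hq).symm
  refine ContinuousOn.congr ?_ hkey
  -- continuity of the right-hand side
  have hproj : Continuous (TotalSpace.proj : TangentBundle I M → M) :=
    FiberBundle.continuous_proj E (TangentSpace I : M → Type _)
  have c0 : ContinuousOn (fun p : ℝ × TangentBundle I M => e p.2.proj)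
      (Ico 0 T ×ˢ (TotalSpace.proj ⁻¹' U)) :=
    (continuousOn_extChartAt x₀).comp (hproj.comp continuous_snd).continuousOn
      fun p hp => hUs hp.2
  have c1 : ContinuousOn (fun p : ℝ × TangentBundle I M => (e p.2.proj, p.1))
      (Ico 0 T ×ˢ (TotalSpace.proj ⁻¹' U)) := c0.prodMk continuous_fst.continuousOn
  have hmaps : MapsTo (fun p : ℝ × TangentBundle I M => (e p.2.proj, p.1))
      (Ico 0 T ×ˢ (TotalSpace.proj ⁻¹' U)) (univ ×ˢ Ico 0 T) := fun p hp => ⟨mem_univ _, hp.1⟩
  have c2 : ContinuousOn (fun p : ℝ × TangentBundle I M => α (e p.2.proj) p.1)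
      (Ico 0 T ×ˢ (TotalSpace.proj ⁻¹' U)) := hαc.comp c1 hmaps
  have c3 : ContinuousOn (fun p : ℝ × TangentBundle I M => D (e p.2.proj) p.1)
      (Ico 0 T ×ˢ (TotalSpace.proj ⁻¹' U)) := hDc.comp c1 hmaps
  have c4 : ContinuousOn (fun p : ℝ × TangentBundle I M => e.symm (α (e p.2.proj) p.1))
      (Ico 0 T ×ˢ (TotalSpace.proj ⁻¹' U)) :=
    (continuousOn_extChartAt_symm x₀).comp c2 fun p hp => htar _ hp.2 _ hp.1
  have c5 : ContinuousOn (fun p : ℝ × TangentBundle I M => (τ p.2).2)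
      (Ico 0 T ×ˢ (TotalSpace.proj ⁻¹' U)) := by
    refine (continuous_snd.comp_continuousOn τ.continuousOn).comp continuous_snd.continuousOn ?_
    intro p hp
    rw [τ.mem_source, hτ, TangentBundle.trivializationAt_baseSet]
    exact hsrc _ hp.2
  have c6 : ContinuousOn (fun p : ℝ × TangentBundle I M =>
      (e.symm (α (e p.2.proj) p.1), D (e p.2.proj) p.1 (τ p.2).2))
      (Ico 0 T ×ˢ (TotalSpace.proj ⁻¹' U)) := c4.prodMk (c3.clm_apply c5)
  refine τ.toOpenPartialHomeomorph.continuousOn_symm.comp c6 fun p hp => ?_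
  have h11 : e.symm (α (e p.2.proj) p.1) ∈ τ.baseSet := by
    rw [hτ, TangentBundle.trivializationAt_baseSet, ← hflow _ hp.2 _ hp.1]
    exact hφsrc' _ hp.2 _ hp.1
  change _ ∈ τ.target
  rw [τ.target_eq]
  exact ⟨h11, mem_univ _⟩

/-- Uniform version for small times, on a compact manifold. -/
lemma small_flow_pos [CompactSpace M] {X : ∀ x : M, TangentSpace I x} {φ : ℝ → M → M}
    (hX : ContMDiff I I.tangent 1 fun x => (⟨x, X x⟩ : TangentBundle I M))
    (hφ : IsFlowOf X φ) :
    ∃ T > 0, (∀ t ∈ Ico 0 T, ∀ x, MDifferentiableAt I I (φ t) x) ∧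
      ContinuousOn (fun p : ℝ × TangentBundle I M => tangentMap I I (φ p.1) p.2)
        (Ico 0 T ×ˢ univ) := by
  choose T hT U hUo hxU hmd hc using local_flow_pos hX hφ
  obtain ⟨s, hs⟩ := (isCompact_univ (X := M)).elim_finite_subcover U hUo
    (fun x _ => mem_iUnion.mpr ⟨x, hxU x⟩)
  rcases s.eq_empty_or_nonempty with h0 | hne
  · refine ⟨1, one_pos, fun t _ x => ?_, ?_⟩
    · have := hs (mem_univ x)
      simp [h0] at this
    · rintro ⟨t, p⟩ _
      have := hs (mem_univ p.proj)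
      simp [h0] at this
  · set T₀ := s.inf' hne T with hT₀
    have hT₀pos : 0 < T₀ := by
      rw [hT₀, Finset.lt_inf'_iff]
      exact fun x _ => hT x
    have hle : ∀ x ∈ s, T₀ ≤ T x := fun x hx => Finset.inf'_le T hx
    refine ⟨T₀, hT₀pos, fun t ht x => ?_, ?_⟩
    · obtain ⟨y, hy, hxy⟩ := mem_iUnion₂.mp (hs (mem_univ x))
      exact hmd y t ⟨ht.1, lt_of_lt_of_le ht.2 (hle y hy)⟩ x hxy
    · rintro ⟨t, p⟩ ⟨ht, _⟩
      obtain ⟨y, hy, hxy⟩ := mem_iUnion₂.mp (hs (mem_univ p.proj))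
      have h1 := hc y (t, p) ⟨⟨ht.1, lt_of_lt_of_le ht.2 (hle y hy)⟩, hxy⟩
      refine h1.mono_of_mem_nhdsWithin ?_
      have hproj : Continuous (TotalSpace.proj : TangentBundle I M → M) :=
        FiberBundle.continuous_proj E (TangentSpace I : M → Type _)
      have h2 : (univ : Set ℝ) ×ˢ (TotalSpace.proj ⁻¹' U y : Set (TangentBundle I M)) ∈
          𝓝 (t, p) := prod_mem_nhds univ_mem (((hUo y).preimage hproj).mem_nhds hxy)
      filter_upwards [mem_nhdsWithin_of_mem_nhds h2, self_mem_nhdsWithin] with q hq1 hq2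
      exact ⟨⟨hq2.1.1, lt_of_lt_of_le hq2.1.2 (hle y hy)⟩, hq1.2⟩

/-- Two-sided version for small times. -/
lemma small_flow [CompactSpace M] {X : ∀ x : M, TangentSpace I x} {φ : ℝ → M → M}
    (hX : ContMDiff I I.tangent 1 fun x => (⟨x, X x⟩ : TangentBundle I M))
    (hφ : IsFlowOf X φ) :
    ∃ T > 0, (∀ t ∈ Ioo (-T) T, ∀ x, MDifferentiableAt I I (φ t) x) ∧
      ContinuousOn (fun p : ℝ × TangentBundle I M => tangentMap I I (φ p.1) p.2)
        (Ioo (-T) T ×ˢ univ) := by
  have : IsManifold I 1 M := IsManifold.of_le (n := ∞) (by exact_mod_cast le_top)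
  have hX' : ContMDiff I I.tangent 1 fun x => (⟨x, -X x⟩ : TangentBundle I M) := hX.neg_section
  obtain ⟨T₁, hT₁, hmd₁, hc₁⟩ := small_flow_pos hX hφ
  obtain ⟨T₂, hT₂, hmd₂, hc₂⟩ := small_flow_pos hX' (hφ.neg hX)
  set T := min T₁ T₂ with hT
  have hle₁ : T ≤ T₁ := min_le_left _ _
  have hle₂ : T ≤ T₂ := min_le_right _ _
  refine ⟨T, lt_min hT₁ hT₂, fun t ht x => ?_, ?_⟩
  · rcases le_total 0 t with h | h
    · exact hmd₁ t ⟨h, by linarith [ht.2]⟩ x
    · have := hmd₂ (-t) ⟨by linarith, by linarith [ht.1]⟩ x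
      simpa using this
  · have k1 : ContinuousOn (fun p : ℝ × TangentBundle I M => tangentMap I I (φ p.1) p.2)
        (Ico 0 T ×ˢ univ) := hc₁.mono (prod_mono_left fun t ht => ⟨ht.1, by linarith [ht.2]⟩)
    have k2 : ContinuousOn (fun p : ℝ × TangentBundle I M => tangentMap I I (φ p.1) p.2)
        (Ioc (-T) 0 ×ˢ univ) := by
      have h1 : Continuous fun p : ℝ × TangentBundle I M => (-p.1, p.2) := by fun_prop
      have h2 := hc₂.comp (s := Ioc (-T) 0 ×ˢ univ) h1.continuousOn (fun p hp =>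
        ⟨⟨by simp only; linarith [hp.1.2], by simp only; linarith [hp.1.1]⟩, mem_univ _⟩)
      refine h2.congr fun p _ => ?_
      simp
    have hTp : 0 < T := lt_min hT₁ hT₂
    rintro ⟨t, p⟩ ⟨ht, _⟩
    simp only at ht
    rcases lt_trichotomy t 0 with h | h | h
    · have h1 := k2 (t, p) ⟨⟨ht.1, h.le⟩, mem_univ _⟩
      refine h1.mono_of_mem_nhdsWithin (mem_nhdsWithin_of_mem_nhds ?_)
      exact prod_mem_nhds (Ioc_mem_nhds ht.1 h) univ_mem
    · subst h
      have h1 := k2 (0, p) ⟨⟨ht.1, le_rfl⟩, mem_univ _⟩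
      have h2 := k1 (0, p) ⟨⟨le_rfl, ht.2⟩, mem_univ _⟩
      refine (h1.union h2).mono ?_
      rintro ⟨s, q⟩ ⟨hs, _⟩
      rcases le_total 0 s with h | h
      · exact Or.inr ⟨⟨h, hs.2⟩, mem_univ _⟩
      · exact Or.inl ⟨⟨hs.1, h⟩, mem_univ _⟩
    · have h1 := k1 (t, p) ⟨⟨h.le, ht.2⟩, mem_univ _⟩
      refine h1.mono_of_mem_nhdsWithin (mem_nhdsWithin_of_mem_nhds ?_)
      exact prod_mem_nhds (Ico_mem_nhds h ht.2) univ_mem

/-- **The flow of a `C¹` vector field on a compact manifold**: the time `t` maps are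
differentiable, and the tangent flow is jointly continuous. -/
theorem flow_C1 [CompactSpace M] {X : ∀ x : M, TangentSpace I x} {φ : ℝ → M → M}
    (hX : ContMDiff I I.tangent 1 fun x => (⟨x, X x⟩ : TangentBundle I M))
    (hφ : IsFlowOf X φ) :
    (∀ t, MDifferentiable I I (φ t)) ∧
      Continuous fun p : ℝ × TangentBundle I M => tangentMap I I (φ p.1) p.2 := by
  have : IsManifold I 1 M := IsManifold.of_le (n := ∞) (by exact_mod_cast le_top)
  obtain ⟨T, hT, hmd, hc⟩ := small_flow hX hφ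
  have key : ∀ n : ℕ, (∀ t ∈ Ioo (-(2 ^ n * T)) (2 ^ n * T), MDifferentiable I I (φ t)) ∧
      ContinuousOn (fun p : ℝ × TangentBundle I M => tangentMap I I (φ p.1) p.2)
        (Ioo (-(2 ^ n * T)) (2 ^ n * T) ×ˢ univ) := by
    intro n
    induction n with
    | zero =>
      simp only [pow_zero, one_mul]
      exact ⟨fun t ht x => hmd t ht x, hc⟩
    | succ n ih =>
      obtain ⟨ih1, ih2⟩ := ih
      have hhalf : ∀ t ∈ Ioo (-(2 ^ (n + 1) * T)) (2 ^ (n + 1) * T),
          t / 2 ∈ Ioo (-(2 ^ n * T)) (2 ^ n * T) := by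
        intro t ht
        have h1 : (2 : ℝ) ^ (n + 1) * T = 2 * (2 ^ n * T) := by ring
        rw [h1] at ht
        exact ⟨by linarith [ht.1], by linarith [ht.2]⟩
      have hcomp : ∀ t, φ t = φ (t / 2) ∘ φ (t / 2) := by
        intro t
        ext x
        rw [Function.comp_apply, ← hφ.add hX]
        congr 1
        ring
      refine ⟨fun t ht => ?_, ?_⟩
      · rw [hcomp t]
        exact (ih1 _ (hhalf t ht)).comp (ih1 _ (hhalf t ht))
      · have h1 : ContinuousOn (fun p : ℝ × TangentBundle I M =>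
            (p.1 / 2, tangentMap I I (φ (p.1 / 2)) p.2))
            (Ioo (-(2 ^ (n + 1) * T)) (2 ^ (n + 1) * T) ×ˢ univ) := by
          refine ContinuousOn.prodMk (by fun_prop) ?_
          exact ih2.comp (s := Ioo (-(2 ^ (n + 1) * T)) (2 ^ (n + 1) * T) ×ˢ univ)
            (f := fun p : ℝ × TangentBundle I M => (p.1 / 2, p.2)) (by fun_prop)
            (fun p hp => ⟨hhalf _ hp.1, mem_univ _⟩)
        have h2 := ih2.comp h1 (fun p hp => ⟨hhalf _ hp.1, mem_univ _⟩)
        refine h2.congr fun p hp => ?_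
        simp only [Function.comp_apply]
        conv_lhs => rw [hcomp p.1]
        exact tangentMap_comp_at p.2 (ih1 _ (hhalf _ hp.1) _) (ih1 _ (hhalf _ hp.1) _)
  have hbig : ∀ t : ℝ, ∃ n : ℕ, t ∈ Ioo (-(2 ^ n * T)) (2 ^ n * T) := by
    intro t
    obtain ⟨n, hn⟩ := pow_unbounded_of_one_lt (|t| / T) (one_lt_two)
    refine ⟨n, ?_⟩
    rw [div_lt_iff₀ hT] at hn
    exact abs_lt.mp hn
  refine ⟨fun t => ?_, ?_⟩
  · obtain ⟨n, hn⟩ := hbig t
    exact (key n).1 t hn
  · rw [continuous_iff_continuousAt]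
    rintro ⟨t, p⟩
    obtain ⟨n, hn⟩ := hbig t
    exact (key n).2.continuousAt (prod_mem_nhds (Ioo_mem_nhds hn.1 hn.2) univ_mem)

end Pool.Agent.H82.Adapted
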