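import Mathlib
import Pool.Agent.H82.Adapted.Defs
import Pool.Agent.H82.Adapted.BundleThm
import Pool.Agent.H82.Adapted.Extend
import Pool.Agent.H82.Adapted.FlowC1

/-!
# Adapted metrics for sectional-hyperbolic sets: the assembly
-/

set_option linter.unusedSectionVars false

namespace Pool.Agent.H82.Adapted

open Module Filter Topology Set Bundle
open scoped Manifold ContDiff

section Gram

variable {T : Type*} [AddCommGroup T] [Module ℝ T]

lemma areaSq_change {g : T →ₗ[ℝ] T →ₗ[ℝ] ℝ} (hs : ∀ v w, g v w = g w v) (a c d : ℝ) (e f : T) :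
    areaSq g (a • e) (c • e + d • f) = a ^ 2 * d ^ 2 * areaSq g e f := by
  simp only [areaSq, map_add, map_smul, LinearMap.add_apply, LinearMap.smul_apply, smul_eq_mul,
    hs f e]
  ring

/-- Area estimates for orthonormal pairs imply them for all pairs. -/
lemma areaSq_gs {g h : T →ₗ[ℝ] T →ₗ[ℝ] ℝ} (hg : IsInner g) (hh : ∀ v w, h v w = h w v)
    (W : Submodule ℝ T) {K : ℝ}
    (hK : ∀ e ∈ W, ∀ f ∈ W, g e e = 1 → g f f = 1 → g e f = 0 → K ≤ areaSq h e f) {v w : T}
    (hv : v ∈ W) (hw : w ∈ W) : K * areaSq g v w ≤ areaSq h v w := by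
  by_cases hv0 : v = 0
  · simp [areaSq, hv0]
  have hvv : 0 < g v v := hg.pos v hv0
  set r := g v w / g v v with hr
  set u := w - r • v with hu
  have hvu : g v u = 0 := by
    rw [hu, map_sub, map_smul, smul_eq_mul, hr, div_mul_cancel₀ _ hvv.ne', sub_self]
  have hwu : w = r • v + u := by rw [hu]; abel
  have huW : u ∈ W := W.sub_mem hw (W.smul_mem _ hv)
  have key : ∀ k : T →ₗ[ℝ] T →ₗ[ℝ] ℝ, (∀ v w, k v w = k w v) → areaSq k v w = areaSq k v u := by
    intro k hk
    have := areaSq_change hk 1 r 1 v u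
    rw [one_smul, one_smul, ← hwu] at this
    rw [this]; ring
  rw [key g hg.symm, key h hh]
  by_cases hu0 : u = 0
  · simp [areaSq, hu0]
  have huu : 0 < g u u := hg.pos u hu0
  set a := Real.sqrt (g v v) with ha
  set b := Real.sqrt (g u u) with hb
  have ha0 : 0 < a := Real.sqrt_pos.mpr hvv
  have hb0 : 0 < b := Real.sqrt_pos.mpr huu
  have ha2 : a ^ 2 = g v v := Real.sq_sqrt hvv.le
  have hb2 : b ^ 2 = g u u := Real.sq_sqrt huu.le
  have h1 := hK (a⁻¹ • v) (W.smul_mem _ hv) (b⁻¹ • u) (W.smul_mem _ huW)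
    (by simp only [map_smul, LinearMap.smul_apply, smul_eq_mul, ← ha2]; field_simp)
    (by simp only [map_smul, LinearMap.smul_apply, smul_eq_mul, ← hb2]; field_simp)
    (by simp only [map_smul, LinearMap.smul_apply, smul_eq_mul, hvu]; ring)
  have h2 : areaSq h v u = a ^ 2 * b ^ 2 * areaSq h (a⁻¹ • v) (b⁻¹ • u) := by
    have := areaSq_change hh a 0 b (a⁻¹ • v) (b⁻¹ • u)
    rw [smul_inv_smul₀ ha0.ne', smul_inv_smul₀ hb0.ne', zero_smul, zero_add] at this
    exact this
  have h3 : areaSq g v u = a ^ 2 * b ^ 2 := by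
    simp only [areaSq, hvu, ha2, hb2]; ring
  rw [h2, h3, mul_comm K]
  exact mul_le_mul_of_nonneg_left h1 (by positivity)

end Gram

variable {V M : Type*} [NormedAddCommGroup V] [NormedSpace ℝ V]
  [TopologicalSpace M] [ChartedSpace V M] [IsManifold 𝓘(ℝ, V) ∞ M]
  {X : ∀ x : M, TangentSpace 𝓘(ℝ, V) x} {φ : ℝ → M → M} {Λ : Set M}
  {E F : ∀ x : M, Submodule ℝ (TangentSpace 𝓘(ℝ, V) x)}

lemma nrm_congr (g : RMetric V M) {x y : M} (h : x = y) (v : V) :
    nrm g (x := x) v = nrm g (x := y) v := by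
  subst h; rfl

lemma D_zero (h0 : ∀ x, φ 0 x = x) (x : M) (v : V) : (D φ 0 x v : V) = v := by
  have h : φ 0 = id := funext h0
  change (mfderiv 𝓘(ℝ, V) 𝓘(ℝ, V) (φ 0) x v : V) = v
  rw [h, mfderiv_id]
  rfl

lemma D_add (hd : ∀ t, MDifferentiable 𝓘(ℝ, V) 𝓘(ℝ, V) (φ t))
    (hadd : ∀ s t x, φ (s + t) x = φ s (φ t x)) (s t : ℝ) (x : M) (v : V) :
    (D φ (s + t) x v : V) = (D φ s (φ t x) (D φ t x v) : V) := by
  have h : φ (s + t) = φ s ∘ φ t := funext fun x => hadd s t x
  change (mfderiv 𝓘(ℝ, V) 𝓘(ℝ, V) (φ (s + t)) x v : V) = _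
  rw [h, mfderiv_comp x (hd s _) (hd t _)]
  rfl


section Fields

/-- The flow restricted to `Λ`. -/
def phiL (hinv : ∀ x ∈ Λ, ∀ t : ℝ, φ t x ∈ Λ) (t : ℝ) (x : Λ) : Λ := ⟨φ t x, hinv x x.2 t⟩

/-- The derivative cocycle over `Λ`. -/
noncomputable def AL (hinv : ∀ x ∈ Λ, ∀ t : ℝ, φ t x ∈ Λ) (t : ℝ) (x : Λ) :
    TangentSpace 𝓘(ℝ, V) (x : M) →ₗ[ℝ] TangentSpace 𝓘(ℝ, V) (phiL hinv t x : M) :=
  (D φ t (x : M)).toLinearMap

/-- The projections of the splitting. -/
noncomputable def PL (h : ∀ x ∈ Λ, IsCompl (E x) (F x)) (x : Λ) :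
    TangentSpace 𝓘(ℝ, V) (x : M) →ₗ[ℝ] TangentSpace 𝓘(ℝ, V) (x : M) :=
  Submodule.projection (E x) (F x) (h x x.2)

/-- The field of forms of a metric. -/
noncomputable def formOf (g : RMetric V M) (x : M) :
    TangentSpace 𝓘(ℝ, V) x →ₗ[ℝ] TangentSpace 𝓘(ℝ, V) x →ₗ[ℝ] ℝ :=
  LinearMap.mk₂ ℝ (fun v w => g.inner x v w) (fun _ _ _ => by simp) (fun _ _ _ => by simp)
    (fun _ _ _ => by simp) (fun _ _ _ => by simp)

@[simp] lemma formOf_apply (g : RMetric V M) (x : M) (v w : TangentSpace 𝓘(ℝ, V) x) :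
    formOf g x v w = g.inner x v w := rfl

/-- The metric made orthogonal for the splitting. -/
noncomputable def orthForm (g : RMetric V M) (h : ∀ x ∈ Λ, IsCompl (E x) (F x)) :
    FormField (fun x : Λ => TangentSpace 𝓘(ℝ, V) (x : M)) := fun x =>
  (formOf g (x : M)).compl₁₂ (PL h x) (PL h x) +
    (formOf g (x : M)).compl₁₂ (LinearMap.id - PL h x) (LinearMap.id - PL h x)

lemma orthForm_apply (g : RMetric V M) (h : ∀ x ∈ Λ, IsCompl (E x) (F x)) (x : Λ)
    (v w : TangentSpace 𝓘(ℝ, V) (x : M)) :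
    orthForm g h x v w = g.inner x (PL h x v) (PL h x w) +
      g.inner x (v - PL h x v) (w - PL h x w) := rfl

lemma PL_eq_self {h : ∀ x ∈ Λ, IsCompl (E x) (F x)} {x : Λ} {v : TangentSpace 𝓘(ℝ, V) (x : M)} :
    PL h x v = v ↔ v ∈ E x := by
  constructor
  · intro hv
    rw [← hv]
    exact Submodule.projection_apply_mem _ _
  · intro hv
    exact Submodule.projection_apply_of_mem_left _ hv

lemma PL_eq_zero {h : ∀ x ∈ Λ, IsCompl (E x) (F x)} {x : Λ} {v : TangentSpace 𝓘(ℝ, V) (x : M)} :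
    PL h x v = 0 ↔ v ∈ F x := Submodule.projection_apply_eq_zero_iff _

lemma PL_mem (h : ∀ x ∈ Λ, IsCompl (E x) (F x)) (x : Λ) (v : TangentSpace 𝓘(ℝ, V) (x : M)) :
    PL h x v ∈ E x := Submodule.projection_apply_mem _ _

lemma PL_sub_mem (h : ∀ x ∈ Λ, IsCompl (E x) (F x)) (x : Λ) (v : TangentSpace 𝓘(ℝ, V) (x : M)) :
    v - PL h x v ∈ F x := by
  rw [← PL_eq_zero (h := h), map_sub, PL_eq_self.mpr (PL_mem h x v), sub_self]

lemma congr_form {b : FormField (fun x : Λ => TangentSpace 𝓘(ℝ, V) (x : M))} {y z : Λ}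
    (h : y = z) (v w : V) : b y v w = b z v w := by
  subst h; rfl

end Fields

section Main

variable [FiniteDimensional ℝ V]

instance (x : M) : FiniteDimensional ℝ (TangentSpace 𝓘(ℝ, V) x) :=
  inferInstanceAs (FiniteDimensional ℝ V)

lemma setting (h0 : ∀ x, φ 0 x = x) (hd : ∀ t, MDifferentiable 𝓘(ℝ, V) 𝓘(ℝ, V) (φ t))
    (hadd : ∀ s t x, φ (s + t) x = φ s (φ t x)) (hinv : ∀ x ∈ Λ, ∀ t : ℝ, φ t x ∈ Λ)
    (hS : IsSplitting φ Λ E F) :
    Setting (phiL hinv) (AL hinv) (PL hS.isCompl) where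
  comp s t b := by
    ext x v w
    simp only [pull_apply]
    have h1 : (AL hinv (s + t) x v : V) = (AL hinv s (phiL hinv t x) (AL hinv t x v) : V) :=
      D_add hd hadd s t (x : M) v
    have h2 : (AL hinv (s + t) x w : V) = (AL hinv s (phiL hinv t x) (AL hinv t x w) : V) :=
      D_add hd hadd s t (x : M) w
    have h3 : phiL hinv (s + t) x = phiL hinv s (phiL hinv t x) := Subtype.ext (hadd s t x)
    have h4 := congr_form (b := b) h3 (AL hinv s (phiL hinv t x) (AL hinv t x v))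
      (AL hinv s (phiL hinv t x) (AL hinv t x w))
    rw [← h4, ← h1, ← h2]
  zero b := by
    ext x v w
    simp only [pull_apply]
    have h1 : (AL hinv 0 x v : V) = v := D_zero (V := V) h0 (x : M) v
    have h2 : (AL hinv 0 x w : V) = w := D_zero (V := V) h0 (x : M) w
    have h3 : phiL hinv 0 x = x := Subtype.ext (h0 x)
    have h4 := congr_form (b := b) h3 v w
    rw [← h4]
    conv_rhs => rw [← h1, ← h2]
  bij t x := by
    have hinj : Function.Injective (AL (V := V) hinv t x) := by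
      intro v w hvw
      have h1 : ∀ u : V, (D (V := V) φ (-t) (φ t x) (D (V := V) φ t x u) : V) = u := by
        intro u
        rw [← D_add (V := V) hd hadd, neg_add_cancel, D_zero (V := V) h0]
      have h2 : (D (V := V) φ t x v : V) = D (V := V) φ t x w := hvw
      have h3 : (D (V := V) φ (-t) (φ t x) (D (V := V) φ t x v) : V) =
          (D (V := V) φ (-t) (φ t x) (D (V := V) φ t x w) : V) := by rw [h2]
      exact (h1 v).symm.trans (h3.trans (h1 w))
    exact ⟨hinj, (LinearMap.injective_iff_surjective_of_finrank_eq_finrank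
      (show finrank ℝ V = finrank ℝ V from rfl)).mp hinj⟩
  idem x v := PL_eq_self.mpr (Submodule.projection_apply_mem _ _)
  equiv t x v := by
    have h1 : AL hinv t x v = AL hinv t x (PL hS.isCompl x v) +
        AL hinv t x (v - PL hS.isCompl x v) := by
      rw [← map_add]; congr 1; abel
    have h2 : AL hinv t x (PL hS.isCompl x v) ∈ E (phiL hinv t x) := by
      have h3 := hS.invariant_E x x.2 t
      have h4 : PL hS.isCompl x v ∈ E x := Submodule.projection_apply_mem _ _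
      have h5 := Submodule.mem_map_of_mem (f := (D φ t (x : M)).toLinearMap) h4
      rw [h3] at h5
      exact h5
    have h2' : AL hinv t x (v - PL hS.isCompl x v) ∈ F (phiL hinv t x) := by
      have h3 := hS.invariant_F x x.2 t
      have h4 : v - PL hS.isCompl x v ∈ F x := PL_sub_mem hS.isCompl x v
      have h5 := Submodule.mem_map_of_mem (f := (D φ t (x : M)).toLinearMap) h4
      rw [h3] at h5
      exact h5
    rw [h1, map_add, PL_eq_self.mpr h2, PL_eq_zero.mpr h2', add_zero]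

lemma orthForm_inn (g : RMetric V M) (h : ∀ x ∈ Λ, IsCompl (E x) (F x)) :
    Inn (PL h) (orthForm g h) where
  inner x := by
    refine ⟨fun v w => ?_, fun v hv => ?_⟩
    · rw [orthForm_apply, orthForm_apply, g.symm, g.symm x (v - _)]
    · rw [orthForm_apply]
      have hnn : ∀ u : TangentSpace 𝓘(ℝ, V) (x : M), 0 ≤ g.inner x u u := by
        intro u
        by_cases hu : u = 0
        · simp [hu]
        · exact (g.pos x u hu).le
      by_cases h1 : PL h x v = 0
      · rw [h1, sub_zero]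
        have := g.pos x v hv
        have := hnn 0
        linarith
      · have := g.pos x _ h1
        have := hnn (v - PL h x v)
        linarith
  orth x v w hv hw := by
    rw [orthForm_apply, hv, hw, sub_self]
    simp


/-- The quadratic function of a metric and a pair of continuous vector fields along a map. -/
lemma continuous_inner (g : RMetric V M) {Z : Type*} [TopologicalSpace Z] {b : Z → M}
    {v w : ∀ z, TangentSpace 𝓘(ℝ, V) (b z)}
    (hv : Continuous fun z => (⟨b z, v z⟩ : TangentBundle 𝓘(ℝ, V) M))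
    (hw : Continuous fun z => (⟨b z, w z⟩ : TangentBundle 𝓘(ℝ, V) M)) :
    Continuous fun z => g.inner (b z) (v z) (w z) := by
  let _ : RiemannianBundle (fun x : M => TangentSpace 𝓘(ℝ, V) x) := ⟨g.toRiemannianMetric⟩
  exact Continuous.inner_bundle hv hw

lemma orthForm_contOn (g : RMetric V M) (hS : IsSplitting φ Λ E F) :
    ContOn V (orthForm g hS.isCompl) := by
  obtain ⟨P, hP, hPv⟩ := hS.continuous
  have h1 : Continuous fun p : {p : TangentBundle 𝓘(ℝ, V) M // p.proj ∈ Λ} =>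
      (⟨p.1.proj, p.1.snd⟩ : TangentBundle 𝓘(ℝ, V) M) := continuous_subtype_val
  have h2 : Continuous fun p : {p : TangentBundle 𝓘(ℝ, V) M // p.proj ∈ Λ} =>
      (⟨p.1.proj, PL hS.isCompl ⟨p.1.proj, p.2⟩ p.1.snd⟩ : TangentBundle 𝓘(ℝ, V) M) := by
    have h3 := continuousOn_iff_continuous_domRestrict.mp hP
    refine Continuous.congr h3 fun p => ?_
    obtain ⟨⟨x, v⟩, hx⟩ := p
    have h4 : v = PL hS.isCompl ⟨x, hx⟩ v + (v - PL hS.isCompl ⟨x, hx⟩ v) := by abel
    have h5 : PL hS.isCompl ⟨x, hx⟩ v ∈ E x := Submodule.projection_apply_mem _ _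
    have h6 : v - PL hS.isCompl ⟨x, hx⟩ v ∈ F x := PL_sub_mem hS.isCompl ⟨x, hx⟩ v
    have h7 := hPv x hx _ h5 _ h6
    rw [← h4] at h7
    exact h7
  have h3 := (((continuous_inner g h1 h1).sub ((continuous_inner g h1 h2).const_mul 2))).add
    ((continuous_inner g h2 h2).const_mul 2)
  unfold ContOn
  refine h3.congr fun p => ?_
  rw [orthForm_apply]
  simp only [map_sub, sub_apply, Pi.add_apply, Pi.sub_apply]
  rw [g.symm _ (PL hS.isCompl ⟨p.1.proj, p.2⟩ p.1.snd) p.1.snd]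
  ring


lemma nrm_sq (g : RMetric V M) {x : M} (v : TangentSpace 𝓘(ℝ, V) x) :
    nrm g v ^ 2 = g.inner x v v := by
  unfold nrm
  rw [Real.sq_sqrt]
  by_cases h : v = 0
  · simp [h]
  · exact (g.pos x v h).le

lemma nrm_nonneg (g : RMetric V M) {x : M} (v : TangentSpace 𝓘(ℝ, V) x) : 0 ≤ nrm g v :=
  Real.sqrt_nonneg _

/-- The squared conditions for the orthogonalised metric. -/
lemma squared (h0 : ∀ x, φ 0 x = x) (hd : ∀ t, MDifferentiable 𝓘(ℝ, V) 𝓘(ℝ, V) (φ t))
    (hadd : ∀ s t x, φ (s + t) x = φ s (φ t x)) (hinv : ∀ x ∈ Λ, ∀ t : ℝ, φ t x ∈ Λ)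
    (hS : IsSplitting φ Λ E F) (g : RMetric V M) {C lam : ℝ} (hC : 1 ≤ C)
    (hg : Conditions g φ Λ E F C lam) :
    (∀ t > 0, ∀ x v w, PL hS.isCompl x v = v → PL hS.isCompl x w = 0 →
      pull (phiL hinv) (AL hinv) t (orthForm g hS.isCompl) x v v *
        orthForm g hS.isCompl x w w ≤ C ^ 2 * Real.exp (-2 * lam * t) *
        (orthForm g hS.isCompl x v v *
          pull (phiL hinv) (AL hinv) t (orthForm g hS.isCompl) x w w)) ∧
    (∀ t > 0, ∀ x v, PL hS.isCompl x v = v →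
      pull (phiL hinv) (AL hinv) t (orthForm g hS.isCompl) x v v ≤
        C ^ 2 * Real.exp (-2 * lam * t) * orthForm g hS.isCompl x v v) ∧
    (∀ t > 0, ∀ x v w, PL hS.isCompl x v = 0 → PL hS.isCompl x w = 0 →
      (C ^ 2)⁻¹ * Real.exp (2 * lam * t) * areaSq (orthForm g hS.isCompl x) v w ≤
        areaSq (pull (phiL hinv) (AL hinv) t (orthForm g hS.isCompl) x) v w) := by
  have hSet := setting h0 hd hadd hinv hS
  have eE : ∀ (x : Λ) (v : TangentSpace 𝓘(ℝ, V) (x : M)), PL hS.isCompl x v = v →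
      orthForm g hS.isCompl x v v = nrm g v ^ 2 := by
    intro x v hv
    rw [orthForm_apply, hv, sub_self, nrm_sq]
    simp
  have eF : ∀ (x : Λ) (v w : TangentSpace 𝓘(ℝ, V) (x : M)), PL hS.isCompl x v = 0 →
      PL hS.isCompl x w = 0 → orthForm g hS.isCompl x v w = g.inner x v w := by
    intro x v w hv hw
    rw [orthForm_apply, hv, hw, sub_zero, sub_zero]
    simp
  have eF' : ∀ (x : Λ) (v : TangentSpace 𝓘(ℝ, V) (x : M)), PL hS.isCompl x v = 0 →
      orthForm g hS.isCompl x v v = nrm g v ^ 2 := by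
    intro x v hv
    rw [eF x v v hv hv, nrm_sq]
  have hAE : ∀ t (x : Λ) (v : TangentSpace 𝓘(ℝ, V) (x : M)), PL hS.isCompl x v = v →
      PL hS.isCompl (phiL hinv t x) (AL hinv t x v) = AL hinv t x v := by
    intro t x v hv
    rw [hSet.equiv, hv]
  have hAF : ∀ t (x : Λ) (v : TangentSpace 𝓘(ℝ, V) (x : M)), PL hS.isCompl x v = 0 →
      PL hS.isCompl (phiL hinv t x) (AL hinv t x v) = 0 := by
    intro t x v hv
    rw [hSet.equiv, hv, map_zero]
  have hexp : ∀ t : ℝ, Real.exp (-2 * lam * t) = Real.exp (-(lam * t)) ^ 2 := by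
    intro t
    rw [sq, ← Real.exp_add]
    congr 1; ring
  refine ⟨?_, ?_, ?_⟩
  · intro t ht x v w hv hw
    have h1 := hg.domination x x.2 t ht v (PL_eq_self.mp hv) (D φ t (x : M) w)
      (PL_eq_zero.mp (hAF t x w hw))
    have h2 : nrm g (D φ (-t) (φ t (x : M)) (D φ t (x : M) w)) = nrm g w := by
      have h3 : (D φ (-t) (φ t (x : M)) (D φ t (x : M) w) : V) = w := by
        have h3 := D_add (V := V) hd hadd (-t) t (x : M) w
        rw [neg_add_cancel, D_zero (V := V) h0] at h3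
        exact h3.symm
      have h4 : φ (-t) (φ t (x : M)) = (x : M) := by
        rw [← hadd, neg_add_cancel, h0]
      have h5 := nrm_congr g h4 w
      rw [← h5]
      exact congrArg (fun u : V => nrm g (x := φ (-t) (φ t (x : M))) u) h3
    rw [h2] at h1
    rw [pull_apply, pull_apply, eE _ _ (hAE t x v hv), eF' _ _ hw, eE _ _ hv,
      eF' _ _ (hAF t x w hw), hexp]
    have h6 : 0 ≤ nrm g (D φ t (x : M) v) * nrm g w :=
      mul_nonneg (nrm_nonneg _ _) (nrm_nonneg _ _)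
    have h7 := pow_le_pow_left₀ h6 h1 2
    have h8 : nrm g (D φ t (x : M) v) = nrm g (AL hinv t x v) := rfl
    have h9 : nrm g (D φ t (x : M) w) = nrm g (AL hinv t x w) := rfl
    rw [h8, h9] at h7
    linear_combination h7
  · intro t ht x v hv
    have h1 := hg.contraction x x.2 t ht v (PL_eq_self.mp hv)
    rw [pull_apply, eE _ _ (hAE t x v hv), eE _ _ hv, hexp]
    have h7 := pow_le_pow_left₀ (nrm_nonneg g _) h1 2
    have h8 : nrm g (D φ t (x : M) v) = nrm g (AL hinv t x v) := rfl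
    rw [h8] at h7
    linear_combination h7
  · intro t ht x v w hv hw
    have hI := orthForm_inn g hS.isCompl
    refine areaSq_gs (hI.inner x) ((hI.pull' hSet t).inner x).symm (F x) ?_
      (PL_eq_zero.mp hv) (PL_eq_zero.mp hw)
    intro e he f hf hee hff hef
    have he' : PL hS.isCompl x e = 0 := PL_eq_zero.mpr he
    have hf' : PL hS.isCompl x f = 0 := PL_eq_zero.mpr hf
    rw [eF _ _ _ he' he'] at hee
    rw [eF _ _ _ hf' hf'] at hff
    rw [eF _ _ _ he' hf'] at hef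
    have h1 := hg.expansion x x.2 t ht e he f hf (by rw [nrm, hee, Real.sqrt_one])
      (by rw [nrm, hff, Real.sqrt_one]) hef
    have h2 : areaSq (pull (phiL hinv) (AL hinv) t (orthForm g hS.isCompl) x) e f =
        g.inner (φ t x) (D φ t (x : M) e) (D φ t (x : M) e) *
          g.inner (φ t x) (D φ t (x : M) f) (D φ t (x : M) f) -
          g.inner (φ t x) (D φ t (x : M) e) (D φ t (x : M) f) ^ 2 := by
      rw [areaSq, pull_apply, pull_apply, pull_apply,
        eF _ _ _ (hAF t x e he') (hAF t x e he'), eF _ _ _ (hAF t x f hf') (hAF t x f hf'),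
        eF _ _ _ (hAF t x e he') (hAF t x f hf')]
      rfl
    rw [h2]
    have hC0 : 0 < C := by linarith
    have h3 : 0 ≤ C⁻¹ * Real.exp (lam * t) := by positivity
    have h4 : (C⁻¹ * Real.exp (lam * t)) ^ 2 ≤
        area g (D φ t (x : M) e) (D φ t (x : M) f) ^ 2 := pow_le_pow_left₀ h3 h1 2
    have h5 : 0 ≤ g.inner (φ t x) (D φ t (x : M) e) (D φ t (x : M) e) *
          g.inner (φ t x) (D φ t (x : M) f) (D φ t (x : M) f) -
          g.inner (φ t x) (D φ t (x : M) e) (D φ t (x : M) f) ^ 2 := by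
      by_contra hneg
      push Not at hneg
      have : area g (D φ t (x : M) e) (D φ t (x : M) f) = 0 := Real.sqrt_eq_zero'.mpr hneg.le
      rw [this] at h1
      have : 0 < C⁻¹ * Real.exp (lam * t) := by positivity
      linarith
    rw [area, Real.sq_sqrt h5] at h4
    refine le_trans (le_of_eq ?_) h4
    rw [mul_pow, inv_pow, sq (Real.exp (lam * t)), ← Real.exp_add]
    congr 2; ring

/-- From the squared conditions back to the conditions with `C = 1`. -/
lemma conditions_of_adaptedAt (h0 : ∀ x, φ 0 x = x)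
    (hd : ∀ t, MDifferentiable 𝓘(ℝ, V) 𝓘(ℝ, V) (φ t))
    (hadd : ∀ s t x, φ (s + t) x = φ s (φ t x)) (hinv : ∀ x ∈ Λ, ∀ t : ℝ, φ t x ∈ Λ)
    (hS : IsSplitting φ Λ E F) {G : FormField (fun x : Λ => TangentSpace 𝓘(ℝ, V) (x : M))}
    {lam : ℝ} (hG : ∀ t > 0, AdaptedAt (phiL hinv) (AL hinv) (PL hS.isCompl) G lam t)
    (g : RMetric V M) (hg : ∀ x (hx : x ∈ Λ), ∀ v w, g.inner x v w = G ⟨x, hx⟩ v w) :
    Conditions g φ Λ E F 1 lam where
  domination x hx t ht v hv w hw := by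
    set w₀ : TangentSpace 𝓘(ℝ, V) x := (D φ (-t) (φ t x) w : V) with hw₀
    have hxx : φ (-t) (φ t x) = x := by rw [← hadd, neg_add_cancel, h0]
    have hxx' : φ t (φ (-t) (φ t x)) = φ t x := by rw [hxx]
    have k1 : nrm g (D φ (-t) (φ t x) w) = nrm g w₀ := nrm_congr g hxx w₀
    have hDw : (D φ t x w₀ : V) = w := by
      have h3 := D_add (V := V) hd hadd t (-t) (φ t x) w
      rw [add_neg_cancel, D_zero (V := V) h0] at h3
      have h4 : ∀ {y z : M} (_ : y = z) (u : V), (D (V := V) φ t y u : V) = D (V := V) φ t z u := by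
        intro y z h u; subst h; rfl
      have h5 := h4 hxx (D φ (-t) (φ t x) w : V)
      exact (h3.trans h5).symm
    have hw₀F : w₀ ∈ F x := by
      have h1 := hS.invariant_F (φ t x) (hinv x hx t) (-t)
      have h2 := Submodule.mem_map_of_mem (f := (D φ (-t) (φ t x)).toLinearMap) hw
      rw [h1] at h2
      have h3 : ∀ {y z : M} (_ : y = z) (u : V),
          (show TangentSpace 𝓘(ℝ, V) y from u) ∈ F y →
          (show TangentSpace 𝓘(ℝ, V) z from u) ∈ F z := by
        intro y z h u hu; subst h; exact hu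
      exact h3 hxx _ h2
    have h1 := (hG t ht).dom ⟨x, hx⟩ v w₀ (PL_eq_self.mpr hv) (PL_eq_zero.mpr hw₀F)
    have hgt : ∀ v w : TangentSpace 𝓘(ℝ, V) (phiL hinv t ⟨x, hx⟩ : M),
        G (phiL hinv t ⟨x, hx⟩) v w = g.inner (φ t x) v w :=
      fun v w => (hg (φ t x) (hinv x hx t) v w).symm
    rw [pull_apply, pull_apply, ← hg x hx, ← hg x hx, hgt, hgt] at h1
    have e1 : g.inner (φ t x) (AL hinv t ⟨x, hx⟩ w₀) (AL hinv t ⟨x, hx⟩ w₀) = nrm g w ^ 2 := by
      rw [nrm_sq]
      exact congrArg (fun u : V => g.inner (φ t x) u u) hDw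
    have e2 : g.inner (φ t x) (AL hinv t ⟨x, hx⟩ v) (AL hinv t ⟨x, hx⟩ v) =
        nrm g (D φ t x v) ^ 2 := (nrm_sq g _).symm
    rw [e1, e2, ← nrm_sq g v, ← nrm_sq g w₀] at h1
    rw [k1, one_mul]
    refine le_of_sq_le_sq ?_ (by
      have := nrm_nonneg g v
      have := nrm_nonneg g w
      positivity)
    have h2 : Real.exp (-(lam * t)) ^ 2 = Real.exp (-2 * lam * t) := by
      rw [sq, ← Real.exp_add]; congr 1; ring
    rw [mul_pow, mul_pow, mul_pow, h2]
    exact h1
  contraction x hx t ht v hv := by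
    have h1 := (hG t ht).contr ⟨x, hx⟩ v (PL_eq_self.mpr hv)
    have hgt : ∀ v w : TangentSpace 𝓘(ℝ, V) (phiL hinv t ⟨x, hx⟩ : M),
        G (phiL hinv t ⟨x, hx⟩) v w = g.inner (φ t x) v w :=
      fun v w => (hg (φ t x) (hinv x hx t) v w).symm
    rw [pull_apply, ← hg x hx, hgt] at h1
    have e2 : g.inner (φ t x) (AL hinv t ⟨x, hx⟩ v) (AL hinv t ⟨x, hx⟩ v) =
        nrm g (D φ t x v) ^ 2 := (nrm_sq g _).symm
    rw [e2, ← nrm_sq g v] at h1
    rw [one_mul]
    refine le_of_sq_le_sq ?_ (by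
      have := nrm_nonneg g v
      positivity)
    have h2 : Real.exp (-(lam * t)) ^ 2 = Real.exp (-2 * lam * t) := by
      rw [sq, ← Real.exp_add]; congr 1; ring
    rw [mul_pow, h2]
    exact h1
  expansion x hx t ht v hv w hw hvv hww hvw := by
    have h1 := (hG t ht).area ⟨x, hx⟩ v w (PL_eq_zero.mpr hv) (PL_eq_zero.mpr hw)
    have e1 : areaSq (G ⟨x, hx⟩) v w = 1 := by
      rw [areaSq, ← hg x hx, ← hg x hx, ← hg x hx, ← nrm_sq g v, ← nrm_sq g w, hvv, hww, hvw]
      norm_num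
    have e2 : areaSq (pull (phiL hinv) (AL hinv) t G ⟨x, hx⟩) v w =
        g.inner (φ t x) (D φ t x v) (D φ t x v) * g.inner (φ t x) (D φ t x w) (D φ t x w) -
          g.inner (φ t x) (D φ t x v) (D φ t x w) ^ 2 := by
      have hgt : ∀ v w : TangentSpace 𝓘(ℝ, V) (phiL hinv t ⟨x, hx⟩ : M),
          G (phiL hinv t ⟨x, hx⟩) v w = g.inner (φ t x) v w :=
        fun v w => (hg (φ t x) (hinv x hx t) v w).symm
      rw [areaSq, pull_apply, pull_apply, pull_apply, hgt, hgt, hgt]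
      rfl
    rw [e1, e2, mul_one] at h1
    rw [inv_one, one_mul, area]
    refine Real.le_sqrt_of_sq_le ?_
    refine le_trans (le_of_eq ?_) h1
    rw [sq, ← Real.exp_add]; congr 1; ring

/-- **Adapted metrics for sectional-hyperbolic sets.** -/
theorem adapted_metric [T2Space M] [CompactSpace M]
    (hX : ContMDiff 𝓘(ℝ, V) 𝓘(ℝ, V).tangent 1 fun x => (⟨x, X x⟩ : TangentBundle 𝓘(ℝ, V) M))
    (hφ : IsFlow X φ) (hΛ : IsCompact Λ)
    (hinv : ∀ x ∈ Λ, ∀ t : ℝ, φ t x ∈ Λ)
    (h : SectionalHyperbolic φ Λ E F) :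
    ∃ g : RMetric V M, IsAdapted g φ Λ E F := by
  obtain ⟨hS, g, C, lam, hC, hlam, hg⟩ := h
  have hφ' : IsFlowOf X φ := ⟨hφ.zero, hφ.curve⟩
  obtain ⟨hd, hcont⟩ := flow_C1 hX hφ'
  have hadd := hφ'.add hX
  have hK : CompactSpace Λ := isCompact_iff_compactSpace.mp hΛ
  obtain ⟨q1, q2, q3⟩ := squared hφ.zero hd hadd hinv hS g hC hg
  have hΦ : Continuous fun r : ℝ × {p : TangentBundle 𝓘(ℝ, V) M // p.proj ∈ Λ} =>
      tot V (𝓔 := fun x : M => TangentSpace 𝓘(ℝ, V) x) (phiL hinv) (AL hinv) r.1 r.2 := by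
    refine Continuous.subtype_mk ?_ _
    exact hcont.comp (continuous_fst.prodMk (continuous_subtype_val.comp continuous_snd))
  obtain ⟨G, hG1, hG2, lam', hlam', hG3⟩ := bundle_adapted (F := V)
    (𝓔 := fun x : M => TangentSpace 𝓘(ℝ, V) x) hΦ (setting hφ.zero hd hadd hinv hS)
    (orthForm_inn g hS.isCompl) (orthForm_contOn g hS) hC hlam q1 q2 q3
  obtain ⟨g', hg'⟩ := exists_metric_extension 𝓘(ℝ, V) hΛ.isClosed g hG1.inner hG2
  exact ⟨g', lam', hlam', conditions_of_adaptedAt hφ.zero hd hadd hinv hS hG3 g' hg'⟩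

end Main

end Pool.Agent.H82.Adapted
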